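import Pool.Agent.MP_8be872_ag.H38.Spec

/-! Supports, restrictions and the `q`-adic filtration of the Hahn series field. -/

namespace Pool.Agent.MP_8be872_ag.H38

open Finset Filter

/-- coordinate functional -/
def co (r : ℕ) : G →+ ℤ where
  toFun g := ofLex g r
  map_zero' := rfl
  map_add' _ _ := rfl

lemma co_gen (r s : ℕ) : co r (gen s) = if s = r then 1 else 0 := by
  simp [co, gen, Finsupp.single_apply]

lemma co_mono {g h : G} (hgh : g ≤ h) : co 0 g ≤ co 0 h := by
  rcases hgh.eq_or_lt with rfl | hlt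
  · exact le_rfl
  · obtain ⟨i, hi, hlt⟩ := hlt
    rcases Nat.eq_zero_or_pos i with rfl | hpos
    · exact hlt.le
    · exact (hi 0 hpos).le

lemma pos_of_co0 {g : G} (h : 0 < co 0 g) : 0 < g := by
  by_contra hn
  have := co_mono (not_lt.mp hn)
  simp at this
  omega

lemma pos_of_co1 {g : G} (h0 : co 0 g = 0) (h : 0 < co 1 g) : 0 < g := by
  refine ⟨1, fun j hj => ?_, h⟩
  have : j = 0 := by omega
  subst this
  exact h0.symm

lemma mon_add (g h : G) : mon (g + h) = mon g * mon h := by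
  simp [mon, HahnSeries.single_mul_single]

lemma mon_zero : mon 0 = 1 := rfl

lemma mon_ne (g : G) : mon g ≠ 0 := by simp [mon]

lemma mon_neg (g : G) : mon (-g) = (mon g)⁻¹ := by simp [mon, HahnSeries.inv_single]

lemma mon_sub (g h : G) : mon (g - h) = mon g / mon h := by
  rw [sub_eq_add_neg, mon_add, mon_neg, div_eq_mul_inv]

lemma mon_nsmul (n : ℕ) (g : G) : mon (n • g) = mon g ^ n := by
  simp [mon, HahnSeries.single_pow]

lemma mon_zsmul (n : ℤ) (g : G) : mon (n • g) = mon g ^ n := by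
  obtain ⟨m, rfl | rfl⟩ := Int.eq_nat_or_neg n
  · simp [mon_nsmul]
  · simp [mon_neg, mon_nsmul]

lemma mon_inj {g h : G} (H : mon g = mon h) : g = h := by
  by_contra hne
  have := congrArg (fun f : K => f.coeff g) H
  simp [mon, hne] at this

lemma mon_eq_one {g : G} : mon g = 1 ↔ g = 0 :=
  ⟨fun h => mon_inj (h.trans mon_zero.symm), fun h => h ▸ mon_zero⟩

lemma one_sub_mon_ne {g : G} (h : g ≠ 0) : 1 - mon g ≠ 0 := fun H =>
  h (mon_eq_one.mp (sub_eq_zero.mp H).symm)

lemma mon_sum {α : Type} (s : Finset α) (f : α → G) : mon (∑ a ∈ s, f a) = ∏ a ∈ s, mon (f a) := by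
  classical
  induction s using Finset.induction_on with
  | empty => simp [mon_zero]
  | insert a s ha ih => rw [sum_insert ha, prod_insert ha, mon_add, ih]

/-- series supported in a set -/
def Sup (S : Set G) : AddSubgroup K where
  carrier := {f | f.support ⊆ S}
  zero_mem' := by simp
  add_mem' := fun {a b} ha hb =>
    (HahnSeries.support_add_subset a b).trans (Set.union_subset ha hb)
  neg_mem' := fun {a} ha => by simpa using ha

lemma mem_Sup {S : Set G} {f : K} : f ∈ Sup S ↔ f.support ⊆ S := Iff.rfl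

lemma Sup_mono {S T : Set G} (h : S ⊆ T) {f : K} (hf : f ∈ Sup S) : f ∈ Sup T :=
  Set.Subset.trans hf h

lemma mon_mem {S : Set G} {g : G} (h : g ∈ S) : mon g ∈ Sup S :=
  HahnSeries.support_single_subset.trans (by simpa using h)

lemma mul_mem_Sup {A B C : Set G} (h : ∀ a ∈ A, ∀ b ∈ B, a + b ∈ C) {f g : K} (hf : f ∈ Sup A)
    (hg : g ∈ Sup B) : f * g ∈ Sup C := by
  intro x hx
  obtain ⟨a, ha, b, hb, rfl⟩ := HahnSeries.support_mul_subset hx
  exact h a (hf ha) b (hg hb)

/-- series supported in a submonoid -/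
def CS (S : AddSubmonoid G) : Subring K where
  carrier := {f | f.support ⊆ S}
  zero_mem' := by simp
  add_mem' := fun ha hb => (Sup S).add_mem ha hb
  neg_mem' := fun ha => (Sup S).neg_mem ha
  one_mem' := mon_mem (S := S) S.zero_mem
  mul_mem' := fun ha hb => mul_mem_Sup (fun _ ha _ hb => S.add_mem ha hb) ha hb

lemma mem_CS {S : AddSubmonoid G} {f : K} : f ∈ CS S ↔ f ∈ Sup S := Iff.rfl

lemma mon_mem_CS {S : AddSubmonoid G} {g : G} (h : g ∈ S) : mon g ∈ CS S := mon_mem (S := S) h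

lemma geo_mem {S : AddSubmonoid G} {u : G} (hu : 0 < u) (h : u ∈ S) : (1 - mon u)⁻¹ ∈ CS S := by
  have hx : 0 < (mon u).orderTop := by
    rw [mon, HahnSeries.orderTop_single one_ne_zero]; exact_mod_cast hu
  have h1 := HahnSeries.SummableFamily.one_sub_self_mul_hsum_powers hx
  rw [← eq_inv_of_mul_eq_one_right h1]
  refine HahnSeries.SummableFamily.support_hsum_subset.trans ?_
  refine Set.iUnion_subset fun n => ?_
  rw [HahnSeries.SummableFamily.powers_of_orderTop_pos hx]
  exact (CS S).pow_mem (mon_mem_CS h) n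

lemma geo_flip {u : G} (hu : u ≠ 0) : (1 - mon u)⁻¹ = -(mon (-u) * (1 - mon (-u))⁻¹) := by
  have h1 := one_sub_mon_ne hu
  have h2 := one_sub_mon_ne (neg_ne_zero.mpr hu)
  have h3 := mon_ne u
  rw [mon_neg] at h2 ⊢
  have : 1 - (mon u)⁻¹ = -(1 - mon u) / mon u := by field_simp; ring
  rw [this]
  field_simp

lemma geo_mem' {S : AddSubmonoid G} {u : G} (h : u ∈ S) (h' : -u ∈ S) :
    (1 - mon u)⁻¹ ∈ CS S := by
  rcases lt_trichotomy u 0 with hu | rfl | hu
  · rw [geo_flip hu.ne]
    exact (CS S).neg_mem ((CS S).mul_mem (mon_mem_CS h') (geo_mem (neg_pos.mpr hu) h'))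
  · simp [mon_zero]
  · exact geo_mem hu h

open Classical in
/-- restriction to a set of exponents -/
noncomputable def res (S : Set G) : K →+ K where
  toFun f :=
    { coeff := fun g => if g ∈ S then f.coeff g else 0
      isPWO_support' := f.isPWO_support.mono (by
        intro g hg
        by_contra h
        simp only [HahnSeries.mem_support, not_not] at h
        simp [h] at hg) }
  map_zero' := by ext g; simp
  map_add' f h := by
    ext g
    by_cases hg : g ∈ S <;> simp [hg]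

open Classical in
lemma res_coeff (S : Set G) (f : K) (g : G) :
    (res S f).coeff g = if g ∈ S then f.coeff g else 0 := rfl

lemma res_mem (S : Set G) (f : K) : res S f ∈ Sup S := by
  intro g hg
  by_contra h
  simp [res_coeff, h] at hg

lemma res_mem_of {S T : Set G} {f : K} (hf : f ∈ Sup T) : res S f ∈ Sup T := by
  intro g hg
  apply hf
  by_cases h : g ∈ S
  · simpa [res_coeff, h] using hg
  · simp [res_coeff, h] at hg

lemma res_of_mem {S : Set G} {f : K} (hf : f ∈ Sup S) : res S f = f := by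
  ext g
  rw [res_coeff]
  split_ifs with h
  · rfl
  · by_contra hne
    exact h (hf (by simpa using Ne.symm hne))

lemma res_eq_zero {S : Set G} {f : K} (hf : f ∈ Sup Sᶜ) : res S f = 0 := by
  ext g
  rw [res_coeff]
  split_ifs with h
  · by_contra hne
    exact hf (by simpa using hne) h
  · rfl

lemma res_res {S T : Set G} (f : K) : res S (res T f) = res (S ∩ T) f := by
  ext g
  by_cases h1 : g ∈ S <;> by_cases h2 : g ∈ T <;> simp [res_coeff, h1, h2]

lemma res_add_compl (S : Set G) (f : K) : res S f + res Sᶜ f = f := by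
  ext g
  by_cases h1 : g ∈ S <;> simp [res_coeff, h1]

lemma res_mul {S : AddSubgroup G} {c : K} (hc : c ∈ Sup S) (f : K) :
    res S (c * f) = c * res S f := by
  conv_lhs => rw [← res_add_compl S f, mul_add, map_add]
  rw [res_of_mem (f := c * res S f), res_eq_zero (f := c * res (S : Set G)ᶜ f), add_zero]
  · refine mul_mem_Sup (C := (S : Set G)ᶜ) ?_ hc (res_mem _ _)
    intro a ha b hb hab
    apply hb
    simpa using S.sub_mem hab ha
  · exact mul_mem_Sup (fun a ha b hb => S.add_mem ha hb) hc (res_mem _ _)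

/-- exponents on which a functional is at least `c` -/
def Ge (π : G →+ ℤ) (c : ℤ) : Set G := {g | c ≤ π g}

/-- the same for `c = 0`, as a monoid -/
def Ge0 (π : G →+ ℤ) : AddSubmonoid G where
  carrier := Ge π 0
  zero_mem' := by simp [Ge]
  add_mem' := fun {a b} ha hb => by simp only [Ge, Set.mem_ofPred_eq, map_add] at *; omega

lemma mul_Ge {π : G →+ ℤ} {a b : ℤ} {f g : K} (hf : f ∈ Sup (Ge π a)) (hg : g ∈ Sup (Ge π b)) :
    f * g ∈ Sup (Ge π (a + b)) :=
  mul_mem_Sup (fun x hx y hy => by simp only [Ge, Set.mem_ofPred_eq, map_add] at *; omega) hf hg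

lemma Ge_mono {π : G →+ ℤ} {a b : ℤ} (h : a ≤ b) {f : K} (hf : f ∈ Sup (Ge π b)) :
    f ∈ Sup (Ge π a) := Sup_mono (fun _ hx => le_trans h hx) hf

/-- the `q`-adic filtration -/
abbrev FF (N : ℤ) : AddSubgroup K := Sup (Ge (co 0) N)

lemma exists_FF (f : K) : ∃ B, f ∈ FF B :=
  ⟨co 0 f.order, fun _ hg => co_mono (HahnSeries.order_le_of_coeff_ne_zero hg)⟩

lemma exists_FF_all {B : Type} [Fintype B] (f : B → K) : ∃ N, ∀ b, f b ∈ FF N := by
  choose N hN using fun b => exists_FF (f b)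
  obtain ⟨M, hM⟩ := (Set.finite_range N).bddBelow
  exact ⟨M, fun b => Ge_mono (hM ⟨b, rfl⟩) (hN b)⟩

lemma mon_FF (g : G) : mon g ∈ FF (co 0 g) := mon_mem (S := Ge (co 0) _) (le_refl (co 0 g))

lemma geo_FF {u : G} (h : co 0 u = 0) : (1 - mon u)⁻¹ ∈ FF 0 :=
  geo_mem' (S := Ge0 (co 0)) (show (0 : ℤ) ≤ co 0 u by omega)
    (show (0 : ℤ) ≤ co 0 (-u) by simp [h])

variable {ι : Type}

/-- sequences tending to zero `q`-adically -/
def Null (𝓕 : Filter ι) : Submodule K (ι → K) where
  carrier := {a | ∀ N, ∀ᶠ i in 𝓕, a i ∈ FF N}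
  zero_mem' := fun N => Eventually.of_forall fun _ => (FF N).zero_mem
  add_mem' := fun ha hb N => ((ha N).and (hb N)).mono fun _ h => (FF N).add_mem h.1 h.2
  smul_mem' := fun c a ha N => by
    obtain ⟨B, hB⟩ := exists_FF c
    refine (ha (N - B)).mono fun i hi => ?_
    simpa using mul_Ge hB hi

lemma mem_Null {𝓕 : Filter ι} {a : ι → K} : a ∈ Null 𝓕 ↔ ∀ N, ∀ᶠ i in 𝓕, a i ∈ FF N := Iff.rfl

lemma Null_mul_res {𝓕 : Filter ι} {a b : ι → K} (ha : a ∈ Null 𝓕) {B : ℤ} (hb : ∀ i, b i ∈ FF B)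
    (S : Set G) : (fun i => res S (b i * a i)) ∈ Null 𝓕 := fun N =>
  (ha (N - B)).mono fun i hi => res_mem_of (by simpa using mul_Ge (hb i) hi)

lemma Null_mul {𝓕 : Filter ι} {a b : ι → K} (ha : a ∈ Null 𝓕) {B : ℤ} (hb : ∀ i, b i ∈ FF B) :
    (fun i => b i * a i) ∈ Null 𝓕 := fun N =>
  (ha (N - B)).mono fun i hi => by simpa using mul_Ge (hb i) hi

lemma Null_of_approx {𝓕 : Filter ι} {a : ι → K}
    (h : ∀ N, ∃ b ∈ Null 𝓕, ∀ i, a i - b i ∈ FF N) : a ∈ Null 𝓕 := fun N => by
  obtain ⟨b, hb, hab⟩ := h N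
  exact (hb N).mono fun i hi => by simpa using (FF N).add_mem (hab i) hi

lemma Null_of_eventually {𝓕 : Filter ι} {a : ι → K} (h : ∀ᶠ i in 𝓕, a i = 0) : a ∈ Null 𝓕 :=
  fun N => h.mono fun i hi => by rw [hi]; exact (FF N).zero_mem

end Pool.Agent.MP_8be872_ag.H38
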