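import Pool.Agent.MP_8be872_ag.H38.Induct

/-! The infinite product. -/

namespace Pool.Agent.MP_8be872_ag.H38

open Finset Filter

set_option maxHeartbeats 400000

variable {ι : Type} {𝓕 : Filter ι} {n : ℕ}

variable (𝓕) in
/-- `q`-adic limit -/
def Lim (a : ι → K) (x : K) : Prop := (fun k => a k - x) ∈ Null 𝓕

lemma Lim.const (x : K) : Lim 𝓕 (fun _ => x) x :=
  Null_of_eventually (Eventually.of_forall fun _ => sub_self _)

lemma Lim.mul {a b : ι → K} {x y : K} (ha : Lim 𝓕 a x) (hb : Lim 𝓕 b y) :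
    Lim 𝓕 (fun k => a k * b k) (x * y) := fun N => by
  have h1 := add_mem ((Null 𝓕).smul_mem x hb) ((Null 𝓕).smul_mem y ha) N
  refine (h1.and ((ha N).and (hb 0))).mono fun k hk => ?_
  have := add_mem hk.1 (show _ ∈ FF N by simpa using mul_Ge hk.2.1 hk.2.2)
  convert this using 1
  simp only [Pi.add_apply, Pi.smul_apply, smul_eq_mul]
  ring

lemma Lim.sum {α : Type} (s : Finset α) {a : α → ι → K} {x : α → K}
    (h : ∀ i ∈ s, Lim 𝓕 (a i) (x i)) : Lim 𝓕 (fun k => ∑ i ∈ s, a i k) (∑ i ∈ s, x i) := by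
  have := (Null 𝓕).sum_mem h
  unfold Lim
  convert this using 1
  ext1 k
  simp only [Finset.sum_apply, sum_sub_distrib]

lemma cZ_lim (g : ι → (Fin n → ℤ) → PowerSeries K) (g' : (Fin n → ℤ) → PowerSeries K)
    (h : ∀ α j, Lim 𝓕 (fun k => PowerSeries.coeff j (g k α)) (PowerSeries.coeff j (g' α)))
    (S : Finset (Fin n → ℤ)) (hS : ∀ α ∈ S, 0 ≤ α ∧ α ≠ 0) (D : Fin n → ℤ) :
    Lim 𝓕 (fun k => cZ (∏ α ∈ S, zs (toF α) (g k α)) D) (cZ (∏ α ∈ S, zs (toF α) (g' α)) D) := by
  induction S using Finset.induction_on generalizing D with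
  | empty => simpa only [prod_empty] using Lim.const _
  | insert α S hα ih =>
    obtain ⟨h1, h2⟩ := hS α (mem_insert_self _ _)
    obtain ⟨R, hR⟩ := (exists_R h1 h2 D).exists
    simp only [prod_insert hα, cZ_zs_mul h1 h2 _ _ R hR]
    exact Lim.sum _ fun j _ => (h α j).mul (ih (fun β hβ => hS β (mem_insert_of_mem hβ)) _)

lemma cZ_scale (b : Fin n → ℤ) (g : (Fin n → ℤ) → PowerSeries K)
    (S : Finset (Fin n → ℤ)) (hS : ∀ α ∈ S, 0 ≤ α ∧ α ≠ 0) (D : Fin n → ℤ) :
    cZ (∏ α ∈ S, zs (toF α) (PowerSeries.rescale (ss ^ (b ⬝ᵥ α)) (g α))) D =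
      ss ^ (b ⬝ᵥ D) * cZ (∏ α ∈ S, zs (toF α) (g α)) D := by
  induction S using Finset.induction_on generalizing D with
  | empty =>
    simp only [prod_empty, cZ_one]
    split_ifs with h <;> simp [h]
  | insert α S hα ih =>
    obtain ⟨h1, h2⟩ := hS α (mem_insert_self _ _)
    obtain ⟨R, hR⟩ := (exists_R h1 h2 D).exists
    simp only [prod_insert hα, cZ_zs_mul h1 h2 _ _ R hR, mul_sum]
    refine sum_congr rfl fun j _ => ?_
    rw [ih (fun β hβ => hS β (mem_insert_of_mem hβ)), PowerSeries.coeff_rescale,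
      show b ⬝ᵥ D = b ⬝ᵥ α * j + b ⬝ᵥ (D - (j : ℤ) • α) by
        rw [dotProduct_sub, dotProduct_smul, smul_eq_mul]; ring, zpow_add₀ ss_ne, zpow_mul,
      zpow_natCast]
    ring

lemma cZ_zero (g : (Fin n → ℤ) → PowerSeries K) (hg : ∀ α, PowerSeries.constantCoeff (g α) = 1)
    (S : Finset (Fin n → ℤ)) (hS : ∀ α ∈ S, 0 ≤ α ∧ α ≠ 0) :
    cZ (∏ α ∈ S, zs (toF α) (g α)) 0 = 1 := by
  induction S using Finset.induction_on with
  | empty => simp [cZ_one]
  | insert α S hα ih =>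
    obtain ⟨h1, h2⟩ := hS α (mem_insert_self _ _)
    rw [prod_insert hα, cZ_zs_mul h1 h2 _ _ 1 fun H => h2 (le_antisymm (by simpa using H) h1)]
    simp [hg, ih fun β hβ => hS β (mem_insert_of_mem hβ)]

lemma fser_eq (c : K) : fser (mon qq) ss c * (1 - PowerSeries.C c * PowerSeries.X) =
    (1 - PowerSeries.C (mon hb * c) * PowerSeries.X) * fser (mon qq) ss (c * mon qq) := by
  rw [mul_sub, sub_mul, mul_one, one_mul, mul_left_comm, mul_assoc, mul_comm PowerSeries.X]
  ext1 k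
  rcases k with _ | k
  · simp [fser_const]
  · have h : mon qq ^ (k + 1) ≠ 1 := fun H => by
      rw [← mon_nsmul, mon_eq_one] at H
      have := congrArg (co 0) H
      simp [co0_qq] at this
      omega
    have h' := sub_ne_zero.mpr h.symm
    have e : mon hb = ss * mon qq := by rw [ss, ← mon_add, sub_add_cancel]
    simp only [map_sub, PowerSeries.coeff_C_mul, PowerSeries.coeff_succ_mul_X, fser,
      PowerSeries.coeff_mk, prod_range_succ]
    rw [show ee ss (mon qq ^ (k + 1)) = _ from if_neg h, e]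
    field_simp
    ring

lemma zs_tele {α : Fin n →₀ ℕ} (hα : α ≠ 0) (c : K) (J : ℕ) :
    (∏ j ∈ range J, ((1 - MvPowerSeries.monomial α (mon hb * (c * mon qq ^ j))) *
      (1 - MvPowerSeries.monomial α (c * mon qq ^ j))⁻¹)) *
      zs α (fser (mon qq) ss (c * mon qq ^ J)) = zs α (fser (mon qq) ss c) := by
  have hs := PowerSeries.HasSubst.monomial hα (1 : K)
  have e : ∀ c : K, zs α (1 - PowerSeries.C c * PowerSeries.X) =
      1 - MvPowerSeries.monomial α c := fun c => by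
    rw [zs, PowerSeries.subst_sub hs, PowerSeries.subst_mul hs, PowerSeries.subst_X hs,
      PowerSeries.subst_C, ← PowerSeries.coe_substAlgHom hs, map_one,
      ← MvPowerSeries.smul_eq_C_mul, ← map_smul, smul_eq_mul, mul_one]
  induction J with
  | zero => simp
  | succ J ih =>
    have h := congrArg (zs α) (fser_eq (c * mon qq ^ J))
    rw [zs, zs, PowerSeries.subst_mul hs, PowerSeries.subst_mul hs, ← zs, ← zs, ← zs, ← zs, e,
      e] at h
    rw [prod_range_succ, pow_succ, ← mul_assoc c, mul_assoc, mul_right_comm, ← h, mul_assoc,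
      MvPowerSeries.mul_inv_cancel, mul_one, ih]
    classical
    rw [map_sub, map_one, ← MvPowerSeries.coeff_zero_eq_constantCoeff_apply,
      MvPowerSeries.coeff_monomial, if_neg hα.symm, sub_zero]
    exact one_ne_zero

lemma lim_trunc (g : PowerSeries K) (hg : PowerSeries.constantCoeff g = 1) (j : ℕ) :
    Lim atTop (fun J : ℕ => PowerSeries.coeff j (g * PowerSeries.rescale (mon qq ^ J) g⁻¹))
      (PowerSeries.coeff j g) := by
  conv_rhs => rw [← mul_one g]
  simp only [PowerSeries.coeff_mul]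
  refine Lim.sum _ fun p _ => (Lim.const _).mul ?_
  rcases p.2 with _ | r
  · simpa [hg] using Lim.const 1
  · have : (fun J : ℕ => (mon qq ^ J) ^ (r + 1)) ∈ Null atTop := fun N =>
      (eventually_ge_atTop N.toNat).mono fun J hJ => by
        simp only [← mon_nsmul]
        refine Ge_mono ?_ (mon_FF _)
        simp only [map_nsmul, co0_qq, nsmul_eq_mul, mul_one]
        have : N ≤ J := by omega
        push_cast
        nlinarith [Int.natCast_nonneg r, Int.natCast_nonneg J]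
    have h := (Null atTop).smul_mem (PowerSeries.coeff (r + 1) g⁻¹) this
    unfold Lim
    convert h using 2
    simp [PowerSeries.coeff_rescale, PowerSeries.coeff_one, mul_comm]

lemma Gs_const (p : ℕ) : PowerSeries.constantCoeff (Gs 0 p) = 1 := by
  simp [Gs, map_prod, fser_const]

variable {Q : Quiv} (w v : Fin Q.n → ℕ)

lemma fac_prod {α : Fin Q.n →₀ ℕ} (hα : α ≠ 0) (p J : ℕ) :
    ∏ l ∈ range p, ∏ j ∈ range J,
      fac Q v α (hb + l • (hb - qq) + j • qq) * (fac Q v α (l • (hb - qq) + j • qq))⁻¹ =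
    zs α (PowerSeries.rescale (ss ^ (-bExp Q v ⬝ᵥ fun i => α i)) (Gs 0 p) *
      PowerSeries.rescale (mon qq ^ J)
        (PowerSeries.rescale (ss ^ (-bExp Q v ⬝ᵥ fun i => α i)) (Gs 0 p))⁻¹) := by
  have hs := PowerSeries.HasSubst.monomial hα (1 : K)
  have hz : ∀ f : PowerSeries K, zs α f = PowerSeries.substAlgHom hs f := fun f => by
    rw [zs, PowerSeries.coe_substAlgHom]
  have e : ∀ g, mon (g + (∑ i, bExp Q v i * α i) • (qq - hb)) =
      mon g * ss ^ (-bExp Q v ⬝ᵥ fun i => α i) := fun g => by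
    rw [mon_add, ss, ← mon_zsmul, neg_dotProduct, dotProduct]
    congr 2
    module
  generalize ss ^ (-bExp Q v ⬝ᵥ fun i => α i) = s at e ⊢
  have h1 : PowerSeries.rescale s (Gs 0 p) = ∏ l ∈ range p, fser (mon qq) ss (s * ss ^ l) := by
    simp only [Gs, map_prod, fser_rescale, range_eq_Ico]
  have h2 := PowerSeries.mul_inv_cancel (PowerSeries.rescale s (Gs 0 p)) (by
    simp [h1, map_prod, fser_const])
  generalize (PowerSeries.rescale s (Gs 0 p))⁻¹ = h at h2 ⊢
  have h3 := congrArg (fun f => zs α (PowerSeries.rescale (mon qq ^ J) f)) h2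
  simp only [hz, map_mul, map_one] at h3 ⊢
  rw [← mul_one (∏ l ∈ range p, _), ← h3, ← mul_assoc, h1]
  simp only [map_prod, fser_rescale, ← prod_mul_distrib]
  simp only [← hz]
  refine congrArg₂ (· * ·) (prod_congr rfl fun l _ => ?_) rfl
  rw [← zs_tele hα (s * ss ^ l) J, mul_comm (mon qq ^ J)]
  refine congrArg₂ (· * ·) (prod_congr rfl fun j _ => ?_) rfl
  simp only [fac, e, mon_add, mon_nsmul, ← ss.eq_1]
  congr 3 <;> ring_nf

lemma rhs_lim (hr : ∀ α, IsRealRoot Q α → α ≠ 0) (hfin : (negZ Q w fun i => v i).Finite) :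
    (negRoots Q w v).Finite ∧ MvPowerSeries.coeff 0 (P0 w fun j => v j) = 1 ∧ ∀ D : Fin Q.n →₀ ℕ,
      Lim atTop (fun J => MvPowerSeries.coeff D (rhs Q w v J))
        (ss ^ (-bdot v fun i => D i) * MvPowerSeries.coeff D (P0 w fun j => v j)) := by
  have e : negRoots Q w v = toF '' negZ Q w fun i => v i := by
    ext α
    refine ⟨fun h => ⟨fun i => α i, ⟨fun i => Nat.cast_nonneg _, h⟩, toF_cast α⟩, ?_⟩
    rintro ⟨β, h, rfl⟩
    simpa only [negRoots, Set.mem_ofPred_eq, cast_toF h.1] using h.2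
  have hS : ∀ α ∈ hfin.toFinset, 0 ≤ α ∧ α ≠ 0 := fun α hα =>
    ⟨(hfin.mem_toFinset.mp hα).1, hr _ (hfin.mem_toFinset.mp hα).2.1⟩
  have hc : ∀ (F : MvPowerSeries (Fin Q.n) K) (D : Fin Q.n →₀ ℕ),
      MvPowerSeries.coeff D F = cZ F fun i => D i := fun F D => by
    rw [cZ, toF_cast,
      if_pos (show (0 : Fin Q.n → ℤ) ≤ fun i => (D i : ℤ) from fun i => Nat.cast_nonneg _)]
  refine ⟨e ▸ hfin.image _, ?_, fun D => ?_⟩
  · rw [hc, P0, finprod_mem_eq_finite_toFinset_prod _ hfin]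
    exact cZ_zero _ (fun _ => Gs_const _) _ hS
  have h := cZ_lim _ _ (fun α => lim_trunc (PowerSeries.rescale (ss ^ (-bExp Q v ⬝ᵥ α))
    (Gs 0 (-pairing Q w (fun i => v i) α).toNat)) (by
      rw [← PowerSeries.coeff_zero_eq_constantCoeff_apply, PowerSeries.coeff_rescale, pow_zero,
        one_mul, PowerSeries.coeff_zero_eq_constantCoeff_apply, Gs_const])) _ hS fun i => D i
  rw [cZ_scale _ _ _ hS, neg_dotProduct, show (bExp Q v ⬝ᵥ fun i => (D i : ℤ)) =
    bdot v fun i => D i from rfl] at h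
  rw [hc, P0, finprod_mem_eq_finite_toFinset_prod _ hfin]
  convert h using 2 with J
  rw [hc, rhs, e, finprod_mem_image fun α h β h' H => by rw [← cast_toF h.1, H, cast_toF h'.1],
    finprod_mem_eq_finite_toFinset_prod _ hfin]
  congr 1
  refine prod_congr rfl fun α hα => ?_
  rw [fac_prod v (toF_ne (hS α hα).1 (hS α hα).2), cast_toF (hS α hα).1]

end Pool.Agent.MP_8be872_ag.H38
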