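import Pool.Agent.MP_8be872_ag.H38.Deep
import Pool.Agent.MP_8be872_ag.H38.Rhs
import Pool.Agent.MP_8be872_ag.H86.Weyl

/-! The theorem. -/

namespace Pool.Agent.MP_8be872_ag.H38

open Finset Filter

set_option maxHeartbeats 400000

lemma inv_FF {ε : K} (h : ε ∈ FF 1) : 1 - ε ≠ 0 ∧ (1 - ε)⁻¹ ∈ FF 0 := by
  have hx : 0 < ε.orderTop := by
    by_cases h0 : ε = 0
    · simp [h0]
    · rw [← HahnSeries.order_eq_orderTop_of_ne_zero h0]
      exact_mod_cast pos_of_co0 (h (mt HahnSeries.coeff_order_eq_zero.mp h0))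
  have h1 := HahnSeries.SummableFamily.one_sub_self_mul_hsum_powers hx
  refine ⟨left_ne_zero_of_mul_eq_one h1, ?_⟩
  rw [← eq_inv_of_mul_eq_one_right h1]
  refine HahnSeries.SummableFamily.support_hsum_subset.trans (Set.iUnion_subset fun n => ?_)
  rw [HahnSeries.SummableFamily.powers_of_orderTop_pos hx]
  exact (CS (Ge0 (co 0))).pow_mem (Ge_mono zero_le_one h) n

lemma Lim.div {ι : Type} {𝓕 : Filter ι} {a b : ι → K} {x : K} (ha : Lim 𝓕 a x)
    (hb : Lim 𝓕 b 1) : Lim 𝓕 (fun k => a k / b k) x := fun N => by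
  refine ((sub_mem ha ((Null 𝓕).smul_mem x hb) N).and (hb 1)).mono fun k hk => ?_
  obtain ⟨h1, h2⟩ := inv_FF ((FF 1).neg_mem hk.2)
  simp only [neg_sub, sub_sub_cancel] at h1 h2
  have := mul_Ge hk.1 h2
  rw [add_zero] at this
  convert this using 1
  simp only [Pi.sub_apply, Pi.smul_apply, smul_eq_mul]
  field_simp
  ring

lemma num_eq {Q : Quiv} (w v m : Fin Q.n → ℕ) (D : Fin Q.n →₀ ℕ) :
    num Q w v m D * ∏ i, (-mon (-tau)) ^ (aExp Q w v i * D i) =
      res Sall (mon (∑ i, (m i : ℤ) • detV Q v i) * ∑ d ∈ Eff v D, FI Q w v fun i a => d i a) := by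
  have hc : ∏ i, (-mon (-tau)) ^ (aExp Q w v i * D i) ∈ CS Sall.toAddSubmonoid :=
    prod_mem fun i _ => by
      rw [neg_eq_neg_one_mul, mul_zpow, ← mon_zsmul]
      refine mul_mem ?_ (mon_mem_CS (Sall.zsmul_mem (Sall.neg_mem fun j a => co_ix_tau _ _) _))
      rcases Int.even_or_odd (aExp Q w v i * D i) with h | h <;> rw [h.neg_one_zpow]
      exacts [one_mem _, neg_mem (one_mem _)]
  rw [num, ct_eq, mul_comm, ← res_mul hc, mul_left_comm, mul_comm (∏ i, _), sum_mul]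
  refine congrArg _ (congrArg₂ (· * ·) ?_ (sum_congr rfl fun d hd => ?_))
  · simp only [detV, ← sum_zsmul, natCast_zsmul]
  · rw [← integrand_eq]
    refine congrArg _ (prod_congr rfl fun i _ => ?_)
    rw [deg, ← (mem_piAntidiag.mp (Fintype.mem_piFinset.mp hd i)).1, Nat.cast_sum]

theorem main : MainStmt := fun Q hQ w v hv => by
  obtain ⟨h1, c, hc, h2⟩ := deep w v hQ H86.weyl hv
  obtain ⟨h3, h4, h5⟩ := rhs_lim w v (H86.weyl Q hQ w).2.2.1 h1
  refine ⟨h3, fun D N => ?_⟩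
  have hW : ((∏ j, (v j).factorial : ℕ) : K) ≠ 0 :=
    Nat.cast_ne_zero.mpr (prod_ne_zero_iff.mpr fun j _ => Nat.factorial_ne_zero _)
  have key : ∀ D : Fin Q.n →₀ ℕ, Lim atTop (fun m : Fin Q.n → ℕ =>
      ((∏ j, (v j).factorial : ℕ) : K)⁻¹ * (mon (-∑ i, (m i : ℤ) • c i) *
        (num Q w v m D * ∏ i, (-mon (-tau)) ^ (aExp Q w v i * D i))))
      (ss ^ (-bdot v fun i => D i) * MvPowerSeries.coeff D (P0 w fun j => v j)) := fun D => by
    have := (Null atTop).smul_mem ((∏ j, (v j).factorial : ℕ) : K)⁻¹ (Null_mul (h2 D)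
      (b := fun m => mon (-∑ i, (m i : ℤ) • c i)) (B := 0) fun m => by
        have h0 : ∀ j, co 0 (c j) = 0 := fun j => (hc j).2
        simpa [map_sum, h0] using mon_FF (-∑ i, (m i : ℤ) • c i))
    unfold Lim
    convert this using 2 with m
    have h0 := mon_ne (∑ i, (m i : ℤ) • c i)
    simp only [Pi.smul_apply, smul_eq_mul, Err, num_eq]
    rw [mon_neg]
    field_simp
  have h0 := key 0
  simp only [Finsupp.coe_zero, Pi.zero_apply, Nat.cast_zero, mul_zero, zpow_zero, prod_const_one,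
    mul_one, bdot, sum_const_zero, neg_zero, h4] at h0
  refine ((key D).div h0 N).mono fun m hm => (h5 D N).mono fun J hJ g hg => ?_
  have := sub_mem hm hJ
  simp only [sub_sub_sub_cancel_right] at this
  rw [mul_div_mul_left _ _ (inv_ne_zero hW), mul_div_mul_left _ _ (mon_ne _),
    mul_div_right_comm, ← vertex] at this
  rw [← sub_eq_zero, ← HahnSeries.coeff_sub]
  by_contra H
  exact absurd (this H) (not_le.mpr hg)

end Pool.Agent.MP_8be872_ag.H38
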