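import Pool.Agent.MP_8be872_ag.H38.Glob

/-! Linear recurrences in the exponents of the line bundle. -/

namespace Pool.Agent.MP_8be872_ag.H38

open Finset Filter

set_option maxHeartbeats 400000

section
variable {ρ : Type} (S0 : AddSubgroup G) (Rt : Finset ρ) (x : ρ → G)

/-- the weight `g` determines a new root -/
def Det (B : Finset ρ) (g : G) : Prop :=
  ∀ H : AddSubgroup G, S0 ≤ H → g ∈ H → (∀ b ∈ Rt, b ∉ B → x b ∈ H) → ∃ b ∈ B, x b ∈ H

/-- weights that are identified with constants -/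
def HH {A : Type} [CommRing A] (e : Multiplicative G →* A) : AddSubgroup G where
  carrier := {g | ∃ s ∈ S0, e (Multiplicative.ofAdd (g - s)) = 1}
  zero_mem' := ⟨0, S0.zero_mem, by simp⟩
  add_mem' := by
    rintro a b ⟨s, hs, h⟩ ⟨t, ht, h'⟩
    refine ⟨s + t, S0.add_mem hs ht, ?_⟩
    rw [add_sub_add_comm, ofAdd_add, map_mul, h, h', one_mul]
  neg_mem' := by
    rintro a ⟨s, hs, h⟩
    refine ⟨-s, S0.neg_mem hs, ?_⟩
    have : e (Multiplicative.ofAdd (-a - -s)) * e (Multiplicative.ofAdd (a - s)) = 1 := by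
      rw [← map_mul, ← ofAdd_add]
      simp
    rwa [h, mul_one] at this

open Classical in
lemma arb {y : G} (hy : ∀ H : AddSubgroup G, (∀ b ∈ Rt, x b ∈ H) → y ∈ H) (n : ℕ) :
    ∀ (A : Type) [CommRing A] (e : Multiplicative G →* A),
      (∀ B ⊆ Rt, B.Nonempty → ∃ C : Multiset G, (∀ g ∈ C, Det S0 Rt x B g) ∧
        (C.map fun g => 1 - e (Multiplicative.ofAdd g)).prod = 0) →
      (Rt.filter fun b => x b ∉ HH S0 e).card < n →
      ∃ Γ : Multiset G, (∀ γ ∈ Γ, γ ∈ S0) ∧
        (Γ.map fun γ => 1 - e (Multiplicative.ofAdd (y - γ))).prod = 0 := by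
  induction n with
  | zero => intro A _ e _ h; omega
  | succ n ih =>
    intro A _ e hB hn
    rcases (Rt.filter fun b => x b ∉ HH S0 e).eq_empty_or_nonempty with h | h
    · obtain ⟨s, hs, h1⟩ := hy (HH S0 e) fun b hb => by
        by_contra hn
        exact (eq_empty_iff_forall_notMem.mp h) b (mem_filter.mpr ⟨hb, hn⟩)
      exact ⟨{s}, by simpa using hs, by simp [h1, -ofAdd_sub]⟩
    obtain ⟨C, hC, h0⟩ := hB _ (filter_subset _ _) h
    suffices H : ∃ Γ : Multiset G, (∀ γ ∈ Γ, γ ∈ S0) ∧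
        (C.map fun g => 1 - e (Multiplicative.ofAdd g)).prod ∣
          (Γ.map fun γ => 1 - e (Multiplicative.ofAdd (y - γ))).prod by
      obtain ⟨Γ, h1, h2⟩ := H
      exact ⟨Γ, h1, by rwa [h0, zero_dvd_iff] at h2⟩
    clear h0
    induction C using Multiset.induction_on with
    | empty => exact ⟨0, by simp, by simp⟩
    | cons g C ihC =>
      obtain ⟨Γ, h1, h2⟩ := ihC fun g hg => hC g (Multiset.mem_cons_of_mem hg)
      let π := Ideal.Quotient.mk (Ideal.span {1 - e (Multiplicative.ofAdd g)})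
      have hle : HH S0 e ≤ HH S0 (π.toMonoidHom.comp e) := by
        rintro a ⟨s, hs, h⟩
        exact ⟨s, hs, by simp [h, -ofAdd_sub]⟩
      obtain ⟨Γ', h3, h4⟩ := ih _ (π.toMonoidHom.comp e) (fun B h1 h2 => by
        obtain ⟨C, h3, h4⟩ := hB B h1 h2
        refine ⟨C, h3, ?_⟩
        have := congrArg π h4
        simpa [map_multiset_prod] using this) (by
        obtain ⟨b, hb, hb'⟩ := hC g (Multiset.mem_cons_self _ _) (HH S0 (π.toMonoidHom.comp e))
          (fun s hs => ⟨s, hs, by simp⟩)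
          ⟨0, S0.zero_mem, by
            have : π (1 - e (Multiplicative.ofAdd g)) = 0 :=
              Ideal.Quotient.eq_zero_iff_mem.mpr (Ideal.mem_span_singleton_self _)
            rw [map_sub, map_one, sub_eq_zero] at this
            simpa using this.symm⟩
          (fun b hb hb' => hle (by simpa [hb] using hb'))
        refine lt_of_lt_of_le (card_lt_card ⟨fun a ha => ?_, fun H => ?_⟩) (Nat.lt_succ_iff.mp hn)
        · exact mem_filter.mpr ⟨(mem_filter.mp ha).1, fun H => (mem_filter.mp ha).2 (hle H)⟩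
        · exact (mem_filter.mp (H hb)).2 hb')
      refine ⟨Γ' + Γ, fun γ hγ => (Multiset.mem_add.mp hγ).elim (h3 γ) (h1 γ), ?_⟩
      rw [Multiset.map_cons, Multiset.prod_cons, Multiset.map_add, Multiset.prod_add]
      refine mul_dvd_mul ?_ h2
      rw [← Ideal.mem_span_singleton, ← Ideal.Quotient.eq_zero_iff_mem, ← h4]
      simp [map_multiset_prod, π]

end

lemma Reg.add {U V : K} (hU : Reg U) (hV : Reg V) : Reg (U + V) := fun N => by
  obtain ⟨p, p', h1, h2, -⟩ := hU N
  obtain ⟨r, r', h3, h4, -⟩ := hV N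
  exact ⟨p + r, p' + r', h1.add h3, by rw [add_sub_add_comm]; exact (FF N).add_mem h2 h4, by simp⟩

/-- the ring of `q`-adic limits of Laurent polynomials -/
def RegR : Subring K where
  carrier := {U | Reg U}
  zero_mem' := (Poly.zero.ev).reg
  one_mem' := Reg.one
  add_mem' := Reg.add
  mul_mem' := Reg.mul
  neg_mem' := Reg.neg

/-- monomials -/
noncomputable def monR : Multiplicative G →* RegR where
  toFun g := ⟨mon g.toAdd, Reg.mon _⟩
  map_one' := rfl
  map_mul' _ _ := Subtype.ext (mon_add _ _)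

variable {ι : Type}

/-- the ideal of the unstable locus -/
def Unst (𝓕 : Filter ι) (μ : ι → G) (W : K) : Ideal RegR where
  carrier := {p | ∀ r : RegR, (fun k => res Sall (mon (μ k) * (r * p * W))) ∈ Null 𝓕}
  zero_mem' := fun r => Null_of_eventually (Eventually.of_forall fun k => by simp)
  add_mem' := fun {a b} ha hb r => by
    simp only [Subring.coe_add, mul_add, add_mul, map_add]
    exact add_mem (ha r) (hb r)
  smul_mem' := fun c a ha r => by
    simpa only [smul_eq_mul, Subring.coe_mul, mul_assoc] using ha (r * c)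

section
variable {ρ : Type} (S0 : AddSubgroup G) (Rt : Finset ρ) (x : ρ → G) (B : Finset ρ) (l : G →+ ℤ)

/-- series whose poles in the wrong direction determine new roots -/
def CutM : Submonoid K where
  carrier := {W | ∃ C : Multiset G, (∀ g ∈ C, Det S0 Rt x B g) ∧
    (C.map fun g => 1 - mon g).prod * W ∈ CS (Ge0 l) ⊓ CS (Ge0 (co 0))}
  one_mem' := ⟨0, by simp, by simp⟩
  mul_mem' := by
    rintro a b ⟨C, h1, h2⟩ ⟨C', h3, h4⟩
    refine ⟨C + C', fun γ hγ => (Multiset.mem_add.mp hγ).elim (h1 γ) (h3 γ), ?_⟩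
    rw [Multiset.map_add, Multiset.prod_add, mul_mul_mul_comm]
    exact mul_mem h2 h4

lemma cut_mem {u : G} (h0 : co 0 u = 0) (h1 : co 1 u = -1) (hl : l hb = 0) (hh : hb ∈ S0)
    (hd : l u ≠ 0 → Det S0 Rt x B u) : ar u * ar (-hb - u) ∈ CutM S0 Rt x B l := by
  rcases lt_trichotomy (l u) 0 with h | h | h
  · refine ⟨{hb + u}, fun g hg H a1 a2 => hd h.ne H a1 ?_, ?_⟩
    · rw [Multiset.mem_singleton.mp hg] at a2
      exact (H.add_mem_cancel_left (a1 hh)).mp a2
    · have hne : -hb - u ≠ 0 := fun H => by simpa [h1, co1_hb] using congrArg (co 1) H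
      have := arrow_mem h0 h1 hl (m := 1) (fun _ => h.le) (by omega)
      have e : ar (-hb - u) = (1 - mon (hb + u))⁻¹ := by rw [ar_of_ne hne]; congr 3; abel
      have h2 : 1 - mon (hb + u) ≠ 0 := fun H => ar_ne (-hb - u) (by rw [e, H, inv_zero])
      rw [Multiset.map_singleton, Multiset.prod_singleton, e, mul_left_comm, mul_inv_cancel₀ h2]
      simpa using this
  · exact ⟨0, by simp, by simpa using arrow_mem h0 h1 hl (m := 0) (fun _ => h.le) fun _ => h.ge⟩
  · refine ⟨{-u}, fun g hg H a1 a2 => hd h.ne' H a1 ?_, ?_⟩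
    · rw [Multiset.mem_singleton.mp hg] at a2
      exact neg_mem_iff.mp a2
    · have hne : u ≠ 0 := fun H => by simp [H] at h
      have := arrow_mem h0 h1 hl (m := -1) (by omega) (fun _ => h.le)
      rw [Multiset.map_singleton, Multiset.prod_singleton, ar_of_ne hne, ← mul_assoc,
        mul_inv_cancel₀ (one_sub_mon_ne (neg_ne_zero.mpr hne))]
      simpa using this

end

variable {Q : Quiv} (w v : Fin Q.n → ℕ)

/-- all poles -/
noncomputable def WW : K :=
  (∏ e, ∏ a ∈ range (v (Q.tl e)), ∏ b ∈ range (v (Q.hd e)),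
    (ar (tE e - tau + xV (Q.hd e) b - xV (Q.tl e) a) *
      ar (-hb - (tE e - tau + xV (Q.hd e) b - xV (Q.tl e) a)))) *
    ∏ i, ∏ k ∈ range (w i), ∏ a ∈ range (v i),
      (ar (xV i a - uF i k - tau) * ar (-hb - (xV i a - uF i k - tau)))

lemma Reg.Th_div {u : G} (hu : co 0 u = 0) (m : ℤ) :
    Reg (Th u m * (ar u * ar (-hb - u))⁻¹) := by
  have h1 := ar_ne u
  have h2 := ar_ne (-hb - u)
  have e : Th u m * (ar u * ar (-hb - u))⁻¹ = H38.ThQ u m *
      ((if 0 ≤ m then 1 else (ar u)⁻¹) * if m ≤ 0 then 1 else (ar (-hb - u))⁻¹) := by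
    rw [Th_eq]
    split_ifs <;> field_simp
  rw [e]
  refine (Reg.ThQ hu m).1.mul (Reg.mul ?_ ?_) <;> split_ifs
  exacts [Reg.one, Reg.ar_inv _, Reg.one, Reg.ar_inv _]

lemma FI_reg (d : Fin Q.n → ℕ → ℤ) : Reg (FI Q w v d * (WW w v)⁻¹) := by
  rw [FI, WW, mul_right_comm, mul_inv, mul_mul_mul_comm]
  simp only [← prod_inv_distrib, ← prod_mul_distrib]
  refine (Reg.mul (Reg.prod _ fun e _ => Reg.prod _ fun a _ => Reg.prod _ fun b _ => ?_)
      (Reg.prod _ fun e _ => Reg.prod _ fun a _ => Reg.prod _ fun b _ => ?_)).mul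
      (Reg.prod _ fun e _ => Reg.prod _ fun a _ => Reg.prod _ fun b _ => ?_)
  · exact Reg.Th_div (by simp [co0_tE, co0_tau, co0_xV]) _
  · exact Reg.Th_div (by simp [co0_uF, co0_tau, co0_xV]) _
  · exact Reg.Th_inv (by simp [co0_xV]) _

lemma WW_ne : WW w v ≠ 0 := by
  simp [WW, prod_ne_zero_iff, ar_ne]

/-- constants of `q`-degree zero -/
noncomputable def S0 : AddSubgroup G := Sall ⊓ (co 0).ker

lemma recur (j : Fin Q.n) : ∃ Γ : Multiset G, (∀ γ ∈ Γ, γ ∈ S0) ∧ ∀ U, Reg (U * (WW w v)⁻¹) →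
    (fun m : Fin Q.n → ℕ => res Sall (mon (∑ i, (m i : ℤ) • detV Q v i) *
      ((Γ.map fun γ => 1 - mon (detV Q v j - γ)).prod * U))) ∈ Null atTop := by
  classical
  let J := Unst atTop (fun m : Fin Q.n → ℕ => ∑ i, (m i : ℤ) • detV Q v i) (WW w v)
  have hJ : ∀ (C : Multiset G) (f : G → G), (C.map fun g => 1 -
      ((Ideal.Quotient.mk J).toMonoidHom.comp monR) (Multiplicative.ofAdd (f g))).prod = 0 ↔
      ∀ r : RegR, (fun m : Fin Q.n → ℕ => res Sall (mon (∑ i, (m i : ℤ) • detV Q v i) *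
        (r * (C.map fun g => 1 - mon (f g)).prod * WW w v))) ∈ Null atTop := by
    intro C f
    have e1 : (C.map fun g => 1 - ((Ideal.Quotient.mk J).toMonoidHom.comp monR)
        (Multiplicative.ofAdd (f g))).prod =
        Ideal.Quotient.mk J (C.map fun g => 1 - monR (Multiplicative.ofAdd (f g))).prod := by
      simp [map_multiset_prod]
    have e2 : (C.map fun g => 1 - mon (f g)).prod =
        ((C.map fun g => 1 - monR (Multiplicative.ofAdd (f g))).prod : RegR) := by
      rw [← RegR.subtype_apply, map_multiset_prod, Multiset.map_map]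
      rfl
    rw [e1, e2, Ideal.Quotient.eq_zero_iff_mem]
    rfl
  have ht : tau ∈ S0 := ⟨fun i a => co_ix_tau _ _, co0_tau⟩
  have hE : ∀ e, tE e ∈ S0 := fun e => ⟨fun i a => co_ix_tE _ _ _, co0_tE _⟩
  have hu : ∀ i k, uF i k ∈ S0 := fun i k => ⟨fun i a => co_ix_uF _ _ _ _, co0_uF _ _⟩
  obtain ⟨Γ, h1, h2⟩ := arb S0 (univ.sigma fun i : Fin Q.n => range (v i))
    (fun b => xV b.1 b.2) (y := detV Q v j)
    (fun H hH => sum_mem fun a ha => hH ⟨j, a⟩ (mem_sigma.mpr ⟨mem_univ _, ha⟩)) _ _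
    ((Ideal.Quotient.mk J).toMonoidHom.comp monR) (fun B hB hne => by
      let l : G →+ ℤ := ∑ b ∈ B, co (ix b.1 b.2)
      have hl : ∀ g, l g = ∑ b ∈ B, co (ix b.1 b.2) g := fun g => by
        simp [l, AddMonoidHom.finset_sum_apply]
      have hs : ∀ g ∈ Sall, l g = 0 := fun g hg => by simp [hl, hg _ _]
      have hx : ∀ (i : Fin Q.n) a, l (xV i a) = if ⟨i, a⟩ ∈ B then 1 else 0 := fun i a => by
        rw [hl, ← sum_ite_eq B ⟨i, a⟩ fun _ => (1 : ℤ)]
        refine sum_congr rfl fun b _ => ?_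
        rw [co_ix_xV]
        exact if_congr (by simp [Sigma.ext_iff, Fin.ext_iff]) rfl rfl
      have hh : hb ∈ S0 := add_mem ht ht
      obtain ⟨C, a1, a2⟩ : WW w v ∈ CutM S0 (univ.sigma fun i : Fin Q.n => range (v i))
          (fun b => xV b.1 b.2) B l := by
        refine mul_mem (prod_mem fun e _ => prod_mem fun a ha => prod_mem fun b hb =>
          cut_mem _ _ _ _ _ (by simp [co0_tE, co0_tau, co0_xV]) (by simp [co1_tE, co1_tau, co1_xV])
            (hs _ hh.1) hh fun h H b1 b2 b3 => ?_)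
          (prod_mem fun i _ => prod_mem fun k _ => prod_mem fun a ha =>
          cut_mem _ _ _ _ _ (by simp [co0_uF, co0_tau, co0_xV]) (by simp [co1_uF, co1_tau, co1_xV])
            (hs _ hh.1) hh fun h H b1 b2 _ => ?_)
        · rw [add_sub_assoc, H.add_mem_cancel_left (b1 (sub_mem (hE _) ht))] at b2
          simp only [map_sub, map_add, hs _ ht.1, hs _ (hE _).1, hx] at h
          by_cases c1 : ⟨Q.hd e, b⟩ ∈ B
          · refine ⟨_, c1, ?_⟩
            simpa using add_mem b2 (b3 ⟨Q.tl e, a⟩ (mem_sigma.mpr ⟨mem_univ _, ha⟩)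
              fun c2 => by simp [c1, c2] at h)
          · refine ⟨⟨Q.tl e, a⟩, by by_contra c2; simp [c1, c2] at h, ?_⟩
            simpa using sub_mem (b3 ⟨Q.hd e, b⟩ (mem_sigma.mpr ⟨mem_univ _, hb⟩) c1) b2
        · simp only [map_sub, hs _ ht.1, hs _ (hu _ _).1, hx] at h
          refine ⟨⟨i, a⟩, by by_contra c2; simp [c2] at h, ?_⟩
          simpa using add_mem (add_mem b2 (b1 ht)) (b1 (hu i k))
      refine ⟨C, a1, (hJ C id).mpr fun r => ?_⟩
      simp only [mul_assoc]
      refine vanish (l := l) r.2 a2.1 a2.2 (fun k => by simp [map_sum, detV, co0_xV]) ?_ hs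
      obtain ⟨b, hb⟩ := hne
      refine tendsto_atTop_mono (fun m => ?_) (tendsto_natCast_atTop_atTop.comp
        (tendsto_atTop.mpr fun c => (eventually_ge_atTop fun _ => c).mono fun m hm => hm b.1))
      have c1 : ∀ i, 0 ≤ l (detV Q v i) := fun i => by
        rw [detV, map_sum]
        exact sum_nonneg fun a _ => by rw [hx]; split_ifs <;> simp
      have c2 : 1 ≤ l (detV Q v b.1) := by
        rw [detV, map_sum]
        refine le_trans ?_ (single_le_sum (fun a _ => by rw [hx]; split_ifs <;> simp)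
          (mem_sigma.mp (hB hb)).2)
        rw [hx, if_pos hb]
      simp only [map_sum, map_zsmul, smul_eq_mul]
      exact (le_mul_of_one_le_right (Nat.cast_nonneg _) c2).trans (single_le_sum
        (f := fun i => (m i : ℤ) * l (detV Q v i))
        (fun i _ => mul_nonneg (Nat.cast_nonneg _) (c1 i)) (mem_univ _))) (Nat.lt_succ_self _)
  refine ⟨Γ, h1, fun U hU => ?_⟩
  have := (hJ Γ fun γ => detV Q v j - γ).mp h2 ⟨_, hU⟩
  rwa [mul_right_comm, inv_mul_cancel_right₀ (WW_ne w v), mul_comm U] at this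

end Pool.Agent.MP_8be872_ag.H38
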