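import Pool.Agent.MP_8be872_ag.H38.Step

/-! Complete finite sets of degrees. -/

namespace Pool.Agent.MP_8be872_ag.H38

open Finset Filter

set_option maxHeartbeats 400000

variable {Q : Quiv} (w v : Fin Q.n → ℕ) (i : Fin Q.n) (hQ : ∀ e, Q.hd e ≠ Q.tl e)
variable {ι : Type} {𝓕 : Filter ι}

def Dom (d : Fin Q.n → ℕ → ℤ) : Prop := ∀ j a, v j ≤ a → d j a = 0

variable (𝓕) in
/-- a finite set containing all degrees that contribute -/
def Complete (m : ι → Fin Q.n → ℤ) (D : Fin Q.n → ℤ) (S : Finset (Fin Q.n → ℕ → ℤ)) : Prop :=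
  (∀ d ∈ S, Dom v d ∧ deg Q v d = D) ∧
    ∀ d, Dom v d → deg Q v d = D → d ∉ S → (fun k => JJ Q w v (m k) d) ∈ Null 𝓕

lemma Complete.sub {m : ι → Fin Q.n → ℤ} {D : Fin Q.n → ℤ} {S S' : Finset (Fin Q.n → ℕ → ℤ)}
    (h : Complete w v 𝓕 m D S) (h' : Complete w v 𝓕 m D S') :
    (fun k => ∑ d ∈ S, JJ Q w v (m k) d - ∑ d ∈ S', JJ Q w v (m k) d) ∈ Null 𝓕 := by
  classical
  have h1 := (Null 𝓕).sum_mem fun d (hd : d ∈ S \ S') =>
    h'.2 d (h.1 d (mem_sdiff.mp hd).1).1 (h.1 d (mem_sdiff.mp hd).1).2 (mem_sdiff.mp hd).2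
  have h2 := (Null 𝓕).sum_mem fun d (hd : d ∈ S' \ S) =>
    h.2 d (h'.1 d (mem_sdiff.mp hd).1).1 (h'.1 d (mem_sdiff.mp hd).1).2 (mem_sdiff.mp hd).2
  convert sub_mem h1 h2 using 1
  ext1 k
  simp only [Pi.sub_apply, Finset.sum_apply]
  exact sum_sdiff_sub_sum_sdiff.symm

lemma ext0_eq {n : ℕ} {g : ℕ → ℤ} (h : ∀ a, n ≤ a → g a = 0) :
    ext0 (fun a : Fin n => g a) = g := by
  ext a
  unfold ext0
  split_ifs with ha
  · rfl
  · exact (h a (not_lt.mp ha)).symm

lemma exists_box (R : ℕ) :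
    ∃ S : Finset (Fin Q.n → ℕ → ℤ), ∀ d, d ∈ S ↔ Dom v d ∧ ∀ j a, |d j a| ≤ R := by
  classical
  refine ⟨Fintype.piFinset fun j =>
    (Fintype.piFinset fun _ : Fin (v j) => Icc (-(R : ℤ)) R).image ext0, fun d => ?_⟩
  simp only [Fintype.mem_piFinset, mem_image, mem_Icc, ← abs_le]
  constructor
  · intro h
    refine ⟨fun j a ha => ?_, fun j a => ?_⟩
    · obtain ⟨f, -, hf⟩ := h j
      rw [← hf, ext0, dif_neg (not_lt.mpr ha)]
    · obtain ⟨f, h1, hf⟩ := h j
      rw [← hf, ext0]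
      split_ifs
      exacts [h1 _, by simp]
  · exact fun h j => ⟨fun a => d j a, fun a => h.2 j a, ext0_eq (h.1 j)⟩

lemma exists_Ds (n : ℕ) (D : ℤ) (R : ℕ) :
    ∃ S : Finset (Fin n → ℤ), ∀ f, f ∈ S ↔ ∑ a, f a = D ∧ ∀ a, -(R : ℤ) ≤ f a := by
  refine ⟨(Fintype.piFinset fun _ => Icc (-(R : ℤ)) (D + n * R)).filter fun f => ∑ a, f a = D,
    fun f => ?_⟩
  simp only [mem_filter, Fintype.mem_piFinset, mem_Icc]
  refine ⟨fun h => ⟨h.2, fun a => (h.1 a).1⟩, fun h => ⟨fun a => ⟨h.2 a, ?_⟩, h.1⟩⟩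
  have := single_le_sum (f := fun a => f a + R) (fun b _ => by have := h.2 b; omega) (mem_univ a)
  simp only [sum_add_distrib, h.1, sum_const, card_univ, Fintype.card_fin, nsmul_eq_mul] at this
  omega

lemma exists_Ds' (n : ℕ) (D : ℤ) (R : ℕ) :
    ∃ S : Finset (Fin n → ℤ), ∀ f, f ∈ S ↔ ∑ a, f a = D ∧ ∀ a, f a ≤ R := by
  obtain ⟨S, hS⟩ := exists_Ds n (-D) R
  refine ⟨S.image Neg.neg, fun f => ?_⟩
  have : f ∈ S.image Neg.neg ↔ -f ∈ S :=
    ⟨fun h => by obtain ⟨g, hg, rfl⟩ := mem_image.mp h; simpa using hg,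
      fun h => mem_image.mpr ⟨_, h, neg_neg _⟩⟩
  simp [this, hS]

/-- degrees away from one vertex -/
def InE (R : ℕ) (D : Fin Q.n → ℤ) (d : Fin Q.n → ℕ → ℤ) : Prop :=
  d i = 0 ∧ Dom v d ∧ (∀ j a, |d j a| ≤ R) ∧ ∀ j, j ≠ i → deg Q v d j = D j

lemma exists_E (R : ℕ) (D : Fin Q.n → ℤ) :
    ∃ S : Finset (Fin Q.n → ℕ → ℤ), ∀ d, d ∈ S ↔ InE v i R D d := by
  classical
  obtain ⟨S, hS⟩ := exists_box v R
  exact ⟨S.filter (InE v i R D), fun d => by
    rw [mem_filter, hS]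
    exact ⟨fun h => h.2, fun h => ⟨⟨h.2.1, h.2.2.1⟩, h⟩⟩⟩

lemma exists_complete {n R : ℕ} {D D' : Fin Q.n → ℤ} (hD : ∀ j, j ≠ i → D' j = D j)
    {E : Finset (Fin Q.n → ℕ → ℤ)} (hE : ∀ d, d ∈ E ↔ InE v i R D d) {Ds : Finset (Fin n → ℤ)}
    (h1 : ∀ f ∈ Ds, ∑ a, f a = D' i) 
    (h2 : ∀ f : Fin n → ℤ, (∀ a, |f a| ≤ R) → ∑ a, f a = D' i → f ∈ Ds)
    {m : ι → Fin Q.n → ℤ}
    (hb : ∀ d, deg Q (Function.update v i n) d = D' →
      (fun k => JJ Q w (Function.update v i n) (m k) d) ∉ Null 𝓕 →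
      ∀ j a, a < Function.update v i n j → |d j a| ≤ R) :
    ∃ S, Complete w (Function.update v i n) 𝓕 m D' S ∧
      ∀ F : (Fin Q.n → ℕ → ℤ) → K,
        ∑ d ∈ S, F d = ∑ d ∈ E, ∑ f ∈ Ds, F (Function.update d i (ext0 f)) := by
  classical
  refine ⟨(E ×ˢ Ds).image fun p => Function.update p.1 i (ext0 p.2), ⟨?_, ?_⟩, fun F => ?_⟩
  · intro d hd
    obtain ⟨⟨d, f⟩, hp, rfl⟩ := mem_image.mp hd
    obtain ⟨a1, a2⟩ := mem_product.mp hp
    obtain ⟨-, b2, -, b4⟩ := (hE d).mp a1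
    refine ⟨fun j a ha => ?_, funext fun j => ?_⟩
    · by_cases hj : j = i
      · subst hj
        simp only [Function.update_self] at ha ⊢
        exact dif_neg (not_lt.mpr ha)
      · simp only [Function.update_of_ne hj] at ha ⊢
        exact b2 j a ha
    · by_cases hj : j = i
      · subst hj
        rw [deg_update_self, h1 f a2]
      · rw [deg_update_ne _ _ _ _ _ hj, b4 j hj, hD j hj]
  · intro d hd hdeg hn
    by_contra hnull
    have hbd : ∀ j a, |d j a| ≤ R := fun j a => by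
      by_cases ha : a < Function.update v i n j
      · exact hb d hdeg hnull j a ha
      · simp [hd j a (not_lt.mp ha)]
    have e : Function.update (Function.update d i 0) i (ext0 fun a : Fin n => d i a) = d := by
      rw [ext0_eq (fun a ha => hd i a (by simpa using ha))]
      simp
    refine hn (mem_image.mpr ⟨(Function.update d i 0, fun a => d i a), mem_product.mpr
      ⟨(hE _).mpr ⟨by simp, fun j a ha => ?_, fun j a => ?_, fun j hj => ?_⟩,
        h2 _ (fun a => hbd _ _) ?_⟩, e⟩)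
    · by_cases hj : j = i
      · simp [hj]
      · simp only [Function.update_of_ne hj]
        exact hd j a (by simpa [Function.update_of_ne hj] using ha)
    · by_cases hj : j = i
      · simp [hj]
      · simpa only [Function.update_of_ne hj] using hbd j a
    · rw [← hD j hj, ← hdeg]
      simp only [deg, Function.update_of_ne hj]
    · rw [← hdeg]
      simp only [deg, Function.update_self, sum_range]
  · rw [sum_image, sum_product]
    rintro ⟨d, f⟩ hp ⟨d', f'⟩ hp' h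
    have a1 := ((hE d).mp (mem_product.mp hp).1).1
    have a2 := ((hE d').mp (mem_product.mp hp').1).1
    refine Prod.ext (funext fun j => ?_) (funext fun a => ?_)
    · by_cases hj : j = i
      · rw [hj]; exact a1.trans a2.symm
      · simpa [Function.update_of_ne hj] using congrFun h j
    · simpa [ext0_val] using congrFun (congrFun h i) a

/-- the exponent in `e^α` -/
def bdot (D : Fin Q.n → ℤ) : ℤ := ∑ j, bExp Q v j * D j

lemma bdot_eq (D : Fin Q.n → ℤ) :
    bdot v D = ∑ j, v j * D j - ∑ e, v (Q.hd e) * D (Q.tl e) := by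
  simp only [bdot, bExp, sub_mul, sum_sub_distrib]
  congr 1
  rw [← sum_fiberwise (s := univ) (g := Q.tl)]
  refine sum_congr rfl fun j _ => ?_
  rw [sum_mul]
  exact sum_congr rfl fun e he => by rw [(mem_filter.mp he).2]

include hQ in
lemma expo {n n' j : ℕ} {D D' : Fin Q.n → ℤ} (hD : ∀ l, l ≠ i → D' l = D l) {E : ℤ}
    (hE : ∑ e ∈ adj Q i, D (oth Q i e) = E) (hD' : D' i = E - D i + j) {d : Fin Q.n → ℕ → ℤ}
    (hd : ∀ l, l ≠ i → deg Q v d l = D l) :
    phi v i d n (D i) - (n + n') * j - (phi v i d n' (E - D i + j) +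
      (n' * E - (n + n') * (E - D i + j))) =
      bdot (Function.update v i n') D' - bdot (Function.update v i n) D - n' * j := by
  have a1 : ∀ (r : ℕ) (X : Fin Q.n → ℤ), ∑ l, (Function.update v i r l : ℤ) * X l =
      ∑ l ∈ univ.erase i, v l * X l + r * X i := fun r X => by
    rw [← sum_erase_add _ _ (mem_univ i), Function.update_self]
    congr 1
    exact sum_congr rfl fun l hl => by rw [Function.update_of_ne (ne_of_mem_erase hl)]
  have a2 : ∑ l ∈ univ.erase i, v l * D' l = ∑ l ∈ univ.erase i, v l * D l :=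
    sum_congr rfl fun l hl => by rw [hD l (ne_of_mem_erase hl)]
  have a3 : phi v i d n (D i) - phi v i d n' (D' i) + (n - n') * E =
      ∑ e, (Function.update v i n (Q.hd e) : ℤ) * D (Q.tl e) -
        ∑ e, (Function.update v i n' (Q.hd e) : ℤ) * D' (Q.tl e) := by
    rw [phi, phi, ← hE, adj, mul_sum]
    simp only [sum_filter, ← sum_sub_distrib, ← sum_add_distrib]
    refine sum_congr rfl fun e _ => ?_
    by_cases h : Q.hd e = i
    · have h' : Q.tl e ≠ i := fun H => hQ e (h.trans H.symm)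
      simp only [oth, h, h', hD _ h', Function.update_self, if_true, if_false, true_or]
      ring
    · by_cases h' : Q.tl e = i
      · simp only [oth, h, h', hd _ h, Function.update_of_ne h, if_true, if_false, or_true]
        ring
      · simp [h, h', hD _ h']
  rw [bdot_eq, bdot_eq, a1, a1, a2, ← hD']
  linear_combination a3 + (n : ℤ) * hD'

end Pool.Agent.MP_8be872_ag.H38
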