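import Pool.Agent.MP_8be872_ag.H38.Main
import Pool.Agent.MP_8be872_ag.H38.Arb

/-! From generic sequences of line bundles to all sufficiently positive line bundles. -/

namespace Pool.Agent.MP_8be872_ag.H38

open Finset Filter

set_option maxHeartbeats 400000

section
variable {n : ℕ}

def LexA (R : ℕ) (m : Fin n → ℕ) : Prop := ∀ i, R * (1 + ∑ j with j < i, m j) ≤ m i

lemma propag (good : (Fin n → ℕ) → Prop) (R : ℕ)
    (h1 : ∀ m j, (∀ᶠ t : ℕ in atTop, good (m + Pi.single j t)) → good m)
    (h2 : ∀ m, LexA R m → good m) (m : Fin n → ℕ) : good m := by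
  have key : ∀ r s : ℕ, r + s = n → ∀ m : Fin n → ℕ,
      (∀ i : Fin n, i.val < r → R * (1 + ∑ j with j < i, m j) ≤ m i) → good m := by
    intro r s
    induction s generalizing r with
    | zero => exact fun h m hm => h2 m fun i => hm i (by omega)
    | succ s ih =>
      intro h m hm
      refine h1 m ⟨r, by omega⟩ ((eventually_ge_atTop
        (R * (1 + ∑ j with j < ⟨r, by omega⟩, m j))).mono fun t ht => ih (r + 1) (by omega) _
          fun i hi => ?_)
      rw [sum_congr rfl (g := m) fun j hj => by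
        have : j.val < i.val := (mem_filter.mp hj).2
        simp [show j ≠ ⟨r, by omega⟩ from fun H => by rw [H] at this; simp at this; omega]]
      by_cases hir : i = ⟨r, by omega⟩
      · rw [← hir] at ht ⊢
        simp only [Pi.add_apply, Pi.single_eq_same]
        exact ht.trans (Nat.le_add_left _ _)
      · simp only [Pi.add_apply, Pi.single_eq_of_ne hir, add_zero]
        exact hm i (by have : i.val ≠ r := fun H => hir (Fin.ext H); omega)
  exact key 0 n (zero_add n) m fun i hi => absurd hi (Nat.not_lt_zero _)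

variable (n) in
abbrev LexI := {p : ℕ × (Fin n → ℕ) // LexA p.1 p.2}

variable (n) in
def LexF : Filter (LexI n) := comap (fun p => p.1.1) atTop

instance : (LexF n).NeBot := comap_neBot fun t ht => by
  obtain ⟨R, hR⟩ := nonempty_of_mem ht
  by_contra H
  exact propag (n := n) (fun _ => False) R (fun _ _ h => h.exists.elim fun _ h => h)
    (fun m hm => H ⟨⟨(R, m), hm⟩, hR⟩) 0

def lexm (p : LexI n) (j : Fin n) : ℤ := p.1.2 j

lemma lex_top {β : Fin n → ℤ} {i : Fin n} (h1 : 0 < β i) (h2 : ∀ j, i < j → β j = 0) :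
    Tendsto (fun p => lexm p ⬝ᵥ β) (LexF n) atTop := by
  have h0 : Tendsto (fun p : LexI n => (p.1.1 : ℤ)) (LexF n) atTop :=
    tendsto_natCast_atTop_atTop.comp tendsto_comap
  refine tendsto_atTop_mono' _ ((h0.eventually_ge_atTop (∑ j, |β j|)).mono fun p hp => ?_) h0
  have e : lexm p ⬝ᵥ β = lexm p i * β i + ∑ j with j < i, lexm p j * β j := by
    rw [dotProduct, ← add_sum_erase _ _ (mem_univ i)]
    congr 1
    symm
    refine sum_subset (fun j hj => mem_erase.mpr ⟨(mem_filter.mp hj).2.ne, mem_univ _⟩)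
      fun j hj hj' => ?_
    rw [h2 j (lt_of_le_of_ne (by simpa using hj') (ne_of_mem_erase hj).symm), mul_zero]
  have a1 : (p.1.1 : ℤ) * (1 + ∑ j with j < i, lexm p j) ≤ lexm p i := by
    unfold lexm
    exact_mod_cast p.2 i
  have a2 : -(p.1.1 * ∑ j with j < i, lexm p j) ≤ ∑ j with j < i, lexm p j * β j := by
    rw [mul_sum, ← sum_neg_distrib]
    refine sum_le_sum fun j _ => ?_
    have b1 := (single_le_sum (f := fun j => |β j|) (fun _ _ => abs_nonneg _) (mem_univ j)).trans hp
    have b2 : 0 ≤ lexm p j := Nat.cast_nonneg _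
    nlinarith [neg_abs_le (β j)]
  have b2 : 0 ≤ lexm p i := Nat.cast_nonneg _
  nlinarith

lemma exists_top {β : Fin n → ℤ} (h : β ≠ 0) : ∃ i, β i ≠ 0 ∧ ∀ j, i < j → β j = 0 := by
  obtain ⟨i, h1, h2⟩ := exists_max_image (univ.filter fun j => β j ≠ 0) id (by
    obtain ⟨j, hj⟩ := Function.ne_iff.mp h
    exact ⟨j, by simpa using hj⟩)
  exact ⟨i, by simpa using h1, fun j hj => by_contra fun H => absurd (h2 j (by simpa using H))
    (not_le.mpr hj)⟩

lemma lex_pos {β : Fin n → ℤ} (h0 : 0 ≤ β) (h : β ≠ 0) :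
    Tendsto (fun p => lexm p ⬝ᵥ β) (LexF n) atTop := by
  obtain ⟨i, h1, h2⟩ := exists_top h
  exact lex_top (lt_of_le_of_ne (h0 i) h1.symm) h2

end

variable {Q : Quiv} (w v : Fin Q.n → ℕ)

lemma lex_generic : Generic Q (LexF Q.n) lexm := fun β hβ => by
  obtain ⟨i, h1, h2⟩ := exists_top hβ
  rcases lt_or_gt_of_ne h1 with h | h
  · refine Or.inr ?_
    simpa [Function.comp_def] using tendsto_neg_atTop_atBot.comp
      (lex_top (β := -β) (i := i) (by simpa using h) (by simpa using h2))
  · exact Or.inl (lex_top h h2)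

/-- the error term -/
noncomputable def Err (c : Fin Q.n → G) (U C : K) (m : Fin Q.n → ℕ) : K :=
  res Sall (mon (∑ i, (m i : ℤ) • detV Q v i) * U) - C * mon (∑ i, (m i : ℤ) • c i)

lemma sum_single_succ (m : Fin Q.n → ℕ) (j : Fin Q.n) (t : ℕ) (X : Fin Q.n → G) :
    ∑ i, ((m + Pi.single j (t + 1) : Fin Q.n → ℕ) i : ℤ) • X i =
      ∑ i, ((m + Pi.single j t : Fin Q.n → ℕ) i : ℤ) • X i + X j := by
  rw [← add_sum_erase _ _ (mem_univ j), ← add_sum_erase _ _ (mem_univ j), add_right_comm]
  congr 1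
  · simp only [Pi.add_apply, Pi.single_eq_same]
    push_cast
    module
  · exact sum_congr rfl fun i hi => by simp [ne_of_mem_erase hi]

lemma rec_one (c : Fin Q.n → G) (N : ℤ) (m : Fin Q.n → ℕ) (j : Fin Q.n) (Γ : Multiset G)
    (hΓ : ∀ γ ∈ Γ, γ ∈ S0) : ∀ U C : K,
    (∀ t, Err v c ((Γ.map fun γ => 1 - mon (detV Q v j - γ)).prod * U)
      ((Γ.map fun γ => 1 - mon (c j - γ)).prod * C) (m + Pi.single j t) ∈ FF N) →
    (∀ᶠ t in atTop, Err v c U C (m + Pi.single j t) ∈ FF N) →
    ∀ t, Err v c U C (m + Pi.single j t) ∈ FF N := by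
  induction Γ using Multiset.induction_on with
  | empty => exact fun U C h _ => by simpa using h
  | cons γ Γ ih =>
    intro U C h1 h2
    have hγ := hΓ γ (Multiset.mem_cons_self _ _)
    have e : ∀ t, Err v c ((1 - mon (detV Q v j - γ)) * U) ((1 - mon (c j - γ)) * C)
        (m + Pi.single j t) = Err v c U C (m + Pi.single j t) -
          mon (-γ) * Err v c U C (m + Pi.single j (t + 1)) := fun t => by
      simp only [Err, sum_single_succ, mul_sub, ← res_mul (mon_mem (Sall.neg_mem hγ.1)),
        sub_eq_add_neg _ γ, mon_add, sub_mul, map_sub]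
      ring_nf
    have hm : ∀ x ∈ FF N, mon (-γ) * x ∈ FF N := fun x hx => by
      have h0 : co 0 γ = 0 := hγ.2
      simpa [h0] using mul_Ge (mon_FF (-γ)) hx
    have h3 := ih (fun γ h => hΓ γ (Multiset.mem_cons_of_mem h))
      ((1 - mon (detV Q v j - γ)) * U) ((1 - mon (c j - γ)) * C) (fun t => by
        simpa only [Multiset.map_cons, Multiset.prod_cons, mul_assoc, mul_left_comm] using h1 t)
      ((h2.and ((tendsto_add_atTop_nat 1).eventually h2)).mono fun t ht => by
        rw [e]; exact sub_mem ht.1 (hm _ ht.2))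
    intro t
    obtain ⟨T, h4, h5⟩ := (h2.and (eventually_ge_atTop t)).exists
    induction h5 using Nat.decreasingInduction with
    | self => exact h4
    | of_succ k _ ihk =>
      have := add_mem (h3 k) (hm _ ihk)
      rwa [e, sub_add_cancel] at this

lemma deep_err {c : Fin Q.n → G} (hc : ∀ j, c j ∈ S0) {U C : K} (hU : Reg (U * (WW w v)⁻¹))
    (h : (fun p : LexI Q.n => Err v c U C p.1.2) ∈ Null (LexF Q.n)) :
    Err v c U C ∈ Null atTop := fun N => by
  choose Γ h1 h2 using recur w v
  have hU' : ∀ j, Reg ((1 - mon (detV Q v j - c j)) * U * (WW w v)⁻¹) := fun j => by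
    rw [mul_assoc]
    exact (Reg.one_sub _).mul hU
  obtain ⟨m0, h3⟩ := eventually_atTop.mp (eventually_all.mpr fun j => h2 j _ (hU' j) N)
  obtain ⟨R, hR⟩ := (eventually_comap.mp (h N)).exists
  refine eventually_atTop.mpr ⟨m0, propag (fun m => m ≥ m0 → Err v c U C m ∈ FF N) R
    (fun m j ht hm => ?_) fun m hm _ => hR ⟨(R, m), hm⟩ rfl⟩
  have hle : ∀ t, m + Pi.single j t ≥ m0 := fun t => le_add_right hm
  have := rec_one v c N m j (c j ::ₘ Γ j)
    (fun γ hγ => (Multiset.mem_cons.mp hγ).elim (fun h => h ▸ hc j) (h1 j γ)) U C (fun t => by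
      simpa [Err, mon_zero, mul_assoc, mul_left_comm] using h3 _ (hle t) j)
    (ht.mono fun t h => h (hle t)) 0
  simpa using this

/-- effective degrees -/
def Eff (D : Fin Q.n →₀ ℕ) : Finset (Fin Q.n → ℕ → ℕ) :=
  Fintype.piFinset fun i => piAntidiag (range (v i)) (D i)

lemma deep (hQ : ∀ e, Q.hd e ≠ Q.tl e) (hW : WeylStmt) (hv : InOrbit Q w fun i => v i) :
    (negZ Q w fun i => v i).Finite ∧ ∃ c : Fin Q.n → G, (∀ j, c j ∈ S0) ∧ ∀ D : Fin Q.n →₀ ℕ,
      Err v c (∑ d ∈ Eff v D, FI Q w v fun i a => d i a) ((∏ j, (v j).factorial : ℕ) *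
        (ss ^ (-bdot v fun i => D i) * MvPowerSeries.coeff D (P0 w fun j => v j))) ∈
        Null atTop := by
  classical
  obtain ⟨-, h1, h2⟩ := main_ind w hQ (𝓕 := LexF Q.n) hW ((hW Q hQ w).1 _ hv)
  obtain ⟨c, h3, h4⟩ := h2 v rfl lexm lex_generic fun α hα =>
    lex_pos hα.1 ((hW Q hQ w).2.2.1 _ hα.2.1)
  refine ⟨h1, c, h3, fun D => deep_err w v h3 ?_ ?_⟩
  · rw [sum_mul]
    exact RegR.sum_mem fun d _ => FI_reg w v _
  have hinj : Function.Injective fun (d : Fin Q.n → ℕ → ℕ) i a => (d i a : ℤ) :=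
    fun d d' h => funext fun i => funext fun a => by simpa using congrFun (congrFun h i) a
  have := h4 (fun i => D i) ((Eff v D).image fun d i a => (d i a : ℤ)) ⟨fun d hd => ?_,
    fun d hd hdeg hn => ?_⟩
  · simp only [sum_image hinj.injOn, cZ, toF_cast] at this
    rw [if_pos (show (0 : Fin Q.n → ℤ) ≤ fun i => (D i : ℤ) from fun i => Nat.cast_nonneg _)]
      at this
    simp only [Err, mul_sum, map_sum]
    exact this
  · obtain ⟨d, hd', rfl⟩ := mem_image.mp hd
    have h := fun i => mem_piAntidiag.mp (Fintype.mem_piFinset.mp hd' i)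
    refine ⟨fun j a ha => ?_, funext fun j => ?_⟩
    · by_contra H
      exact absurd (mem_range.mp ((h j).2 a (by simpa using H))) (not_lt.mpr ha)
    · rw [deg, ← (h j).1, Nat.cast_sum]
  · obtain ⟨j, a, ha⟩ : ∃ j a, d j a < 0 := by
      by_contra H
      push Not at H
      have e : ∀ j a, ((d j a).toNat : ℤ) = d j a := fun j a => Int.toNat_of_nonneg (H j a)
      refine hn (mem_image.mpr ⟨fun j a => (d j a).toNat, Fintype.mem_piFinset.mpr fun j =>
        mem_piAntidiag.mpr ⟨?_, fun a ha => ?_⟩, funext fun j => funext (e j)⟩)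
      · have := congrFun hdeg j
        rw [deg, ← sum_congr rfl fun a _ => e j a] at this
        exact_mod_cast this
      · by_contra H
        exact ha (by simp [hd j a (by simpa using H)])
    have hav : a < v j := by
      by_contra H
      have := hd j a (not_lt.mp H)
      omega
    refine JJ_null Q w v d (f := fun x => min x 0) (fun x y h => min_le_min_right _ h) (by simp) ?_
    have := lex_pos (β := -deg Q v fun j a => min (d j a) 0)
      (fun i => by simpa [deg] using sum_nonpos fun a _ => min_le_right _ _) (fun H => by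
        have := congrFun (neg_eq_zero.mp H) j
        have h := (sum_eq_zero_iff_of_nonpos fun a _ => min_le_right _ _).mp this a
          (mem_range.mpr hav)
        omega)
    simpa [Function.comp_def] using tendsto_neg_atTop_atBot.comp this

end Pool.Agent.MP_8be872_ag.H38
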