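import Mathlib

/-!
Definitions for the vertex function of a Nakajima quiver variety, written as the sum over the
fixed loci of the rotation of the source curve, each Euler characteristic being a constant term
(Weyl integration formula on the GIT quotient).
-/

namespace Pool.Agent.MP_8be872_ag.H38

open Finset

/-- Characters of the torus of `q`, of `T` and of the maximal torus of the gauge group, written
additively and ordered lexicographically (first the exponent of `q`, then that of `ħ^(1/2)`). -/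
abbrev G := Lex (ℕ →₀ ℤ)

/-- Formal characters: Hahn series; `1/(1-x^g)` is the geometric series in `x^g` for `g > 0`. -/
abbrev K := HahnSeries G ℚ

noncomputable def gen (r : ℕ) : G := toLex (Finsupp.single r 1)

/-- the weight `q` -/
noncomputable def qq : G := gen 0
/-- the weight `ħ^(1/2)` -/
noncomputable def tau : G := gen 1
/-- the weight `ħ` -/
noncomputable def hb : G := tau + tau
/-- the equivariant parameter of the edge `e` -/
noncomputable def tE (e : ℕ) : G := gen (3 * e + 2)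
/-- the `k`-th weight of the framing space `W_i` -/
noncomputable def uF (i k : ℕ) : G := gen (3 * Nat.pair i k + 3)
/-- the `a`-th Chern root of `V_i` (fibre at infinity) -/
noncomputable def xV (i a : ℕ) : G := gen (3 * Nat.pair i a + 4)

/-- the monomial of a weight -/
noncomputable def mon (g : G) : K := HahnSeries.single g 1

open Classical in
/-- constant term in all Chern roots -/
noncomputable def ct (f : K) : K where
  coeff g := if ∀ i a, ofLex g (3 * Nat.pair i a + 4) = 0 then f.coeff g else 0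
  isPWO_support' := f.isPWO_support.mono (by
    intro g hg
    by_contra h
    simp only [HahnSeries.mem_support, not_not] at h
    simp [h] at hg)

/-- `1 / Λ^•(H^•(P^1, w ⊗ O(m)))^∨`; the character of `H^•(O(m))` is `1 + q + ... + q^m` for
`m ≥ 0` and `-(q^(m+1) + ... + q^(-1))` for `m < 0` (fibre at infinity of weight `1`). -/
noncomputable def lam (w : G) (m : ℤ) : K :=
  (∏ l ∈ Icc 0 m, (1 - mon (-(w + l • qq))))⁻¹ * ∏ l ∈ Ioo m 0, (1 - mon (-(w + l • qq)))

/-- Contribution to the symmetrized virtual structure sheaf of a weight `w` of degree `m` of the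
polarization `P` and of the dual weight `ħ⁻¹ w⁻¹` of degree `-m` of `ħ⁻¹ P^∨`. The monomial
`w^(-m) ħ^(-m/2) q^(-m(m-1)/2)` is `K_vir^(1/2) q^(m/2)`. -/
noncomputable def pairF (w : G) (m : ℤ) : K :=
  lam w m * lam (-hb - w) (-m) * mon (-(m • (w + tau)) - (m * (m - 1) / 2) • qq)

/-- A finite quiver with head and tail maps. -/
structure Quiv where
  n : ℕ
  ne : ℕ
  hd : Fin ne → Fin n
  tl : Fin ne → Fin n

variable (Q : Quiv)

/-- The localization integrand of the fixed locus `𝒱_i = ⊕_a x_(i,a) O(d i a)`, for the polarization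
`P = ∑_e Hom(V_(t e), V_(h e)) + ∑_i Hom(W_i, V_i) - ∑_i End(V_i)`; the trivial diagonal weights of
`End(V_i)` are left out (Weyl integration formula). -/
noncomputable def integrand (w v : Fin Q.n → ℕ) (d : Fin Q.n → ℕ → ℤ) : K :=
  (∏ e, ∏ a ∈ range (v (Q.tl e)), ∏ b ∈ range (v (Q.hd e)),
      pairF (tE e - tau + xV (Q.hd e) b - xV (Q.tl e) a) (d (Q.hd e) b - d (Q.tl e) a)) *
    (∏ i, ∏ k ∈ range (w i), ∏ a ∈ range (v i), pairF (xV i a - uF i k - tau) (d i a)) *
    ∏ i, ∏ a ∈ range (v i), ∏ b ∈ range (v i),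
      if a = b then 1 - mon hb else (pairF (xV i a - xV i b) (d i a - d i b))⁻¹

/-- `(∏ v_i!) χ(QM^D, Ô^vir ⊗ L_m)` for large `m`, where `L_m = ⊗_i det(V_i)^(m_i)` is pulled
back by evaluation at infinity. -/
noncomputable def num (w v m : Fin Q.n → ℕ) (D : Fin Q.n →₀ ℕ) : K :=
  ct (mon (∑ i : Fin Q.n, ∑ a ∈ range (v i), m i • xV i a) *
    ∑ d ∈ Fintype.piFinset (fun i => piAntidiag (range (v i)) (D i)),
      integrand Q w v (fun i a => d i a))

def aExp (w v : Fin Q.n → ℕ) (i : Fin Q.n) : ℤ :=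
  (∑ e with Q.hd e = i, (v (Q.tl e) : ℤ)) - (∑ e with Q.tl e = i, (v (Q.hd e) : ℤ)) + w i

def bExp (v : Fin Q.n → ℕ) (i : Fin Q.n) : ℤ := v i - ∑ e with Q.tl e = i, (v (Q.hd e) : ℤ)

/-- Stage `m` of the coefficient of `z^D` of the normalized vertex function: divide by the weight of
`L_m` at the point `M` (the term `D = 0`) and substitute `z_i ↦ z_i (-ħ^(-1/2))^(a_i)`. -/
noncomputable def vertex (w v m : Fin Q.n → ℕ) (D : Fin Q.n →₀ ℕ) : K :=
  num Q w v m D / num Q w v m 0 * ∏ i, (-mon (-tau)) ^ (aExp Q w v i * D i)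

/-- the invariant form on the root lattice -/
def form (α β : Fin Q.n → ℤ) : ℤ :=
  2 * ∑ i, α i * β i - ∑ e, (α (Q.hd e) * β (Q.tl e) + α (Q.tl e) * β (Q.hd e))

/-- `(α, μ)` for `μ = ∑ w_i ϖ_i - ∑ v_i α_i` -/
def pairing (w : Fin Q.n → ℕ) (v α : Fin Q.n → ℤ) : ℤ := ∑ i, α i * w i - form Q α v

/-- real roots: the orbit of the simple roots under the simple reflections -/
def IsRealRoot (α : Fin Q.n → ℤ) : Prop :=
  ∃ j, Relation.ReflTransGen
    (fun β γ : Fin Q.n → ℤ => ∃ i, γ = β - Pi.single i (form Q β (Pi.single i 1)))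
    (Pi.single j 1) α

/-- `μ = λ - ∑ v_i α_i` lies in the Weyl group orbit of `λ = ∑ w_i ϖ_i` -/
def InOrbit (w : Fin Q.n → ℕ) (v : Fin Q.n → ℤ) : Prop :=
  Relation.ReflTransGen
    (fun u u' : Fin Q.n → ℤ => ∃ i, u' = u + Pi.single i (pairing Q w u (Pi.single i 1))) 0 v

/-- positive real roots with `(α, μ) < 0` -/
def negRoots (w v : Fin Q.n → ℕ) : Set (Fin Q.n →₀ ℕ) :=
  {α | IsRealRoot Q (fun i => α i) ∧ pairing Q w (fun i => v i) (fun i => α i) < 0}

/-- `1 - x^g e^α` with `e^(α_i) = z_i (q/ħ)^(b_i)` -/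
noncomputable def fac (v : Fin Q.n → ℕ) (α : Fin Q.n →₀ ℕ) (g : G) : MvPowerSeries (Fin Q.n) K :=
  1 - MvPowerSeries.monomial α (mon (g + (∑ i, bExp Q v i * α i) • (qq - hb)))

/-- The conjectured product, each `Φ(x) = ∏_j (1 - x q^j)` being cut at `j < J`. -/
noncomputable def rhs (w v : Fin Q.n → ℕ) (J : ℕ) : MvPowerSeries (Fin Q.n) K :=
  ∏ᶠ α ∈ negRoots Q w v,
    ∏ l ∈ range (-pairing Q w (fun i => v i) (fun i => α i)).toNat, ∏ j ∈ range J,
      fac Q v α (hb + l • (hb - qq) + j • qq) * (fac Q v α (l • (hb - qq) + j • qq))⁻¹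

/-- the statement -/
def MainStmt : Prop :=
  ∀ (Q : Quiv), (∀ e, Q.hd e ≠ Q.tl e) → ∀ w v : Fin Q.n → ℕ, InOrbit Q w (fun i => v i) →
    (negRoots Q w v).Finite ∧ ∀ (D : Fin Q.n →₀ ℕ) (N : ℤ), ∀ᶠ m in Filter.atTop,
      ∀ᶠ J in Filter.atTop, ∀ g : G, ofLex g 0 < N →
        (vertex Q w v m D).coeff g = (MvPowerSeries.coeff D (rhs Q w v J)).coeff g

end Pool.Agent.MP_8be872_ag.H38
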