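import Pool.Agent.MP_8be872_ag.H38.Res

/-! `q`-adic limits of Laurent polynomials, residues, vanishing. -/

namespace Pool.Agent.MP_8be872_ag.H38

open Finset Filter

set_option linter.unusedSectionVars false

variable {B : Type}

/-- a Laurent polynomial and its values under substitutions -/
inductive Poly (φ : B → G →+ G) : K → (B → K) → Prop
  | mon (g : G) : Poly φ (mon g) (fun β => mon (φ β g))
  | zero : Poly φ 0 0
  | add {U V : K} {U' V' : B → K} : Poly φ U U' → Poly φ V V' → Poly φ (U + V) (U' + V')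
  | neg {U : K} {U' : B → K} : Poly φ U U' → Poly φ (-U) (-U')

lemma Poly.mon_mul {φ : B → G →+ G} (g : G) {V : K} {V' : B → K} (h : Poly φ V V') :
    Poly φ (H38.mon g * V) ((fun β => H38.mon (φ β g)) * V') := by
  induction h with
  | mon g' =>
    have := Poly.mon (φ := φ) (g + g')
    simp only [map_add, mon_add] at this
    exact this
  | zero => simpa using Poly.zero
  | add _ _ h1 h2 => simpa only [mul_add] using h1.add h2
  | neg _ h1 => simpa only [mul_neg] using h1.neg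

lemma Poly.mul {φ : B → G →+ G} {U V : K} {U' V' : B → K} (hU : Poly φ U U') (h : Poly φ V V') :
    Poly φ (U * V) (U' * V') := by
  induction hU with
  | mon g => exact h.mon_mul g
  | zero => simpa using Poly.zero
  | add _ _ h1 h2 => simpa only [add_mul] using h1.add h2
  | neg _ h1 => simpa only [neg_mul] using h1.neg

/-- limits of Laurent polynomials -/
def Ev (φ : B → G →+ G) (Bs : Finset B) (U : K) (U' : B → K) : Prop :=
  ∀ N, ∃ p p', Poly φ p p' ∧ U - p ∈ FF N ∧ ∀ β ∈ Bs, U' β - p' β ∈ FF N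

variable {φ : B → G →+ G} {Bs : Finset B}

lemma Poly.ev {U : K} {U' : B → K} (h : Poly φ U U') : Ev φ Bs U U' :=
  fun N => ⟨U, U', h, by simp, by simp⟩

lemma Ev.congr {U : K} {U' V' : B → K} (h : Ev φ Bs U U') (e : ∀ β ∈ Bs, U' β = V' β) :
    Ev φ Bs U V' := fun N => by
  obtain ⟨p, p', h1, h2, h3⟩ := h N
  exact ⟨p, p', h1, h2, fun β hβ => e β hβ ▸ h3 β hβ⟩

lemma approx_mul {U V p r : K} {B0 N : ℤ} (hU : U ∈ FF B0) (hV : V ∈ FF B0)
    (h1 : U - p ∈ FF (max (N - B0) B0)) (h2 : V - r ∈ FF (max (N - B0) B0)) :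
    U * V - p * r ∈ FF N := by
  have hr : r ∈ FF B0 := by
    simpa using (FF B0).sub_mem hV (Ge_mono (le_max_right _ _) h2)
  have e : U * V - p * r = U * (V - r) + r * (U - p) := by ring
  rw [e]
  refine (FF N).add_mem ?_ ?_
  · simpa using mul_Ge hU (Ge_mono (le_max_left _ _) h2)
  · simpa using mul_Ge hr (Ge_mono (le_max_left _ _) h1)

lemma exists_FF_fin (s : Finset B) (f : B → K) : ∃ N, ∀ b ∈ s, f b ∈ FF N := by
  obtain ⟨N, hN⟩ := exists_FF_all (fun b : s => f b)
  exact ⟨N, fun b hb => hN ⟨b, hb⟩⟩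

lemma Ev.mul {U V : K} {U' V' : B → K} (hU : Ev φ Bs U U') (hV : Ev φ Bs V V') :
    Ev φ Bs (U * V) (fun β => U' β * V' β) := by
  obtain ⟨B1, h1⟩ := exists_FF U
  obtain ⟨B2, h2⟩ := exists_FF V
  obtain ⟨B3, h3⟩ := exists_FF_fin Bs U'
  obtain ⟨B4, h4⟩ := exists_FF_fin Bs V'
  intro N
  set B0 := min (min B1 B2) (min B3 B4)
  obtain ⟨p, p', a1, a2, a3⟩ := hU (max (N - B0) B0)
  obtain ⟨r, r', b1, b2, b3⟩ := hV (max (N - B0) B0)
  refine ⟨p * r, p' * r', a1.mul b1,
    approx_mul (Ge_mono (by omega) h1) (Ge_mono (by omega) h2) a2 b2, fun β hβ => ?_⟩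
  exact approx_mul (Ge_mono (by omega) (h3 β hβ)) (Ge_mono (by omega) (h4 β hβ)) (a3 β hβ)
    (b3 β hβ)

lemma Ev.mon (g : G) : Ev φ Bs (mon g) (fun β => mon (φ β g)) := (Poly.mon g).ev

lemma Ev.one : Ev φ Bs 1 (fun _ => 1) := by
  simpa [mon_zero] using Ev.mon (φ := φ) (Bs := Bs) 0

lemma Ev.neg {U : K} {U' : B → K} (hU : Ev φ Bs U U') : Ev φ Bs (-U) (fun β => -U' β) :=
  fun N => by
    obtain ⟨p, p', h1, h2, h3⟩ := hU N
    refine ⟨-p, -p', h1.neg, ?_, fun β hβ => ?_⟩
    · simpa [sub_eq_add_neg, add_comm] using (FF N).neg_mem h2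
    · simpa [sub_eq_add_neg, add_comm] using (FF N).neg_mem (h3 β hβ)

lemma Ev.prod {T : Type} (s : Finset T) {f : T → K} {c : T → B → K}
    (h : ∀ t ∈ s, Ev φ Bs (f t) (c t)) : Ev φ Bs (∏ t ∈ s, f t) (fun β => ∏ t ∈ s, c t β) := by
  classical
  induction s using Finset.induction_on with
  | empty => simpa using Ev.one
  | insert a s ha ih =>
    simp only [prod_insert ha]
    exact (h a (mem_insert_self _ _)).mul (ih fun t ht => h t (mem_insert_of_mem ht))

lemma Ev.one_sub (g : G) : Ev φ Bs (1 - H38.mon g) (fun β => 1 - H38.mon (φ β g)) := by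
  have := ((Poly.mon (φ := φ) 0).add (Poly.mon g).neg).ev (Bs := Bs)
  simp only [map_zero, mon_zero] at this
  rw [sub_eq_add_neg]
  exact this.congr fun β _ => by simp [sub_eq_add_neg]

lemma geo_approx {u : G} (hu : 0 < co 0 u) (n : ℕ) :
    (1 - mon u)⁻¹ - ∑ j ∈ range n, mon (j • u) ∈ FF n := by
  have h0 := pos_of_co0 hu
  have h1 := one_sub_mon_ne h0.ne'
  have e : (1 - mon u)⁻¹ - ∑ j ∈ range n, mon (j • u) = mon (n • u) * (1 - mon u)⁻¹ := by
    simp only [mon_nsmul]
    have := mul_neg_geom_sum (mon u) n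
    field_simp
    linear_combination -this
  rw [e]
  have a1 : mon (n • u) ∈ FF n := Ge_mono (by simp; nlinarith) (mon_FF _)
  simpa using mul_Ge a1 (geo_mem (S := Ge0 (co 0)) h0 hu.le)

lemma Poly.geo (u : G) (n : ℕ) :
    Poly φ (∑ j ∈ range n, H38.mon (j • u)) (fun β => ∑ j ∈ range n, H38.mon (j • φ β u)) := by
  induction n with
  | zero => simp only [range_zero, sum_empty]; exact Poly.zero
  | succ n ih =>
    have := ih.add (Poly.mon (n • u))
    simp only [map_nsmul] at this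
    simp only [sum_range_succ]
    exact this

lemma Ev.geo_pos (hφ : ∀ β g, co 0 (φ β g) = co 0 g) {u : G} (hu : 0 < co 0 u) :
    Ev φ Bs (1 - H38.mon u)⁻¹ (fun β => (1 - H38.mon (φ β u))⁻¹) := fun N =>
  ⟨_, _, Poly.geo u N.toNat, Ge_mono (by omega) (geo_approx hu _),
    fun β _ => Ge_mono (by omega) (geo_approx (by rwa [hφ]) _)⟩

lemma Ev.geo (hφ : ∀ β g, co 0 (φ β g) = co 0 g) {u : G} (hu : co 0 u ≠ 0) :
    Ev φ Bs (1 - H38.mon u)⁻¹ (fun β => (1 - H38.mon (φ β u))⁻¹) := by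
  rcases lt_or_gt_of_ne hu with h | h
  · have h' : 0 < co 0 (-u) := by simpa using h
    have := ((Ev.mon (φ := φ) (Bs := Bs) (-u)).mul (Ev.geo_pos hφ h')).neg
    rw [geo_flip (u := u) (by rintro rfl; simp at hu)]
    refine this.congr fun β _ => ?_
    rw [geo_flip (u := φ β u) (fun h0 => hu (by rw [← hφ β, h0]; simp)), map_neg]
  · exact Ev.geo_pos hφ h

variable {α T ι : Type} [DecidableEq α] [Fintype α] [DecidableEq T]

lemma poles_FF {z z' : T → G} (In Out : Finset T) {ξ : G} (h1 : co 0 ξ = 0)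
    (h2 : ∀ b, co 0 (z b) = 0) (h3 : ∀ b, co 0 (z' b) = 0) : poles z z' In Out ξ ∈ CS (Ge0 (co 0)) :=
  mul_mem (prod_mem fun b _ => geo_FF (by simp [h1, h2]))
    (prod_mem fun b _ => geo_FF (by simp [h1, h3]))

/-- the constant term in several variables is asymptotically the sum of the residues -/
lemma Vars.mv (V : Vars α T) (In Out : α → Finset T) {U : K} {U' : (α → T) → K}
    (hU : Ev V.sub (Fintype.piFinset In) U U') {𝓕 : Filter ι} {M : ι → ℤ}
    (hM : Tendsto M 𝓕 atTop) :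
    (fun i => res (Ker V.π univ)
      (H38.mon (∑ a, M i • V.ξ a) * (U * ∏ a, poles V.z V.z' (In a) (Out a) (V.ξ a))) -
      ∑ β ∈ Fintype.piFinset In, H38.mon (∑ a, M i • V.z (β a)) * (U' β *
        ∏ a, poles V.z V.z' ((In a).erase (β a)) (Out a) (V.z (β a)))) ∈ Null 𝓕 := by
  set W := ∏ a, poles V.z V.z' (In a) (Out a) (V.ξ a)
  set W' := fun β : α → T => ∏ a, poles V.z V.z' ((In a).erase (β a)) (Out a) (V.z (β a))
  let Φ : K → ((α → T) → K) → ι → K := fun U U' i => res (Ker V.π univ)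
      (H38.mon (∑ a, M i • V.ξ a) * (U * W)) -
      ∑ β ∈ Fintype.piFinset In, H38.mon (∑ a, M i • V.z (β a)) * (U' β * W' β)
  have hP : ∀ p p', Poly V.sub p p' → Φ p p' ∈ Null 𝓕 := by
    intro p p' h
    induction h with
    | mon g =>
      apply Null_of_eventually
      have : ∀ᶠ i in 𝓕, ∀ a, 1 ≤ M i + V.π a g :=
        eventually_all.mpr fun a => (hM.eventually_ge_atTop (1 - V.π a g)).mono fun i hi => by omega
      exact this.mono fun i hi => sub_eq_zero.mpr (V.mv_mon In Out g hi)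
    | zero =>
      apply Null_of_eventually
      exact Eventually.of_forall fun i => by simp [Φ]
    | @add U V U' V' _ _ h1 h2 =>
      have : Φ (U + V) (U' + V') = Φ U U' + Φ V V' := by
        ext1 i
        simp only [Φ, add_mul, mul_add, map_add, Pi.add_apply, sum_add_distrib]
        ring
      rw [this]
      exact add_mem h1 h2
    | @neg U U' _ h1 =>
      have : Φ (-U) (-U') = -Φ U U' := by
        ext1 i
        simp only [Φ, neg_mul, mul_neg, map_neg, Pi.neg_apply, sum_neg_distrib]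
        ring
      rw [this]
      exact neg_mem h1
  refine Null_of_approx (a := Φ U U') fun N => ?_
  obtain ⟨p, p', h1, h2, h3⟩ := hU N
  refine ⟨Φ p p', hP p p' h1, fun i => ?_⟩
  have e : Φ U U' i - Φ p p' i = Φ (U - p) (U' - p') i := by
    simp only [Φ, sub_mul, mul_sub, map_sub, Pi.sub_apply, sum_sub_distrib]
    ring
  rw [e]
  have hW : W ∈ CS (Ge0 (co 0)) := prod_mem fun a _ => poles_FF _ _ (V.q1 a) V.q2 V.q3
  have hW' : ∀ β, W' β ∈ CS (Ge0 (co 0)) := fun β =>
    prod_mem fun a _ => poles_FF _ _ (V.q2 _) V.q2 V.q3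
  refine (FF N).sub_mem (res_mem_of ?_) (sum_mem fun β hβ => ?_)
  · have := mul_Ge (mon_FF (∑ a, M i • V.ξ a)) (mul_Ge h2 hW)
    simpa [map_sum, V.q1] using this
  · have := mul_Ge (mon_FF (∑ a, M i • V.z (β a))) (mul_Ge (h3 β hβ) (hW' β))
    simpa [map_sum, V.q2] using this

/-- `q`-adic limits of Laurent polynomials -/
def Reg (U : K) : Prop := Ev (B := Empty) (fun _ => 0) ∅ U (fun _ => 0)

lemma Ev.reg {U : K} {U' : Empty → K} (h : Ev (B := Empty) (fun _ => 0) ∅ U U') : Reg U :=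
  h.congr (by simp)

lemma Reg.mul {U V : K} (hU : Reg U) (hV : Reg V) : Reg (U * V) := (Ev.mul hU hV).reg

lemma Reg.mon (g : G) : Reg (mon g) := (Ev.mon g).reg

lemma Reg.one_sub (g : G) : Reg (1 - H38.mon g) := (Ev.one_sub g).reg

lemma Reg.neg {U : K} (h : Reg U) : Reg (-U) := (Ev.neg h).reg

lemma Reg.geo {u : G} (hu : co 0 u ≠ 0) : Reg (1 - H38.mon u)⁻¹ :=
  (Ev.geo (fun β => β.elim) hu).reg

lemma Reg.prod {T : Type} (s : Finset T) {f : T → K} (h : ∀ t ∈ s, Reg (f t)) :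
    Reg (∏ t ∈ s, f t) := (Ev.prod s h).reg

/-- vanishing outside the cone of the poles -/
lemma vanish {U W : K} (hU : Reg U) {l : G →+ ℤ} (hW : W ∈ CS (Ge0 l)) (hW0 : W ∈ FF 0)
    {𝓕 : Filter ι} {μ : ι → G} (h0 : ∀ i, co 0 (μ i) = 0)
    (hμ : Tendsto (fun i => l (μ i)) 𝓕 atTop) {S : Set G} (hS : ∀ g ∈ S, l g = 0) :
    (fun i => res S (mon (μ i) * (U * W))) ∈ Null 𝓕 := by
  have hP : ∀ p p', Poly (B := Empty) (fun _ => 0) p p' →
      (fun i => res S (mon (μ i) * (p * W))) ∈ Null 𝓕 := by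
    intro p p' h
    induction h with
    | mon g =>
      apply Null_of_eventually
      refine (hμ.eventually_ge_atTop (1 - l g)).mono fun i hi => res_eq_zero ?_
      have a1 : mon (μ i) ∈ Sup (Ge l (l (μ i))) := mon_mem (le_refl (l (μ i)))
      have a2 : mon g ∈ Sup (Ge l (l g)) := mon_mem (le_refl (l g))
      refine Sup_mono ?_ (mul_Ge a1 (mul_Ge a2 hW))
      intro x hx hxS
      have h1 : l (μ i) + (l g + 0) ≤ l x := hx
      have := hS x hxS
      omega
    | zero => exact Null_of_eventually (Eventually.of_forall fun i => by simp)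
    | add _ _ h1 h2 =>
      simp only [add_mul, mul_add, map_add]
      exact add_mem h1 h2
    | neg _ h1 =>
      simp only [neg_mul, mul_neg, map_neg]
      exact neg_mem h1
  refine Null_of_approx fun N => ?_
  obtain ⟨p, p', h1, h2, -⟩ := hU N
  refine ⟨_, hP p p' h1, fun i => ?_⟩
  rw [← map_sub, ← mul_sub, ← sub_mul]
  have := mul_Ge (mon_FF (μ i)) (mul_Ge h2 hW0)
  exact res_mem_of (by simpa [h0] using this)

end Pool.Agent.MP_8be872_ag.H38
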