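import Pool.Agent.MP_8be872_ag.H38.Hahn
import Pool.Agent.MP_8be872_ag.H56.GSpec

/-! Transport of Hahn series along an additive automorphism of the exponents. -/

namespace Pool.Agent.MP_8be872_ag.H38.GSym

open Finset H56

/-- `f'` is obtained from `f` by transporting the exponents along `σ`. -/
def Sym (σ : G ≃+ G) (f f' : K) : Prop := ∀ g, f'.coeff (σ g) = f.coeff g

variable {σ : G ≃+ G}

lemma Sym.mon (g : G) : Sym σ (mon g) (mon (σ g)) := fun h => by
  by_cases e : h = g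
  · simp [H38.mon, e]
  · have e' : σ h ≠ σ g := fun h' => e (σ.injective h')
    simp [H38.mon, HahnSeries.coeff_single_of_ne e, HahnSeries.coeff_single_of_ne e']

lemma Sym.one : Sym σ 1 1 := by simpa [mon_zero] using Sym.mon (σ := σ) 0

lemma Sym.sub {f f' h h' : K} (a : Sym σ f f') (b : Sym σ h h') : Sym σ (f - h) (f' - h') :=
  fun g => by rw [HahnSeries.coeff_sub, HahnSeries.coeff_sub, a g, b g]

lemma Sym.neg {f f' : K} (a : Sym σ f f') : Sym σ (-f) (-f') :=
  fun g => by rw [HahnSeries.coeff_neg, HahnSeries.coeff_neg, a g]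

lemma Sym.mul {f f' h h' : K} (a : Sym σ f f') (b : Sym σ h h') : Sym σ (f * h) (f' * h') := by
  intro g
  rw [HahnSeries.coeff_mul, HahnSeries.coeff_mul]
  refine (sum_bij' (fun ij _ => (σ ij.1, σ ij.2)) (fun ij _ => (σ.symm ij.1, σ.symm ij.2))
    ?_ ?_ ?_ ?_ ?_).symm
  · intro ij hij
    simp only [Finset.mem_antidiagonal, HahnSeries.mem_support] at hij ⊢
    exact ⟨by rw [a]; exact hij.1, by rw [b]; exact hij.2.1, by rw [← map_add, hij.2.2]⟩
  · intro ij hij
    simp only [Finset.mem_antidiagonal, HahnSeries.mem_support] at hij ⊢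
    refine ⟨by rw [← a, σ.apply_symm_apply]; exact hij.1,
      by rw [← b, σ.apply_symm_apply]; exact hij.2.1, ?_⟩
    rw [← map_add, hij.2.2, σ.symm_apply_apply]
  · intro ij _; simp
  · intro ij _; simp
  · intro ij _; rw [a, b]

lemma Sym.prod {T : Type} (s : Finset T) {f f' : T → K} (h : ∀ t ∈ s, Sym σ (f t) (f' t)) :
    Sym σ (∏ t ∈ s, f t) (∏ t ∈ s, f' t) := by
  classical
  induction s using Finset.induction_on with
  | empty => simpa using Sym.one
  | insert a s ha ih =>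
    rw [prod_insert ha, prod_insert ha]
    exact (h a (mem_insert_self _ _)).mul (ih fun t ht => h t (mem_insert_of_mem ht))

lemma Sym.ite {p : Prop} [Decidable p] {f f' : K} (h : Sym σ f f') :
    Sym σ (if p then f else 1) (if p then f' else 1) := by
  split_ifs
  · exact h
  · exact Sym.one

lemma Sym.one_sub (g : G) : Sym σ (1 - H38.mon g) (1 - H38.mon (σ g)) := Sym.one.sub (Sym.mon g)

lemma geo_coeff {u : G} (hu : 0 < u) (g : G) :
    (1 - H38.mon u)⁻¹.coeff g = ∑ᶠ n : ℕ, (H38.mon (n • u)).coeff g := by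
  have hx : 0 < (H38.mon u).orderTop := by
    rw [H38.mon, HahnSeries.orderTop_single one_ne_zero]; exact_mod_cast hu
  have h1 := HahnSeries.SummableFamily.one_sub_self_mul_hsum_powers hx
  rw [← eq_inv_of_mul_eq_one_right h1, HahnSeries.SummableFamily.coeff_hsum]
  refine finsum_congr fun n => ?_
  rw [HahnSeries.SummableFamily.powers_of_orderTop_pos hx, mon_nsmul]

lemma Sym.geo_pos {u : G} (hu : 0 < u) (hu' : 0 < σ u) :
    Sym σ (1 - H38.mon u)⁻¹ (1 - H38.mon (σ u))⁻¹ := fun g => by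
  rw [geo_coeff hu, geo_coeff hu']
  refine finsum_congr fun n => ?_
  rw [← map_nsmul]
  exact Sym.mon _ g

/-- The automorphism preserves the exponents of `q` and of `ħ^(1/2)`. -/
structure Adm (σ : G ≃+ G) : Prop where
  c0 : ∀ g, co 0 (σ g) = co 0 g
  c1 : ∀ g, co 1 (σ g) = co 1 g
  q : σ qq = qq
  t : σ tau = tau

lemma Adm.h (hσ : Adm σ) : σ hb = hb := by rw [hb, map_add, hσ.t]

lemma Sym.geo (hσ : Adm σ) {u : G} (hu : co 0 u ≠ 0 ∨ co 1 u ≠ 0) :
    Sym σ (1 - H38.mon u)⁻¹ (1 - H38.mon (σ u))⁻¹ := by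
  have pos : ∀ u : G, 0 < co 0 u ∨ (co 0 u = 0 ∧ 0 < co 1 u) →
      Sym σ (1 - H38.mon u)⁻¹ (1 - H38.mon (σ u))⁻¹ := by
    rintro u (h | ⟨h, h'⟩)
    · exact Sym.geo_pos (pos_of_co0 h) (pos_of_co0 (by rwa [hσ.c0]))
    · exact Sym.geo_pos (pos_of_co1 h h') (pos_of_co1 (by rwa [hσ.c0]) (by rwa [hσ.c1]))
  by_cases h : 0 < co 0 u ∨ (co 0 u = 0 ∧ 0 < co 1 u)
  · exact pos u h
  · have hu0 : u ≠ 0 := by rintro rfl; simp at hu
    have hu1 : σ u ≠ 0 := by simpa using hu0
    rw [geo_flip hu0, geo_flip hu1, ← map_neg]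
    refine ((Sym.mon _).mul (pos (-u) ?_)).neg
    simp only [map_neg]
    omega

lemma c0q : co 0 qq = 1 := by simp [qq, co_gen]
lemma c1q : co 1 qq = 0 := by simp [qq, co_gen]
lemma c0t : co 0 tau = 0 := by simp [tau, co_gen]
lemma c1t : co 1 tau = 1 := by simp [tau, co_gen]
lemma c0h : co 0 hb = 0 := by simp [hb, c0t]
lemma c1h : co 1 hb = 2 := by simp [hb, c1t]

lemma Sym.lam (hσ : Adm σ) {w : G} (h1 : co 1 w ≠ 0) (m : ℤ) :
    Sym σ (lam w m) (lam (σ w) m) := by
  have e : ∀ l : ℤ, -(σ w + l • qq) = σ (-(w + l • qq)) := fun l => by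
    simp only [map_neg, map_add, map_zsmul, hσ.q]
  simp only [H38.lam, e, ← prod_inv_distrib]
  refine (Sym.prod _ fun l _ => Sym.geo hσ (Or.inr ?_)).mul (Sym.prod _ fun l _ => Sym.one_sub _)
  simpa [c1q] using h1

lemma Sym.pairF (hσ : Adm σ) {w w' : G} (h1 : co 1 w = -1) (hw : σ w = w') (m : ℤ) :
    Sym σ (pairF w m) (pairF w' m) := by
  subst hw
  have e1 : -hb - σ w = σ (-hb - w) := by simp only [map_sub, map_neg, hσ.h]
  have e2 : -(m • (σ w + tau)) - (m * (m - 1) / 2) • qq =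
      σ (-(m • (w + tau)) - (m * (m - 1) / 2) • qq) := by
    simp only [map_sub, map_neg, map_zsmul, map_add, hσ.q, hσ.t]
  rw [H38.pairF, H38.pairF, e1, e2]
  refine ((Sym.lam hσ (by omega) m).mul (Sym.lam hσ ?_ _)).mul (Sym.mon _)
  simp [c1h, h1]

lemma Sym.lamM_inv (hσ : Adm σ) {w : G} (h0 : co 0 w = 0) (m : ℤ) :
    Sym σ (lamM w m)⁻¹ (lamM (σ w) m)⁻¹ := by
  have e : ∀ l : ℤ, -(σ w + l • qq) = σ (-(w + l • qq)) := fun l => by
    simp only [map_neg, map_add, map_zsmul, hσ.q]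
  simp only [lamM, e, mul_inv, inv_inv]
  rw [← prod_inv_distrib, ← prod_inv_distrib]
  refine (Sym.prod _ fun l _ => Sym.one_sub _).mul (Sym.prod _ fun l hl => Sym.geo hσ (Or.inl ?_))
  have := (mem_Ioo.1 hl).2
  simp only [map_neg, map_add, map_zsmul, h0, c0q, smul_eq_mul]
  omega

lemma Sym.pairM_inv (hσ : Adm σ) {w : G} (h0 : co 0 w = 0) (m : ℤ) :
    Sym σ (pairM w m)⁻¹ (pairM (σ w) m)⁻¹ := by
  have e1 : -hb - σ w = σ (-hb - w) := by simp only [map_sub, map_neg, hσ.h]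
  have e2 : -(m • (σ w + tau)) - (m * (m - 1) / 2) • qq =
      σ (-(m • (w + tau)) - (m * (m - 1) / 2) • qq) := by
    simp only [map_sub, map_neg, map_zsmul, map_add, hσ.q, hσ.t]
  rw [pairM, pairM, e1, e2, mul_inv, mul_inv, mul_inv, mul_inv, ← mon_neg, ← mon_neg, ← map_neg]
  refine ((Sym.lamM_inv hσ h0 m).mul (Sym.lamM_inv hσ ?_ _)).mul (Sym.mon _)
  simp [c0h, h0]

lemma ct_add (f h : K) : ct (f + h) = ct f + ct h := by
  ext g
  simp only [ct, HahnSeries.coeff_add]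
  split_ifs <;> simp

lemma ct_zero : ct 0 = 0 := by
  ext g
  simp [ct]

lemma ct_sum {T : Type} (s : Finset T) (f : T → K) : ct (∑ t ∈ s, f t) = ∑ t ∈ s, ct (f t) := by
  classical
  induction s using Finset.induction_on with
  | empty => simpa using ct_zero
  | insert a s ha ih => rw [sum_insert ha, sum_insert ha, ct_add, ih]

lemma Sym.ct_eq (hσ : ∀ g : G, (∀ i a, ofLex g (3 * Nat.pair i a + 4) = 0) → σ g = g) {f f' : K}
    (h : Sym σ f f') : ct f = ct f' := by
  ext g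
  simp only [ct]
  split_ifs with hg
  · rw [← h g, hσ g hg]
  · rfl

/-- Splitting off the fixed part. -/
lemma lam_eq (w : G) (m : ℤ) :
    lam w m = lamM w m * if 0 ≤ m then (1 - H38.mon (-w))⁻¹ else 1 := by
  rw [H38.lam, lamM]
  split_ifs with h
  · have : Icc 0 m = insert 0 (Icc 1 m) := by
      ext l; simp only [mem_Icc, mem_insert]; omega
    rw [this, prod_insert (by simp), mul_inv, zero_smul, add_zero]
    ring
  · rw [Icc_eq_empty (by omega), Icc_eq_empty (by omega), mul_one]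

lemma pairF_eq (w : G) (m : ℤ) :
    H38.pairF w m = pairM w m * ((if 0 ≤ m then (1 - H38.mon (-w))⁻¹ else 1) *
      if m ≤ 0 then (1 - H38.mon (hb + w))⁻¹ else 1) := by
  rw [H38.pairF, pairM, lam_eq, lam_eq]
  simp only [neg_nonneg, neg_sub, sub_neg_eq_add, add_comm w hb]
  ring

lemma pairM_zero : pairM 0 0 = 1 := by
  simp [pairM, lamM, mon_zero]

end Pool.Agent.MP_8be872_ag.H38.GSym
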