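import Pool.Agent.MP_8be872_ag.H38.Res

/-! The Weyl symmetrization identity in block form. -/

namespace Pool.Agent.MP_8be872_ag.H38.GSym

open Finset

variable {F : Type} [Field F]

lemma unity {T : Type} [DecidableEq T] (z : T → F) (M : Finset T) (hne : M.Nonempty) :
    (∀ b ∈ M, z b ≠ 0) → Set.InjOn z M → ∑ p ∈ M, ∏ b ∈ M.erase p, (1 - z b / z p)⁻¹ = 1 := by
  induction hne using Finset.Nonempty.cons_induction with
  | singleton a => intro _ _; simp
  | cons a s ha hs ih =>
    intro hz hinj
    have hz' : ∀ b ∈ s, z b ≠ 0 := fun b hb => hz b (mem_cons_of_mem hb)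
    have hinj' : Set.InjOn z s := hinj.mono (by intro b hb; simp only [coe_cons]; exact Or.inr hb)
    have hza := hz a (mem_cons_self _ _)
    have hne : ∀ b ∈ s, z b ≠ z a := fun b hb h => by
      have := hinj (by simp [hb]) (by simp) h
      exact ha (this ▸ hb)
    rw [sum_cons, erase_cons, lagr z s hs hz' hinj' (z a) hza hne, ← sum_add_distrib]
    refine (sum_congr rfl fun b hb => ?_).trans (ih hz' hinj')
    have hab : a ≠ b := fun h => ha (h ▸ hb)
    have : (cons a s ha).erase b = insert a (s.erase b) := by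
      rw [cons_eq_insert, erase_insert_of_ne hab]
    rw [this, prod_insert (by simp [ha])]
    have h1 := hz' b hb
    have h4 : z a - z b ≠ 0 := sub_ne_zero.mpr (hne b hb).symm
    have h5 : z b - z a ≠ 0 := sub_ne_zero.mpr (hne b hb)
    rw [one_sub_div hza, one_sub_div h1]
    field_simp
    ring

variable {α : Type} [DecidableEq α]

/-- The parabolic Weyl factor. -/
def Wf (z : α → F) (d : α → ℤ) (s : Finset α) : F :=
  ∏ a ∈ s, ∏ b ∈ s, if a ≠ b ∧ d b ≤ d a then 1 - z b / z a else 1

lemma Wf_erase (z : α → F) (d : α → ℤ) {s M : Finset α} {p : α} (hp : p ∈ s)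
    (hmin : ∀ b ∈ s, d p ≤ d b) (hM : ∀ a, a ∈ M ↔ a ∈ s ∧ ∀ b ∈ s, d a ≤ d b) :
    Wf z d s = (∏ a ∈ s.erase p, (1 - z p / z a)) * Wf z d (s.erase p) *
      ∏ b ∈ M.erase p, (1 - z b / z p) := by
  have e1 : ∏ b ∈ s.erase p, (if p ≠ b ∧ d b ≤ d p then 1 - z b / z p else 1) =
      ∏ b ∈ M.erase p, (1 - z b / z p) := by
    rw [← prod_filter]
    refine prod_congr ?_ fun _ _ => rfl
    ext b
    simp only [mem_filter, mem_erase, hM]
    exact ⟨fun h => ⟨h.1.1, h.1.2, fun c hc => h.2.2.trans (hmin c hc)⟩,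
      fun h => ⟨⟨h.1, h.2.1⟩, h.1.symm, h.2.2 p hp⟩⟩
  have e2 : ∏ a ∈ s.erase p, ∏ b ∈ s, (if a ≠ b ∧ d b ≤ d a then 1 - z b / z a else 1) =
      (∏ a ∈ s.erase p, (1 - z p / z a)) * Wf z d (s.erase p) := by
    rw [Wf, ← prod_mul_distrib]
    refine prod_congr rfl fun a ha => ?_
    rw [← mul_prod_erase s _ hp, if_pos ⟨ne_of_mem_erase ha, hmin a (mem_of_mem_erase ha)⟩]
  rw [Wf, ← mul_prod_erase s _ hp, ← mul_prod_erase s _ hp, if_neg (by simp), one_mul, e1, e2,
    mul_comm]

lemma weyl_fun [Fintype α] (z : α → F) (hz : ∀ a, z a ≠ 0) (hinj : Function.Injective z)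
    (d : α → ℤ) (n : ℕ) : ∀ s : Finset α, s.card = n →
    ∑ f : Fin n → α, (if Function.Injective f ∧ (∀ i, f i ∈ s) ∧
        (∀ a b, b < a → d (f b) ≤ d (f a)) then
      ∏ a, ∏ b, (if b < a then 1 - z (f b) / z (f a) else 1) else 0) = Wf z d s := by
  classical
  induction n with
  | zero =>
    intro s hs
    rw [card_eq_zero] at hs
    subst hs
    simp [Wf, Function.injective_of_subsingleton]
  | succ n ih =>
    intro s hs
    rw [← (Fin.consEquiv fun _ : Fin (n + 1) => α).sum_comp, Fintype.sum_prod_type]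
    set M := s.filter fun a => ∀ b ∈ s, d a ≤ d b with hM
    have step : ∀ p : α, ∑ f : Fin n → α,
        (if Function.Injective (Fin.cons p f : Fin (n + 1) → α) ∧
          (∀ i, (Fin.cons p f : Fin (n + 1) → α) i ∈ s) ∧
          (∀ a b, b < a → d ((Fin.cons p f : Fin (n + 1) → α) b) ≤
            d ((Fin.cons p f : Fin (n + 1) → α) a)) then
        ∏ a, ∏ b, (if b < a then 1 - z ((Fin.cons p f : Fin (n + 1) → α) b) /
          z ((Fin.cons p f : Fin (n + 1) → α) a) else 1) else 0) =
        if p ∈ M then (∏ a ∈ s.erase p, (1 - z p / z a)) * Wf z d (s.erase p) else 0 := by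
      intro p
      have himg : ∀ f : Fin n → α, p ∈ s → Function.Injective f → (∀ i, f i ∈ s.erase p) →
          univ.image f = s.erase p := by
        intro f hp hf hfs
        refine eq_of_subset_of_card_le (fun a ha => ?_) ?_
        · obtain ⟨i, -, rfl⟩ := mem_image.1 ha
          exact hfs i
        · rw [card_image_of_injective _ hf, card_erase_of_mem hp, hs]; simp
      have hcond : ∀ f : Fin n → α, (Function.Injective (Fin.cons p f : Fin (n + 1) → α) ∧
          (∀ i, (Fin.cons p f : Fin (n + 1) → α) i ∈ s) ∧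
          (∀ a b, b < a → d ((Fin.cons p f : Fin (n + 1) → α) b) ≤
            d ((Fin.cons p f : Fin (n + 1) → α) a))) ↔ p ∈ M ∧ (Function.Injective f ∧
            (∀ i, f i ∈ s.erase p) ∧ ∀ a b, b < a → d (f b) ≤ d (f a)) := by
        intro f
        rw [Fin.cons_injective_iff, hM, mem_filter]
        constructor
        · rintro ⟨⟨h1, h2⟩, h3, h4⟩
          have hp : p ∈ s := h3 0
          have h5 : ∀ i, f i ∈ s.erase p := fun i =>
            mem_erase.2 ⟨fun h => h1 ⟨i, h⟩, h3 i.succ⟩
          refine ⟨⟨hp, fun b hb => ?_⟩, h2, h5, fun a b hab =>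
            h4 a.succ b.succ (Fin.succ_lt_succ_iff.2 hab)⟩
          by_cases hbp : b = p
          · rw [hbp]
          · have : b ∈ univ.image f := by rw [himg f hp h2 h5]; exact mem_erase.2 ⟨hbp, hb⟩
            obtain ⟨i, -, rfl⟩ := mem_image.1 this
            exact h4 i.succ 0 (Fin.succ_pos i)
        · rintro ⟨⟨hp, h1⟩, h2, h3, h4⟩
          refine ⟨⟨?_, h2⟩, ?_, ?_⟩
          · rintro ⟨i, hi⟩
            exact ne_of_mem_erase (h3 i) hi
          · intro i
            refine Fin.cases hp (fun i => mem_of_mem_erase (h3 i)) i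
          · intro a b
            refine Fin.cases ?_ (fun a => ?_) a
            · intro h; exact absurd h (Fin.not_lt_zero b)
            · refine Fin.cases ?_ (fun b => ?_) b
              · intro _; exact h1 _ (mem_of_mem_erase (h3 a))
              · intro h; exact h4 a b (Fin.succ_lt_succ_iff.1 h)
      simp only [hcond]
      by_cases hp : p ∈ M
      · have hps : p ∈ s := (mem_filter.1 hp).1
        rw [if_pos hp, ← ih (s.erase p) (by rw [card_erase_of_mem hps, hs]; rfl), mul_sum]
        refine sum_congr rfl fun f _ => ?_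
        simp only [hp, true_and]
        split_ifs with h
        · rw [← himg f hps h.1 h.2.1, prod_image fun a _ b _ e => h.1 e, ← prod_mul_distrib,
            Fin.prod_univ_succ]
          simp only [Fin.not_lt_zero, if_false, prod_const_one, one_mul]
          refine prod_congr rfl fun a _ => ?_
          rw [Fin.prod_univ_succ]
          simp
        · simp
      · simp [hp]
    refine (sum_congr rfl fun p _ => step p).trans ?_
    rw [← sum_filter, filter_mem_eq_inter, univ_inter]
    have hne : M.Nonempty := by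
      obtain ⟨a, ha, h⟩ := exists_min_image s d (card_pos.1 (by omega))
      exact ⟨a, mem_filter.2 ⟨ha, h⟩⟩
    have hu := unity z M hne (fun b _ => hz b) hinj.injOn
    refine Eq.trans ?_ ((congrArg (Wf z d s * ·) hu).trans (mul_one _))
    rw [mul_sum]
    refine sum_congr rfl fun p hp => ?_
    have e : ∏ b ∈ M.erase p, ((1 - z b / z p) * (1 - z b / z p)⁻¹) = 1 := by
      refine prod_eq_one fun b hb => ?_
      refine mul_inv_cancel₀ (sub_ne_zero.2 fun h => ne_of_mem_erase hb (hinj ?_))
      rw [eq_div_iff (hz p), one_mul] at h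
      exact h.symm
    rw [Wf_erase z d (M := M) (mem_filter.1 hp).1 (mem_filter.1 hp).2 fun a => mem_filter,
      mul_assoc _ (∏ b ∈ M.erase p, (1 - z b / z p)), ← prod_mul_distrib, e, mul_one]

lemma weyl {n : ℕ} (z : Fin n → F) (hz : ∀ a, z a ≠ 0) (hinj : Function.Injective z)
    (d : Fin n → ℤ) :
    ∑ π : Equiv.Perm (Fin n), (if ∀ a b, b < a → d (π b) ≤ d (π a) then
      ∏ a, ∏ b, (if b < a then 1 - z (π b) / z (π a) else 1) else 0) =
    ∏ a, ∏ b, if a ≠ b ∧ d b ≤ d a then 1 - z b / z a else 1 := by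
  classical
  refine Eq.trans ?_ (weyl_fun z hz hinj d n univ (by simp))
  simp only [mem_univ, implies_true, true_and, ite_and]
  rw [← sum_filter (p := fun f : Fin n → Fin n => Function.Injective f)]
  refine sum_bij (fun π _ => (π : Fin n → Fin n)) (fun π _ => by simp [π.injective])
    (fun π _ π' _ h => Equiv.coe_fn_injective h) (fun f hf => ?_) fun _ _ => rfl
  exact ⟨Equiv.ofBijective f (Finite.injective_iff_bijective.1 (mem_filter.1 hf).2), mem_univ _, rfl⟩

end Pool.Agent.MP_8be872_ag.H38.GSym
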