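import Pool.Agent.MP_8be872_ag.H38.GRel
import Pool.Agent.MP_8be872_ag.H38.GWeyl

/-! From the parabolic form of the constant term to the Borel form. -/

namespace Pool.Agent.MP_8be872_ag.H38

open Finset H56

namespace GSym

section Prods

variable {Q : Quiv} {u u' : Fin Q.n → ℕ}

lemma bas_all (F : Fin Q.n → ℕ → K) :
    ∏ a : Bas Q u, F a.1 a.2 = ∏ i, ∏ a ∈ range (u i), F i a := by
  rw [Fintype.prod_sigma]
  exact prod_congr rfl fun i _ => Fin.prod_univ_eq_prod_range (F i) (u i)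

lemma bas_at (j : Fin Q.n) (F : ℕ → K) :
    ∏ a : Bas Q u, (if a.1 = j then F a.2 else 1) = ∏ a ∈ range (u j), F a := by
  rw [bas_all fun i a => if i = j then F a else 1,
    prod_eq_single j (fun i _ h => by simp [h]) (by simp)]
  simp

lemma bas_two (j k : Fin Q.n) (F : ℕ → ℕ → K) (Φ : Bas Q u → Bas Q u' → K)
    (h : ∀ a b, Φ a b = if a.1 = j then if b.1 = k then F a.2 b.2 else 1 else 1) :
    ∏ a, ∏ b, Φ a b = ∏ a ∈ range (u j), ∏ b ∈ range (u' k), F a b := by
  rw [← bas_at j fun a => ∏ b ∈ range (u' k), F a b]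
  refine prod_congr rfl fun a _ => ?_
  simp only [h]
  split_ifs
  · exact bas_at k (F a.2)
  · simp

lemma bas_diag (F : Fin Q.n → ℕ → ℕ → K) (Φ : Bas Q u → Bas Q u' → K)
    (h : ∀ a b, Φ a b = if b.1 = a.1 then F a.1 a.2 b.2 else 1) :
    ∏ a, ∏ b, Φ a b = ∏ i, ∏ a ∈ range (u i), ∏ b ∈ range (u' i), F i a b := by
  rw [← bas_all fun i a => ∏ b ∈ range (u' i), F i a b]
  refine prod_congr rfl fun a _ => ?_
  simp only [h]
  exact bas_at a.1 (F a.1 a.2)

lemma prod_sub_ite {α : Type} [Fintype α] (p : α → Prop) [DecidablePred p] (f : α → K) :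
    ∏ a : Subtype p, f a = ∏ a, if p a then f a else 1 := by
  rw [← prod_filter, prod_subtype (univ.filter p) (p := p) (by simp)]

end Prods

variable (Q : Quiv) (w v : Fin Q.n → ℕ) (θ : Fin Q.n → ℤ)

/-- The gauge factor without its Weyl part. -/
noncomputable def gau (g : G) (m : ℤ) : K :=
  (pairM g m)⁻¹ * if m ≤ 0 then 1 - mon (hb + g) else 1

/-- The symmetric part of the integrand. -/
noncomputable def RR (x : Fin Q.n → ℕ → G) (d : Fin Q.n → ℕ → ℤ) : K :=
  mon (∑ i : Fin Q.n, ∑ a ∈ range (v i), θ i • x i a) *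
  ((∏ e, ∏ a ∈ range (v (Q.tl e)), ∏ b ∈ range (v (Q.hd e)),
      pairF (tE e - tau + x (Q.hd e) b - x (Q.tl e) a) (d (Q.hd e) b - d (Q.tl e) a)) *
    (∏ i, ∏ k ∈ range (w i), ∏ a ∈ range (v i), pairF (x i a - uF i k - tau) (d i a)) *
    ∏ i, ∏ a ∈ range (v i), ∏ b ∈ range (v i), gau (x i a - x i b) (d i a - d i b))

/-- The parabolic Weyl factor. -/
noncomputable def WW (d : Fin Q.n → ℕ → ℤ) : K :=
  ∏ i, ∏ a ∈ range (v i), ∏ b ∈ range (v i),
    if a ≠ b ∧ d i b ≤ d i a then 1 - mon (xV i b - xV i a) else 1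

/-- The Borel Weyl factor. -/
noncomputable def BB (x : Fin Q.n → ℕ → G) : K :=
  ∏ i, ∏ a ∈ range (v i), ∏ b ∈ range (v i), if b < a then 1 - mon (x i b - x i a) else 1

lemma integrand_eq (d : Fin Q.n → ℕ → ℤ) :
    mon (∑ i : Fin Q.n, ∑ a ∈ range (v i), θ i • xV i a) * integrand Q w v d =
      RR Q w v θ (fun i a => xV i a) d * WW Q v d := by
  have key : (∏ i : Fin Q.n, ∏ a ∈ range (v i), ∏ b ∈ range (v i),
      if a = b then 1 - mon hb else (pairF (xV i a - xV i b) (d i a - d i b))⁻¹) =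
      (∏ i : Fin Q.n, ∏ a ∈ range (v i), ∏ b ∈ range (v i),
        gau (xV i a - xV i b) (d i a - d i b)) * WW Q v d := by
    simp only [WW, ← prod_mul_distrib]
    refine prod_congr rfl fun i _ => prod_congr rfl fun a _ => prod_congr rfl fun b _ => ?_
    by_cases h : a = b
    · simp [h, gau, pairM_zero]
    · rw [if_neg h, pairF_eq, gau]
      simp only [ne_eq, h, not_false_eq_true, true_and, sub_nonneg, neg_sub, mul_inv]
      split_ifs <;> simp only [inv_inv, inv_one] <;> ring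
  rw [RR, integrand, key]
  ring

lemma root_eq : ∏ r : Subtype (RootP Q v), (1 - mon (xV r.1.2.1 r.1.2.2 - xV r.1.1.1 r.1.1.2)) =
    BB Q v fun i a => xV i a := by
  rw [prod_sub_ite (RootP Q v) fun r => 1 - mon (xV r.2.1 r.2.2 - xV r.1.1 r.1.2),
    Fintype.prod_prod_type, BB]
  refine bas_diag (fun i a b => if b < a then 1 - mon (xV i b - xV i a) else 1) _ ?_
  rintro ⟨i, a⟩ ⟨j, b⟩
  by_cases h : j = i
  · subst h; simp [RootP]
  · simp [RootP, h, Ne.symm h]

lemma rel_eq (d : Fin Q.n → ℕ → ℤ) : ∏ β : Subtype (RelP Q v d), (1 - mon (relWt Q v d β)) =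
    ∏ i, ∏ a ∈ range (v i), ∏ b ∈ range (v i),
      if d i a - d i b ≤ 0 then 1 - mon (hb + (xV i a - xV i b)) else 1 := by
  simp only [relWt]
  rw [prod_sub_ite (RelP Q v d) fun r => 1 - mon (hb - (xV r.1.1 r.1.2 - xV r.2.1 r.2.2)),
    Fintype.prod_prod_type, prod_comm]
  refine bas_diag (fun i a b => if d i a - d i b ≤ 0 then 1 - mon (hb + (xV i a - xV i b)) else 1)
    _ ?_
  rintro ⟨i, a⟩ ⟨j, b⟩
  by_cases h : j = i
  · subst h
    simp only [RelP, true_and, if_true, sub_nonpos]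
    rw [← neg_sub (xV j a), sub_neg_eq_add]
  · simp [RelP, h]

open Classical in
/-- The factor of one coordinate. -/
noncomputable def alw (d : Fin Q.n → ℕ → ℤ) (c : Co Q w v) : K :=
  if allowed Q w v d c then (1 - mon (polWt (basWt Q w v) (arrWt Q) 0 (some c)))⁻¹ else 1

lemma alw_eq (d : Fin Q.n → ℕ → ℤ) (c : Co Q w v) (p : Prop) [Decidable p]
    (h : allowed Q w v d c ↔ p) : alw Q w v d c =
      if p then (1 - mon (polWt (basWt Q w v) (arrWt Q) 0 (some c)))⁻¹ else 1 := by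
  rw [alw]
  by_cases hp : p
  · rw [if_pos hp, if_pos (h.2 hp)]
  · rw [if_neg hp, if_neg fun h' => hp (h.1 h')]

open Classical in
lemma allowed_eq (d : Fin Q.n → ℕ → ℤ) :
    ∏ c : Co Q w v with allowed Q w v d c,
      (1 - mon (polWt (basWt Q w v) (arrWt Q) 0 (some c)))⁻¹ =
    (∏ e, ∏ a ∈ range (v (Q.tl e)), ∏ b ∈ range (v (Q.hd e)),
      ((if 0 ≤ d (Q.hd e) b - d (Q.tl e) a then
        (1 - mon (-(tE e - tau + xV (Q.hd e) b - xV (Q.tl e) a)))⁻¹ else 1) *
      if d (Q.hd e) b - d (Q.tl e) a ≤ 0 then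
        (1 - mon (hb + (tE e - tau + xV (Q.hd e) b - xV (Q.tl e) a)))⁻¹ else 1)) *
    ∏ i, ∏ k ∈ range (w i), ∏ a ∈ range (v i),
      ((if 0 ≤ d i a then (1 - mon (-(xV i a - uF i k - tau)))⁻¹ else 1) *
      if d i a ≤ 0 then (1 - mon (hb + (xV i a - uF i k - tau)))⁻¹ else 1) := by
  rw [prod_filter]
  change ∏ c, alw Q w v d c = _
  have z1 : ∀ s a b, alw Q w v d ((none, s), .inl a, .inl b) = 1 := fun s _ _ => by
    cases s <;> exact if_neg id
  have z2 : ∀ o s a b, alw Q w v d ((o, s), .inr a, .inr b) = 1 := fun o s _ _ => by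
    cases o <;> cases s <;> exact if_neg id
  have z3 : ∀ e s a b, alw Q w v d ((some e, s), .inl a, .inr b) = 1 := fun _ s _ _ => by
    cases s <;> exact if_neg id
  have z4 : ∀ e s a b, alw Q w v d ((some e, s), .inr a, .inl b) = 1 := fun _ s _ _ => by
    cases s <;> exact if_neg id
  have z5 : ∀ a b, alw Q w v d ((none, false), .inl a, .inr b) = 1 := fun _ _ => if_neg id
  have z6 : ∀ a b, alw Q w v d ((none, true), .inr a, .inl b) = 1 := fun _ _ => if_neg id
  simp only [Fintype.prod_prod_type, Fintype.prod_option, Fintype.prod_bool,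
    Fintype.prod_sum_type, z1, z2, z3, z4, z5, z6, prod_const_one, mul_one, one_mul,
    prod_mul_distrib]
  refine (congrArg₂ (· * ·) (congrArg₂ (· * ·) (congrArg₂ (· * ·) ?_ ?_) ?_) ?_).trans
    ((mul_right_comm _ _ _).trans (mul_assoc _ _ _))
  · refine prod_congr rfl fun e _ => prod_comm.trans ?_
    refine bas_two (Q.tl e) (Q.hd e) (fun a b => if 0 ≤ d (Q.hd e) b - d (Q.tl e) a then
        (1 - mon (-(tE e - tau + xV (Q.hd e) b - xV (Q.tl e) a)))⁻¹ else 1) _ ?_
    rintro ⟨i, a⟩ ⟨j, b⟩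
    rw [alw_eq Q w v d _ (j = Q.hd e ∧ i = Q.tl e ∧ d i a ≤ d j b) Iff.rfl]
    by_cases h : i = Q.tl e
    · by_cases h' : j = Q.hd e
      · subst h h'
        simp only [true_and, if_true, sub_nonneg, polWt, basWt, arrWt]
        rw [show xV (Q.hd e) b - xV (Q.tl e) a + (tE e - tau) =
          tE e - tau + xV (Q.hd e) b - xV (Q.tl e) a by abel]
      · simp [h']
    · simp [h]
  · refine prod_congr rfl fun e _ => ?_
    refine bas_two (Q.tl e) (Q.hd e) (fun a b => if d (Q.hd e) b - d (Q.tl e) a ≤ 0 then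
        (1 - mon (hb + (tE e - tau + xV (Q.hd e) b - xV (Q.tl e) a)))⁻¹ else 1) _ ?_
    rintro ⟨i, a⟩ ⟨j, b⟩
    rw [alw_eq Q w v d _ (i = Q.tl e ∧ j = Q.hd e ∧ d j b ≤ d i a) Iff.rfl]
    by_cases h : i = Q.tl e
    · by_cases h' : j = Q.hd e
      · subst h h'
        simp only [true_and, if_true, sub_nonpos, polWt, basWt, arrWt]
        rw [show -(xV (Q.tl e) a - xV (Q.hd e) b + (-tE e - tau)) =
          hb + (tE e - tau + xV (Q.hd e) b - xV (Q.tl e) a) by rw [hb]; abel]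
      · simp [h']
    · simp [h]
  · refine bas_diag (fun i k a =>
      if d i a ≤ 0 then (1 - mon (hb + (xV i a - uF i k - tau)))⁻¹ else 1) _ ?_
    rintro ⟨i, a⟩ ⟨j, b⟩
    rw [alw_eq Q w v d _ (i = j ∧ d j b ≤ 0) Iff.rfl]
    by_cases h : j = i
    · subst h
      simp only [true_and, if_true, polWt, basWt, arrWt]
      rw [show -(uF j a - xV j b + -tau) = hb + (xV j b - uF j a - tau) by rw [hb]; abel]
    · simp [h, Ne.symm h]
  · refine prod_comm.trans (bas_diag (fun i k a =>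
      if 0 ≤ d i a then (1 - mon (-(xV i a - uF i k - tau)))⁻¹ else 1) _ ?_)
    rintro ⟨i, a⟩ ⟨j, b⟩
    rw [alw_eq Q w v d _ (j = i ∧ 0 ≤ d j b) Iff.rfl]
    by_cases h : j = i
    · subst h
      simp only [true_and, if_true, polWt, basWt, arrWt, sub_eq_add_neg]
    · simp [h]

lemma borel_eq (d : Fin Q.n → ℕ → ℤ) :
    mon (∑ i : Fin Q.n, ∑ a ∈ range (v i), θ i • xV i a) * (moving Q w v d * fixB Q w v d) =
      RR Q w v θ (fun i a => xV i a) d * BB Q v fun i a => xV i a := by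
  rw [RR, moving, fixB, root_eq, rel_eq, allowed_eq]
  simp only [pairF_eq, gau, prod_mul_distrib]
  ring

/-- Extension of a permutation of `Fin n` to the natural numbers. -/
noncomputable def ex {n : ℕ} (π : Equiv.Perm (Fin n)) : Equiv.Perm ℕ :=
  π.viaEmbedding Fin.valEmbedding

lemma ex_val {n : ℕ} (π : Equiv.Perm (Fin n)) (a : Fin n) : ex π a = π a :=
  π.viaEmbedding_apply Fin.valEmbedding a

lemma ex_out {n : ℕ} (π : Equiv.Perm (Fin n)) {a : ℕ} (h : a ∉ range n) : ex π a = a :=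
  π.viaEmbedding_apply_of_notMem Fin.valEmbedding a (by
    rintro ⟨b, rfl⟩
    exact h (mem_range.2 b.2))

lemma ex_supp {n : ℕ} (π : Equiv.Perm (Fin n)) : {a | ex π a ≠ a} ⊆ (range n : Set ℕ) :=
  fun a ha => by
    by_contra h
    exact ha (ex_out π h)

lemma ex_inv {n : ℕ} (π : Equiv.Perm (Fin n)) (a : ℕ) : ex π (ex π⁻¹ a) = a := by
  by_cases h : a ∈ range n
  · lift a to Fin n using mem_range.1 h
    rw [ex_val, ex_val]; simp
  · rw [ex_out _ h, ex_out _ h]

lemma prod_ex {n : ℕ} (π : Equiv.Perm (Fin n)) (F : ℕ → K) :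
    ∏ a ∈ range n, F (ex π a) = ∏ a ∈ range n, F a := (ex π).prod_comp _ F (ex_supp π)

lemma prod_ex2 {n m : ℕ} (π : Equiv.Perm (Fin n)) (ρ : Equiv.Perm (Fin m)) (F : ℕ → ℕ → K) :
    ∏ a ∈ range n, ∏ b ∈ range m, F (ex π a) (ex ρ b) = ∏ a ∈ range n, ∏ b ∈ range m, F a b := by
  rw [← prod_ex π fun a => ∏ b ∈ range m, F a b]
  exact prod_congr rfl fun a _ => prod_ex ρ (F (ex π a))

variable (π : ∀ i, Equiv.Perm (Fin (v i)))

lemma RR_perm (x : Fin Q.n → ℕ → G) (d : Fin Q.n → ℕ → ℤ) :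
    RR Q w v θ (fun i a => x i (ex (π i) a)) (fun i a => d i (ex (π i) a)) = RR Q w v θ x d := by
  refine congrArg₂ (· * ·) (congrArg mon ?_) (congrArg₂ (· * ·) (congrArg₂ (· * ·) ?_ ?_) ?_)
  · exact sum_congr rfl fun i _ => (ex (π i)).sum_comp _ (fun a => θ i • x i a) (ex_supp _)
  · exact prod_congr rfl fun e _ => prod_ex2 (π (Q.tl e)) (π (Q.hd e)) fun a b =>
      pairF (tE e - tau + x (Q.hd e) b - x (Q.tl e) a) (d (Q.hd e) b - d (Q.tl e) a)
  · exact prod_congr rfl fun i _ => prod_congr rfl fun k _ => prod_ex (π i) fun a =>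
      pairF (x i a - uF i k - tau) (d i a)
  · exact prod_congr rfl fun i _ => prod_ex2 (π i) (π i) fun a b =>
      gau (x i a - x i b) (d i a - d i b)

/-- The positions of the Chern roots among the coordinates. -/
def pos : Bas Q v ↪ ℕ where
  toFun a := 3 * Nat.pair a.1 a.2 + 4
  inj' := by
    rintro ⟨i, a⟩ ⟨j, b⟩ h
    have h' : Nat.pair i a = Nat.pair j b := by simpa using h
    obtain ⟨h1, h2⟩ := Nat.pair_eq_pair.1 h'
    obtain rfl := Fin.ext h1
    obtain rfl := Fin.ext h2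
    rfl

/-- The permutation of the coordinates. -/
noncomputable def cp : Equiv.Perm ℕ := (Equiv.Perm.sigmaCongrRight π).viaEmbedding (pos Q v)

/-- The automorphism of the exponents. -/
noncomputable def sg : G ≃+ G := (Finsupp.domCongr (cp Q v π) : (ℕ →₀ ℤ) ≃+ (ℕ →₀ ℤ))

lemma cp_out {r : ℕ} (h : ∀ k, r ≠ 3 * k + 4) : cp Q v π r = r :=
  Equiv.Perm.viaEmbedding_apply_of_notMem _ _ _ (by rintro ⟨a, rfl⟩; exact h _ rfl)

lemma sg_gen (r : ℕ) : sg Q v π (gen r) = gen (cp Q v π r) :=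
  Finsupp.equivMapDomain_single (cp Q v π) r (1 : ℤ)

lemma sg_co (r : ℕ) (g : G) : co (cp Q v π r) (sg Q v π g) = co r g := by
  have : ofLex (sg Q v π g) (cp Q v π r) = ofLex g ((cp Q v π).symm (cp Q v π r)) := rfl
  rw [Equiv.symm_apply_apply] at this
  exact this

lemma sg_adm : Adm (sg Q v π) where
  c0 g := by
    have := sg_co Q v π 0 g
    rwa [cp_out Q v π (by omega)] at this
  c1 g := by
    have := sg_co Q v π 1 g
    rwa [cp_out Q v π (by omega)] at this
  q := by rw [qq, sg_gen, cp_out Q v π (by omega)]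
  t := by rw [tau, sg_gen, cp_out Q v π (by omega)]

lemma sg_tE (e : ℕ) : sg Q v π (tE e) = tE e := by rw [tE, sg_gen, cp_out Q v π (by omega)]

lemma sg_uF (i k : ℕ) : sg Q v π (uF i k) = uF i k := by rw [uF, sg_gen, cp_out Q v π (by omega)]

lemma sg_xV (i : Fin Q.n) {a : ℕ} (h : a ∈ range (v i)) :
    sg Q v π (xV i a) = xV i (ex (π i) a) := by
  lift a to Fin (v i) using mem_range.1 h
  rw [xV, sg_gen, ex_val]
  exact congrArg gen (Equiv.Perm.viaEmbedding_apply _ (pos Q v) ⟨i, a⟩)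

lemma sg_fix (g : G) (hg : ∀ i a, ofLex g (3 * Nat.pair i a + 4) = 0) : sg Q v π g = g := by
  refine ofLex.injective (Finsupp.ext fun r => ?_)
  obtain ⟨r, rfl⟩ := (cp Q v π).surjective r
  refine (sg_co Q v π r g).trans ?_
  by_cases h : r ∈ Set.range (pos Q v)
  · obtain ⟨a, rfl⟩ := h
    rw [cp, Equiv.Perm.viaEmbedding_apply]
    exact (hg _ _).trans (hg _ _).symm
  · rw [cp, Equiv.Perm.viaEmbedding_apply_of_notMem _ _ _ h]
    rfl

lemma sym_RB (d : Fin Q.n → ℕ → ℤ) :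
    Sym (sg Q v π) (RR Q w v θ (fun i a => xV i a) d * BB Q v fun i a => xV i a)
      (RR Q w v θ (fun i a => xV i (ex (π i) a)) d * BB Q v fun i a => xV i (ex (π i) a)) := by
  have hσ := sg_adm Q v π
  have x0 : ∀ i a, co 0 (xV i a) = 0 := fun i a => by simp [xV, co_gen]
  have x1 : ∀ i a, co 1 (xV i a) = 0 := fun i a => by simp [xV, co_gen]
  have t1 : ∀ e, co 1 (tE e) = 0 := fun e => by simp [tE, co_gen]
  have u1 : ∀ i a, co 1 (uF i a) = 0 := fun i a => by simp [uF, co_gen]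
  refine Sym.mul (Sym.mul ?_ (Sym.mul (Sym.mul ?_ ?_) ?_)) ?_
  · have : ∑ i : Fin Q.n, ∑ a ∈ range (v i), θ i • xV i (ex (π i) a) =
        sg Q v π (∑ i : Fin Q.n, ∑ a ∈ range (v i), θ i • xV i a) := by
      simp only [map_sum, map_zsmul]
      exact sum_congr rfl fun i _ => sum_congr rfl fun a ha => by rw [sg_xV Q v π i ha]
    rw [this]
    exact Sym.mon _
  · refine Sym.prod _ fun e _ => Sym.prod _ fun a ha => Sym.prod _ fun b hb =>
      Sym.pairF hσ (by simp [x1, t1, c1t]) ?_ _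
    simp only [map_sub, map_add, sg_tE, hσ.t, sg_xV Q v π _ ha, sg_xV Q v π _ hb]
  · refine Sym.prod _ fun i _ => Sym.prod _ fun k _ => Sym.prod _ fun a ha =>
      Sym.pairF hσ (by simp [x1, u1, c1t]) ?_ _
    simp only [map_sub, sg_uF, hσ.t, sg_xV Q v π _ ha]
  · refine Sym.prod _ fun i _ => Sym.prod _ fun a ha => Sym.prod _ fun b hb' => ?_
    beta_reduce
    rw [gau, gau, ← sg_xV Q v π _ ha, ← sg_xV Q v π _ hb', ← map_sub]
    refine (Sym.pairM_inv hσ (by simp [x0]) _).mul (Sym.ite ?_)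
    have := Sym.one_sub (σ := sg Q v π) (hb + (xV i a - xV i b))
    rwa [map_add, hσ.h] at this
  · refine Sym.prod _ fun i _ => Sym.prod _ fun a ha => Sym.prod _ fun b hb' => Sym.ite ?_
    beta_reduce
    rw [← sg_xV Q v π _ ha, ← sg_xV Q v π _ hb', ← map_sub]
    exact Sym.one_sub _

lemma prod_range2 (n : ℕ) (F : ℕ → ℕ → K) :
    ∏ a ∈ range n, ∏ b ∈ range n, F a b = ∏ a : Fin n, ∏ b : Fin n, F a b := by
  rw [← Fin.prod_univ_eq_prod_range fun a => ∏ b ∈ range n, F a b]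
  exact prod_congr rfl fun a _ => (Fin.prod_univ_eq_prod_range (F a) n).symm

open Classical in
lemma WW_eq (d : Fin Q.n → ℕ → ℤ) : WW Q v d = ∑ π : ∀ i, Equiv.Perm (Fin (v i)),
    if ∀ i, ∀ b ∈ range (v i), ∀ a ∈ range b, d i (ex (π i) a) ≤ d i (ex (π i) b) then
      BB Q v fun i a => xV i (ex (π i) a) else 0 := by
  have key : ∀ i : Fin Q.n, (∏ a ∈ range (v i), ∏ b ∈ range (v i),
      if a ≠ b ∧ d i b ≤ d i a then 1 - mon (xV i b - xV i a) else 1) =
      ∑ ρ : Equiv.Perm (Fin (v i)),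
        if ∀ b ∈ range (v i), ∀ a ∈ range b, d i (ex ρ a) ≤ d i (ex ρ b) then
          ∏ a ∈ range (v i), ∏ b ∈ range (v i),
            (if b < a then 1 - mon (xV i (ex ρ b) - xV i (ex ρ a)) else 1) else 0 := by
    intro i
    have hinj : Function.Injective fun a : Fin (v i) => mon (xV i a) := by
      intro a b h
      have h1 := congrArg (co (3 * Nat.pair i a + 4)) (mon_inj h)
      simp only [xV, co_gen, if_true] at h1
      by_contra hne
      rw [if_neg] at h1
      · exact one_ne_zero h1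
      · intro h2
        have h3 : Nat.pair i b = Nat.pair i a := by omega
        exact hne (Fin.ext (Nat.pair_eq_pair.1 h3).2.symm)
    have := weyl (fun a : Fin (v i) => mon (xV i a)) (fun a => mon_ne _) hinj fun a => d i a
    simp only [prod_range2, mon_sub, ex_val, Fin.val_fin_lt, ne_eq, Fin.val_inj]
    rw [← this]
    refine sum_congr rfl fun ρ _ => if_congr ⟨fun h b hb a ha => ?_, fun h a b hab => ?_⟩ rfl rfl
    · have hb' := mem_range.1 hb
      have ha' := mem_range.1 ha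
      have := h ⟨b, hb'⟩ ⟨a, ha'.trans hb'⟩ ha'
      rwa [← ex_val, ← ex_val] at this
    · have := h a (mem_range.2 a.2) b (mem_range.2 hab)
      rwa [ex_val, ex_val] at this
  simp only [WW, key]
  rw [Fintype.prod_sum]
  refine sum_congr rfl fun π _ => ?_
  rw [BB, prod_ite_zero]
  simp only [mem_univ, forall_const]

end GSym

open GSym in
theorem sym : SymStmt := by
  classical
  intro Q w v θ D
  set A := Fintype.piFinset (fun i => piAntidiag (range (v i)) (D i)) with hA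
  set h : (Fin Q.n → ℕ → ℕ) → K := fun d =>
    if ∀ i, ∀ b ∈ range (v i), ∀ a ∈ range b, d i a ≤ d i b then
      ct (RR Q w v θ (fun i a => xV i a) (fun i a => d i a) * BB Q v fun i a => xV i a) else 0
    with hh
  have e1 : ∀ d : Fin Q.n → ℕ → ℕ,
      ct (mon (∑ i : Fin Q.n, ∑ a ∈ range (v i), θ i • xV i a) *
        integrand Q w v (fun i a => d i a)) =
      ∑ π : ∀ i, Equiv.Perm (Fin (v i)), h fun i a => d i (ex (π i) a) := by
    intro d
    rw [integrand_eq, WW_eq, mul_sum, ct_sum]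
    refine sum_congr rfl fun π _ => ?_
    simp only [hh, Nat.cast_le]
    split_ifs
    · rw [(sym_RB Q w v θ π _).ct_eq (sg_fix Q v π),
        RR_perm Q w v θ π (fun i a => xV i a) fun i a => d i a]
    · rw [mul_zero, ct_zero]
  have mem : ∀ (π : ∀ i, Equiv.Perm (Fin (v i))), ∀ d ∈ A, (fun i a => d i (ex (π i) a)) ∈ A := by
    intro π d hd
    rw [hA, Fintype.mem_piFinset] at hd ⊢
    intro i
    obtain ⟨h1, h2⟩ := mem_piAntidiag.1 (hd i)
    refine mem_piAntidiag.2 ⟨((ex (π i)).sum_comp _ (d i) (ex_supp _)).trans h1, fun a ha => ?_⟩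
    by_contra hn
    rw [ex_out _ hn] at ha
    exact hn (h2 a ha)
  have e2 : ∀ π : ∀ i, Equiv.Perm (Fin (v i)),
      ∑ d ∈ A, h (fun i a => d i (ex (π i) a)) = ∑ d ∈ A, h d := by
    intro π
    refine sum_nbij' (fun d i a => d i (ex (π i) a)) (fun d i a => d i (ex (π⁻¹ i) a))
      (mem π) (mem π⁻¹) (fun d _ => ?_) (fun d _ => ?_) fun _ _ => rfl
    · funext i a
      exact congrArg (d i) (ex_inv (π i) a)
    · funext i a
      exact congrArg (d i) (by simpa using ex_inv (π i)⁻¹ a)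
  rw [mul_sum, ct_sum, sum_congr rfl fun d _ => e1 d, sum_comm, sum_congr rfl fun π _ => e2 π,
    sum_const, nsmul_eq_mul, types, sum_filter]
  congr 1
  · simp [Fintype.card_pi, Fintype.card_perm]
  · refine sum_congr rfl fun d _ => ?_
    simp only [hh, borel_eq]

end Pool.Agent.MP_8be872_ag.H38
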