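import Pool.Agent.MP_8be872_ag.H38.LocDual

/-! The global integrand and the boundedness of the degrees. -/

namespace Pool.Agent.MP_8be872_ag.H38

open Finset Filter

set_option maxHeartbeats 400000

/-- index of a Chern root -/
def ix (i a : ℕ) : ℕ := 3 * Nat.pair i a + 4

lemma co_ix_xV (i a j b : ℕ) : co (ix i a) (xV j b) = if j = i ∧ b = a then 1 else 0 := by
  simp [xV, ix, co_gen, Nat.pair_eq_pair]
lemma co_ix_qq (i a : ℕ) : co (ix i a) qq = 0 := by simp [qq, ix, co_gen]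
lemma co_ix_tau (i a : ℕ) : co (ix i a) tau = 0 := by simp [tau, ix, co_gen]
lemma co_ix_hb (i a : ℕ) : co (ix i a) hb = 0 := by simp [hb, co_ix_tau]
lemma co_ix_tE (i a e : ℕ) : co (ix i a) (tE e) = 0 := by
  rw [tE, ix, co_gen, if_neg (by omega)]
lemma co_ix_uF (i a j k : ℕ) : co (ix i a) (uF j k) = 0 := by
  rw [uF, ix, co_gen, if_neg (by omega)]
lemma co0_xV (i a : ℕ) : co 0 (xV i a) = 0 := by simp [xV, co_gen]
lemma co0_tE (e : ℕ) : co 0 (tE e) = 0 := by simp [tE, co_gen]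
lemma co0_uF (i a : ℕ) : co 0 (uF i a) = 0 := by simp [uF, co_gen]
lemma co1_xV (i a : ℕ) : co 1 (xV i a) = 0 := by simp [xV, co_gen]
lemma co1_tE (e : ℕ) : co 1 (tE e) = 0 := by simp [tE, co_gen]
lemma co1_uF (i a : ℕ) : co 1 (uF i a) = 0 := by simp [uF, co_gen]

/-- exponents free of Chern roots -/
def Sall : AddSubgroup G where
  carrier := {g | ∀ i a, co (ix i a) g = 0}
  zero_mem' := by simp
  add_mem' := fun {x y} hx hy i a => by simp [hx i a, hy i a]
  neg_mem' := fun {x} hx i a => by simp [hx i a]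

lemma ct_eq (f : K) : ct f = res Sall f := by
  ext g
  rfl

variable (Q : Quiv) (w v : Fin Q.n → ℕ)

/-- normalized integrand -/
noncomputable def FI (d : Fin Q.n → ℕ → ℤ) : K :=
  (∏ e, ∏ a ∈ range (v (Q.tl e)), ∏ b ∈ range (v (Q.hd e)),
      Th (tE e - tau + xV (Q.hd e) b - xV (Q.tl e) a) (d (Q.hd e) b - d (Q.tl e) a)) *
    (∏ i, ∏ k ∈ range (w i), ∏ a ∈ range (v i), Th (xV i a - uF i k - tau) (d i a)) *
    ∏ i, ∏ a ∈ range (v i), ∏ b ∈ range (v i), (Th (xV i a - xV i b) (d i a - d i b))⁻¹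

/-- total degree -/
def deg (d : Fin Q.n → ℕ → ℤ) (j : Fin Q.n) : ℤ := ∑ a ∈ range (v j), d j a

/-- the determinant of a tautological bundle -/
noncomputable def detV (j : Fin Q.n) : G := ∑ a ∈ range (v j), xV j a

noncomputable def JJ (m : Fin Q.n → ℤ) (d : Fin Q.n → ℕ → ℤ) : K :=
  res Sall (mon (∑ j, m j • detV Q v j) * FI Q w v d)

lemma zpow_sum' {α : Type} {c : K} (hc : c ≠ 0) (s : Finset α) (f : α → ℤ) :
    ∏ a ∈ s, c ^ f a = c ^ ∑ a ∈ s, f a := by
  classical
  induction s using Finset.induction_on with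
  | empty => simp
  | insert a s ha ih => rw [prod_insert ha, sum_insert ha, zpow_add₀ hc, ih]

lemma Th_zero_zero : (Th 0 0)⁻¹ = 1 - mon hb := by
  simp [Th, Ar, sg, ar_zero, mon_zero, ar_of_ne (neg_ne_zero.mpr hb_ne)]

lemma integrand_eq (d : Fin Q.n → ℕ → ℤ) :
    integrand Q w v d * ∏ i, (-mon (-tau)) ^ (aExp Q w v i * deg Q v d i) = FI Q w v d := by
  have hc : -mon (-tau) ≠ 0 := neg_ne_zero.mpr (mon_ne _)
  have h1 : ∀ (u : G) (m : ℤ), co 1 u = -1 → Th u m = pairF u m * (-mon (-tau)) ^ m := by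
    intro u m hu
    refine (pairF_eq (fun l H => ?_) (fun l H => ?_) m).symm
    · simpa [hu, co1_qq] using congrArg (co 1) H
    · simpa [hu, co1_qq, co1_hb] using congrArg (co 1) H
  have h2 : ∀ (i : Fin Q.n) a b, (Th (xV i a - xV i b) (d i a - d i b))⁻¹ =
      (if a = b then 1 - mon hb else (pairF (xV i a - xV i b) (d i a - d i b))⁻¹) *
        (-mon (-tau)) ^ (d i b - d i a) := by
    intro i a b
    split_ifs with h
    · simp [h, Th_zero_zero]
    · rw [← pairF_eq (fun l H => ?_) (fun l H => ?_), mul_inv, ← zpow_neg, neg_sub]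
      · simpa [co_ix_xV, co_ix_qq, Ne.symm h] using congrArg (co (ix i a)) H
      · simpa [co1_xV, co1_qq, co1_hb] using congrArg (co 1) H
  have h3 : ∀ (e : Fin Q.ne) a b, co 1 (tE e - tau + xV (Q.hd e) b - xV (Q.tl e) a) = -1 := by
    intro e a b; simp [co1_tE, co1_tau, co1_xV]
  have h4 : ∀ (i : Fin Q.n) a k, co 1 (xV i a - uF i k - tau) = -1 := by
    intro i a k; simp [co1_uF, co1_tau, co1_xV]
  have key : ∑ i, aExp Q w v i * deg Q v d i =
      ∑ e, ∑ a ∈ range (v (Q.tl e)), ∑ b ∈ range (v (Q.hd e)), (d (Q.hd e) b - d (Q.tl e) a) +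
        ∑ i, ∑ _k ∈ range (w i), ∑ a ∈ range (v i), d i a +
        ∑ i, ∑ a ∈ range (v i), ∑ b ∈ range (v i), (d i b - d i a) := by
    have a1 : ∑ i, (∑ e with Q.hd e = i, (v (Q.tl e) : ℤ)) * deg Q v d i =
        ∑ e, (v (Q.tl e) : ℤ) * deg Q v d (Q.hd e) := by
      rw [← sum_fiberwise (s := univ) (g := Q.hd)]
      refine sum_congr rfl fun i _ => ?_
      rw [sum_mul]
      exact sum_congr rfl fun e he => by rw [(mem_filter.mp he).2]
    have a2 : ∑ i, (∑ e with Q.tl e = i, (v (Q.hd e) : ℤ)) * deg Q v d i =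
        ∑ e, (v (Q.hd e) : ℤ) * deg Q v d (Q.tl e) := by
      rw [← sum_fiberwise (s := univ) (g := Q.tl)]
      refine sum_congr rfl fun i _ => ?_
      rw [sum_mul]
      exact sum_congr rfl fun e he => by rw [(mem_filter.mp he).2]
    simp only [aExp, add_mul, sub_mul, sum_add_distrib, sum_sub_distrib, a1, a2]
    simp only [sum_const, card_range, nsmul_eq_mul, ← mul_sum, deg, sub_self, add_zero]
  simp only [FI, integrand, h1 _ _ (h3 _ _ _), h1 _ _ (h4 _ _ _), h2, prod_mul_distrib,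
    zpow_sum' hc, key, zpow_add₀ hc]
  ring

variable {ι : Type} {𝓕 : Filter ι}

lemma Reg.ar_inv (u : G) : Reg (ar u)⁻¹ := by
  unfold ar
  split_ifs
  · simpa [mon_zero] using Reg.mon 0
  · simpa using Reg.one_sub (-u)

lemma Reg.one : Reg 1 := by simpa [mon_zero] using Reg.mon 0

lemma Reg.Th_inv {u : G} (hu : co 0 u = 0) (m : ℤ) : Reg (Th u m)⁻¹ := by
  rw [Th_eq, mul_inv, mul_inv]
  refine (Reg.ThQ hu m).2.mul (Reg.mul ?_ ?_) <;> split_ifs
  exacts [Reg.ar_inv _, by simpa using Reg.one, Reg.ar_inv _, by simpa using Reg.one]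

lemma arrow_mem {u : G} (h0 : co 0 u = 0) (h1 : co 1 u = -1) {l : G →+ ℤ} (hl : l hb = 0) {m : ℤ}
    (h2 : 0 ≤ m → l u ≤ 0) (h3 : m ≤ 0 → 0 ≤ l u) :
    ((if 0 ≤ m then ar u else 1) * if m ≤ 0 then ar (-hb - u) else 1) ∈
      CS (Ge0 l) ⊓ CS (Ge0 (co 0)) := by
  have a1 : 0 < -u := pos_of_co1 (by simp [h0]) (by simp [h1])
  have a2 : 0 < -(-hb - u) := pos_of_co1 (by simp [h0, co0_hb]) (by simp [h1, co1_hb])
  refine mul_mem ?_ ?_ <;> split_ifs with h
  · rw [ar_of_ne (neg_ne_zero.mp a1.ne')]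
    exact ⟨geo_mem a1 (show 0 ≤ l (-u) by simpa using h2 h), geo_FF (by simp [h0])⟩
  · exact one_mem _
  · rw [ar_of_ne (neg_ne_zero.mp a2.ne')]
    exact ⟨geo_mem a2 (show 0 ≤ l (-(-hb - u)) by simpa [hl] using h3 h),
      geo_FF (by simp [h0, co0_hb])⟩
  · exact one_mem _

lemma JJ_null {m : ι → Fin Q.n → ℤ} (d : Fin Q.n → ℕ → ℤ) {f : ℤ → ℤ} (hf : Monotone f)
    (hf0 : f 0 = 0)
    (h : Tendsto (fun k => m k ⬝ᵥ deg Q v (fun j a => f (d j a))) 𝓕 atBot) :
    (fun k => JJ Q w v (m k) d) ∈ Null 𝓕 := by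
  let l : G →+ ℤ := -∑ j, ∑ a ∈ range (v j), f (d j a) • co (ix j a)
  have hl : ∀ g, l g = -∑ j, ∑ a ∈ range (v j), f (d j a) * co (ix j a) g := fun g => by
    simp [l, AddMonoidHom.finset_sum_apply]
  have hx : ∀ (i : Fin Q.n), ∀ b ∈ range (v i), l (xV i b) = -f (d i b) := by
    intro i b hb
    rw [hl, sum_eq_single i, sum_eq_single b]
    · simp [co_ix_xV]
    · intro a _ hab
      simp [co_ix_xV, hab.symm]
    · exact fun H => absurd hb H
    · intro j _ hj
      have : ¬((i : ℕ) = j) := fun H => hj (Fin.ext H.symm)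
      simp [co_ix_xV, this]
    · simp
  have ht : l tau = 0 := by simp [hl, co_ix_tau]
  have hh : l hb = 0 := by simp [hl, co_ix_hb]
  have he : ∀ e, l (tE e) = 0 := fun e => by simp [hl, co_ix_tE]
  have hu : ∀ i k, l (uF i k) = 0 := fun i k => by simp [hl, co_ix_uF]
  have e : FI Q w v d =
      ((∏ e, ∏ a ∈ range (v (Q.tl e)), ∏ b ∈ range (v (Q.hd e)),
        ThQ (tE e - tau + xV (Q.hd e) b - xV (Q.tl e) a) (d (Q.hd e) b - d (Q.tl e) a)) *
      (∏ i, ∏ k ∈ range (w i), ∏ a ∈ range (v i), ThQ (xV i a - uF i k - tau) (d i a)) *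
      ∏ i, ∏ a ∈ range (v i), ∏ b ∈ range (v i), (Th (xV i a - xV i b) (d i a - d i b))⁻¹) *
      ((∏ e, ∏ a ∈ range (v (Q.tl e)), ∏ b ∈ range (v (Q.hd e)),
        ((if 0 ≤ d (Q.hd e) b - d (Q.tl e) a then
          ar (tE e - tau + xV (Q.hd e) b - xV (Q.tl e) a) else 1) *
        if d (Q.hd e) b - d (Q.tl e) a ≤ 0 then
          ar (-hb - (tE e - tau + xV (Q.hd e) b - xV (Q.tl e) a)) else 1)) *
      ∏ i, ∏ k ∈ range (w i), ∏ a ∈ range (v i),
        ((if 0 ≤ d i a then ar (xV i a - uF i k - tau) else 1) *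
        if d i a ≤ 0 then ar (-hb - (xV i a - uF i k - tau)) else 1)) := by
    rw [FI, prod_congr rfl fun e _ => prod_congr rfl fun a _ => prod_congr rfl fun b _ =>
      Th_eq _ _, prod_congr (s₁ := (univ : Finset (Fin Q.n))) rfl fun e _ =>
      prod_congr (s₁ := range (w e)) rfl fun a _ => prod_congr rfl fun b _ => Th_eq _ _]
    simp only [prod_mul_distrib]
    ring
  have hW := (CS (Ge0 l) ⊓ CS (Ge0 (co 0))).mul_mem
    (prod_mem (t := univ) fun (e : Fin Q.ne) _ => prod_mem (t := range (v (Q.tl e))) fun a ha =>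
      prod_mem (t := range (v (Q.hd e))) fun b hb =>
        arrow_mem (u := tE e - tau + xV (Q.hd e) b - xV (Q.tl e) a)
          (m := d (Q.hd e) b - d (Q.tl e) a) (by simp [co0_tE, co0_tau, co0_xV])
          (by simp [co1_tE, co1_tau, co1_xV]) hh
          (fun H => by simpa [he, ht, hx _ _ ha, hx _ _ hb] using hf (sub_nonneg.mp H))
          (fun H => by simpa [he, ht, hx _ _ ha, hx _ _ hb] using hf (sub_nonpos.mp H)))
    (prod_mem (t := univ) fun (i : Fin Q.n) _ => prod_mem (t := range (w i)) fun k _ =>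
      prod_mem (t := range (v i)) fun a ha =>
        arrow_mem (u := xV i a - uF i k - tau) (m := d i a) (by simp [co0_uF, co0_tau, co0_xV])
          (by simp [co1_uF, co1_tau, co1_xV]) hh
          (fun H => by simpa [hu, ht, hx _ _ ha, hf0] using hf H)
          (fun H => by simpa [hu, ht, hx _ _ ha, hf0] using hf H))
  simp only [JJ]
  rw [e]
  refine vanish (l := l) ?_ hW.1 hW.2 (fun k => ?_) ?_ fun g hg => by simp [hl, hg _ _]
  · refine (Reg.mul (Reg.prod _ fun e _ => Reg.prod _ fun a _ => Reg.prod _ fun b _ => ?_)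
      (Reg.prod _ fun e _ => Reg.prod _ fun a _ => Reg.prod _ fun b _ => ?_)).mul
      (Reg.prod _ fun e _ => Reg.prod _ fun a _ => Reg.prod _ fun b _ => ?_)
    · exact (Reg.ThQ (by simp [co0_tE, co0_tau, co0_xV]) _).1
    · exact (Reg.ThQ (by simp [co0_uF, co0_tau, co0_xV]) _).1
    · exact Reg.Th_inv (by simp [co0_xV]) _
  · simp [map_sum, detV, co0_xV]
  · refine (tendsto_neg_atBot_atTop.comp h).congr fun k => ?_
    simp only [Function.comp, dotProduct, deg, map_sum, map_zsmul, detV, smul_eq_mul,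
      ← sum_neg_distrib, ← mul_neg]
    exact sum_congr rfl fun j _ => by rw [sum_congr rfl (hx j)]

lemma level_sum (x : ℤ) {R : ℕ} (h : |x| ≤ R) :
    x = ∑ c ∈ range R, ((if (c : ℤ) < x then 1 else 0) + if x < -c then -1 else 0) := by
  induction R generalizing x with
  | zero => simpa using h
  | succ R ih =>
    rw [abs_le] at h
    by_cases h1 : |x| ≤ R
    · rw [sum_range_succ, ← ih x h1]
      rw [abs_le] at h1
      rw [if_neg (by omega), if_neg (by omega)]
      simp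
    · rcases le_or_gt 0 x with h2 | h2
      · rw [abs_of_nonneg h2] at h1
        rw [sum_congr rfl (g := fun _ => 1) fun c hc => by
          have := mem_range.mp hc
          rw [if_pos (by omega), if_neg (by omega), add_zero]]
        simp; omega
      · rw [abs_of_neg h2] at h1
        rw [sum_congr rfl (g := fun _ => -1) fun c hc => by
          have := mem_range.mp hc
          rw [if_neg (by omega), if_pos (by omega), zero_add]]
        simp; omega

/-- generic sequences of characters -/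
def Generic (𝓕 : Filter ι) (m : ι → Fin Q.n → ℤ) : Prop :=
  ∀ β : Fin Q.n → ℤ, β ≠ 0 → Tendsto (fun k => m k ⬝ᵥ β) 𝓕 atTop ∨
    Tendsto (fun k => m k ⬝ᵥ β) 𝓕 atBot

lemma exists_fun [𝓕.NeBot] (m : ι → Fin Q.n → ℤ) (S : Finset (Fin Q.n → ℤ)) :
    ∃ l : Fin Q.n → ℤ, ∀ β ∈ S, Tendsto (fun k => m k ⬝ᵥ β) 𝓕 atTop → 1 ≤ l ⬝ᵥ β := by
  have : ∀ᶠ k in 𝓕, ∀ β ∈ S, Tendsto (fun k => m k ⬝ᵥ β) 𝓕 atTop → 1 ≤ m k ⬝ᵥ β := by
    refine (eventually_all_finset S).mpr fun β _ => ?_
    by_cases h : Tendsto (fun k => m k ⬝ᵥ β) 𝓕 atTop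
    · exact (h.eventually_ge_atTop 1).mono fun k hk _ => hk
    · exact Eventually.of_forall fun k H => absurd H h
  obtain ⟨k, hk⟩ := this.exists
  exact ⟨m k, hk⟩

lemma good_bound {m : ι → Fin Q.n → ℤ} (hm : Generic Q 𝓕 m) {l : Fin Q.n → ℤ}
    (hl : ∀ β ∈ Fintype.piFinset (fun j => Icc (-(v j : ℤ)) (v j)),
      Tendsto (fun k => m k ⬝ᵥ β) 𝓕 atTop → 1 ≤ l ⬝ᵥ β) (d : Fin Q.n → ℕ → ℤ)
    (hd : (fun k => JJ Q w v (m k) d) ∉ Null 𝓕) (j : Fin Q.n) {a : ℕ} (ha : a < v j) :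
    |d j a| ≤ l ⬝ᵥ deg Q v d := by
  have key : ∀ f : ℤ → ℤ, Monotone f → f 0 = 0 → (∀ x, |f x| ≤ 1) →
      0 ≤ l ⬝ᵥ deg Q v (fun j a => f (d j a)) ∧
      (deg Q v (fun j a => f (d j a)) j ≠ 0 → 1 ≤ l ⬝ᵥ deg Q v (fun j a => f (d j a))) := by
    intro f hf hf0 hf1
    have h1 : deg Q v (fun j a => f (d j a)) ≠ 0 → 1 ≤ l ⬝ᵥ deg Q v (fun j a => f (d j a)) := by
      intro hne
      refine hl _ (Fintype.mem_piFinset.mpr fun i => mem_Icc.mpr (abs_le.mp ?_))
        ((hm _ hne).resolve_right fun H => hd (JJ_null Q w v d hf hf0 H))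
      refine (abs_sum_le_sum_abs _ _).trans ((sum_le_sum fun a _ => hf1 _).trans (by simp))
    refine ⟨?_, fun H => h1 fun H' => H (congrFun H' j)⟩
    by_cases hne : deg Q v (fun j a => f (d j a)) = 0
    · simp [hne]
    · exact zero_le_one.trans (h1 hne)
  obtain ⟨R, hR⟩ : ∃ R : ℕ, ∀ i, ∀ b ∈ range (v i), |d i b| ≤ R := by
    refine ⟨∑ i, ∑ b ∈ range (v i), (d i b).natAbs, fun i b hb => ?_⟩
    rw [← Int.natCast_natAbs]
    exact_mod_cast (single_le_sum (f := fun b => (d i b).natAbs) (fun _ _ => Nat.zero_le _)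
      hb).trans (single_le_sum (f := fun i => ∑ b ∈ range (v i), (d i b).natAbs)
        (fun _ _ => Nat.zero_le _) (mem_univ i))
  let f1 : ℕ → ℤ → ℤ := fun c x => if (c : ℤ) < x then 1 else 0
  let f2 : ℕ → ℤ → ℤ := fun c x => if x < -c then -1 else 0
  have k1 := fun c : ℕ => key (f1 c) (fun x y h => by simp only [f1]; split_ifs <;> omega)
    (by simp [f1]) (fun x => by simp only [f1]; split_ifs <;> simp)
  have k2 := fun c : ℕ => key (f2 c) (fun x y h => by simp only [f2]; split_ifs <;> omega)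
    (by simp [f2]) (fun x => by simp only [f2]; split_ifs <;> simp)
  have e : deg Q v d = ∑ c ∈ range R,
      (deg Q v (fun j a => f1 c (d j a)) + deg Q v (fun j a => f2 c (d j a))) := by
    ext i
    simp only [deg, Finset.sum_apply, Pi.add_apply, ← sum_add_distrib]
    rw [sum_comm]
    exact sum_congr rfl fun b hb => level_sum _ (hR i b hb)
  have hx := level_sum |d j a| (R := R) (by simpa using hR j a (mem_range.mpr ha))
  rw [e, dotProduct_sum, hx]
  refine sum_le_sum fun c _ => ?_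
  rw [dotProduct_add, if_neg (show ¬|d j a| < -(c : ℤ) by have := abs_nonneg (d j a); omega)]
  split_ifs with hc
  · rcases lt_abs.mp hc with h | h
    · have : deg Q v (fun j a => f1 c (d j a)) j ≠ 0 := by
        refine (lt_of_lt_of_le ?_ (single_le_sum (f := fun a => f1 c (d j a))
          (fun x _ => by simp only [f1]; split_ifs <;> omega) (mem_range.mpr ha))).ne'
        simp [f1, h]
      have := (k1 c).2 this
      have := (k2 c).1
      omega
    · have : deg Q v (fun j a => f2 c (d j a)) j ≠ 0 := by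
        refine (lt_of_le_of_lt (sum_le_sum_of_subset_of_nonpos' (s := {a}) (by simpa using ha)
          (fun x _ _ => by simp only [f2]; split_ifs <;> omega)) ?_).ne
        simp only [f2, sum_singleton]
        rw [if_pos (by omega)]
        omega
      have := (k2 c).2 this
      have := (k1 c).1
      omega
  · have := (k1 c).1
    have := (k2 c).1
    omega

end Pool.Agent.MP_8be872_ag.H38
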