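import Pool.Agent.MP_8be872_ag.H38.Comp

/-! Induction along a reduced word. -/

namespace Pool.Agent.MP_8be872_ag.H38

open Finset Filter

set_option maxHeartbeats 400000

variable {Q : Quiv} (w v : Fin Q.n → ℕ) (i : Fin Q.n) (hQ : ∀ e, Q.hd e ≠ Q.tl e)
variable {ι : Type} {𝓕 : Filter ι}

/-- the product over the roots -/
noncomputable def P0 (u : Fin Q.n → ℤ) : MvPowerSeries (Fin Q.n) K :=
  ∏ᶠ α ∈ negZ Q w u, zs (toF α) (Gs 0 (-pairing Q w u α).toNat)

variable (𝓕) in
def Concl (m : ι → Fin Q.n → ℤ) (c : Fin Q.n → G) : Prop :=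
  (∀ j, c j ∈ Sall ∧ co 0 (c j) = 0) ∧ ∀ D S, Complete w v 𝓕 m D S →
    (fun k => ∑ d ∈ S, JJ Q w v (m k) d - (∏ j, (v j).factorial : ℕ) *
      (ss ^ (-bdot v D) * cZ (P0 w fun j => v j) D) * mon (∑ j, m k j • c j)) ∈ Null 𝓕

lemma concl_zero (h0 : negZ Q w 0 = ∅) (m : ι → Fin Q.n → ℤ) : Concl w 0 𝓕 m 0 := by
  refine ⟨fun j => ⟨zero_mem _, map_zero _⟩, fun D S hS => ?_⟩
  have hJ : ∀ k d, JJ Q w 0 (m k) d = 1 := fun k d => by
    simp only [JJ, FI, detV, Pi.zero_apply, range_zero, prod_empty, prod_const_one, sum_empty,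
      zsmul_zero, sum_const_zero, mon_zero, mul_one]
    exact res_of_mem (mon_mem Sall.zero_mem)
  have hP : P0 w (fun j => ((0 : Fin Q.n → ℕ) j : ℤ)) = 1 := by
    rw [show (fun j => ((0 : Fin Q.n → ℕ) j : ℤ)) = 0 from rfl, P0, h0, finprod_mem_empty]
  have hd : ∀ d, deg Q 0 d = 0 := fun d => by ext j; simp [deg]
  by_cases hD : D = 0
  · have hc : Complete w 0 𝓕 m D {0} :=
      ⟨fun d hd' => by
        rw [mem_singleton.mp hd']
        exact ⟨fun _ _ _ => rfl, (hd _).trans hD.symm⟩,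
      fun d h1 _ h3 => absurd (mem_singleton.mpr (funext fun j => funext fun a =>
        h1 j a (Nat.zero_le _))) h3⟩
    convert hS.sub w 0 hc using 3 with k
    rw [hP]
    simp only [hJ, cZ_one, hD, bdot, Pi.zero_apply, zsmul_zero, sum_const_zero, mon_zero]
    simp
  · have : S = ∅ := eq_empty_of_forall_notMem fun d hd' => hD ((hS.1 d hd').2.symm.trans (hd d))
    refine Null_of_eventually (Eventually.of_forall fun k => ?_)
    rw [hP]
    simp [this, cZ_one, hD]

instance : CharZero K := algebraRat.charZero K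

lemma form_add (α β γ : Fin Q.n → ℤ) : form Q (α + β) γ = form Q α γ + form Q β γ := by
  simp only [form, Pi.add_apply, add_mul, sum_add_distrib]
  ring

lemma form_smul (c : ℤ) (β γ : Fin Q.n → ℤ) : form Q (c • β) γ = c * form Q β γ := by
  simp only [form, Pi.smul_apply, smul_eq_mul, mul_sub, mul_sum, mul_add, mul_assoc]
  congr 1
  exact sum_congr rfl fun _ _ => by ring

lemma single_eq (c : ℤ) : (Pi.single i c : Fin Q.n → ℤ) = c • Pi.single i 1 := by
  rw [← Pi.single_smul, smul_eq_mul, mul_one]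

lemma refl_eq (β : Fin Q.n → ℤ) :
    refl Q i β = β + (-form Q β (Pi.single i 1)) • Pi.single i 1 := by
  rw [refl, single_eq, neg_smul, sub_eq_add_neg]

/-- the reflection as an additive map -/
def reflH : (Fin Q.n → ℤ) →+ (Fin Q.n → ℤ) :=
  AddMonoidHom.mk' (refl Q i) fun α β => by simp only [refl_eq, form_add]; module

include hQ

lemma refl_refl (β : Fin Q.n → ℤ) : refl Q i (refl Q i β) = β := by
  rw [refl_eq i (refl Q i β), refl_eq, form_add, form_smul, form_self i hQ]
  module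

lemma refl_single : refl Q i (Pi.single i 1) = -Pi.single i 1 := by
  rw [refl_eq, form_self i hQ]
  module

lemma pairing_step (u β : Fin Q.n → ℤ) :
    pairing Q w (u + Pi.single i (pairing Q w u (Pi.single i 1))) (refl Q i β) =
      pairing Q w u β := by
  have e : ∀ c : ℤ, ∑ j, (β + c • Pi.single i 1 : Fin Q.n → ℤ) j * w j =
      ∑ j, β j * w j + c * w i := fun c => by
    simp [add_mul, sum_add_distrib, Pi.single_apply]
  have e2 : pairing Q w u (Pi.single i 1) = w i - form Q (Pi.single i 1) u := by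
    simp [pairing, Pi.single_apply]
  have e3 : ∀ (γ : Fin Q.n → ℤ) (c : ℤ), form Q γ (u + c • Pi.single i 1) =
      form Q γ u + c * form Q γ (Pi.single i 1) := fun γ c => by
    rw [form_comm γ, form_add, form_smul, form_comm u, form_comm _ γ]
  rw [single_eq i (pairing Q w u _), e2, pairing, pairing, refl_eq, e, form_add, form_smul, e3, e3,
    form_self i hQ]
  ring

lemma P0_step {u : Fin Q.n → ℤ} (hfin : (negZ Q w u).Finite)
    (hr : ∀ α, IsRealRoot Q α → α ≠ 0) {p : ℕ} (hp : pairing Q w u (Pi.single i 1) = p)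
    (hp0 : 0 < p)
    (hneg : negZ Q w (u + Pi.single i (pairing Q w u (Pi.single i 1))) =
      insert (Pi.single i 1) (refl Q i '' negZ Q w u)) (D : Fin Q.n → ℤ) {R : ℕ} (hR : D i < R) :
    cZ (P0 w (u + Pi.single i (pairing Q w u (Pi.single i 1)))) D =
      ∑ j ∈ range R, PowerSeries.coeff j (Gs 0 p) *
        cZ (P0 w u) (refl Q i D + Pi.single i (j : ℤ)) := by
  classical
  have hinj : Function.Injective (refl Q i) :=
    Function.LeftInverse.injective (refl_refl i hQ)
  have h1 : (0 : Fin Q.n → ℤ) ≤ Pi.single i 1 := fun j => by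
    by_cases h : j = i <;> simp [h]
  have h2 : (Pi.single i 1 : Fin Q.n → ℤ) ≠ 0 := fun h => by simpa using congrFun h i
  have h3 : Pi.single i 1 ∉ refl Q i '' negZ Q w u := by
    rintro ⟨β, hβ, h⟩
    have := hβ.1 i
    rw [← refl_refl i hQ β, h, refl_single i hQ] at this
    simp at this
  have h4 : pairing Q w (u + Pi.single i (pairing Q w u (Pi.single i 1))) (Pi.single i 1) = -p := by
    have := pairing_step w i hQ u (refl Q i (Pi.single i 1))
    rw [refl_refl i hQ, refl_single i hQ] at this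
    rw [this, ← hp, ← neg_one_smul ℤ, pairing, pairing, form_smul]
    simp [Pi.single_apply]
    ring
  rw [P0, hneg, finprod_mem_insert _ h3 (hfin.image _), finprod_mem_image hinj.injOn,
    finprod_mem_eq_finite_toFinset_prod _ hfin, h4, neg_neg, Int.toNat_natCast,
    cZ_zs_mul h1 h2 _ _ R (fun H => by
      have := H i
      simp at this
      omega)]
  refine sum_congr rfl fun j _ => ?_
  have := cZ_map (reflH i) hinj (fun β => Gs 0 (-pairing Q w u β).toNat) hfin.toFinset
    (fun α hα => by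
      have hα := hfin.mem_toFinset.mp hα
      refine ⟨hα.1, hr _ hα.2.1, ?_⟩
      have : refl Q i α ∈ negZ Q w (u + Pi.single i (pairing Q w u (Pi.single i 1))) := by
        rw [hneg]; exact Or.inr ⟨α, hα, rfl⟩
      exact this.1) (refl Q i D + Pi.single i (j : ℤ))
  rw [P0, finprod_mem_eq_finite_toFinset_prod _ hfin, ← this, map_add, single_eq i j, map_zsmul]
  simp only [reflH, AddMonoidHom.mk'_apply, refl_refl i hQ, refl_single i hQ, pairing_step w i hQ,
    smul_neg, sub_eq_add_neg]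

lemma concl_step [𝓕.NeBot] {n n' : ℕ} (hn : (Ts Q w v i).card = n + n') (hle : n' ≤ n)
    (hv : v i = n) {m : ι → Fin Q.n → ℤ} (hm : Generic Q 𝓕 m)
    (hM : Tendsto (fun k => m k i) 𝓕 atTop) {c : Fin Q.n → G}
    (hc : Concl w (Function.update v i n') 𝓕 (fun k => dref i (m k)) c)
    (hP : ∀ (D : Fin Q.n → ℤ) (R : ℕ), D i < R → cZ (P0 w fun j => v j) D =
      ∑ j ∈ range R, PowerSeries.coeff j (Gs 0 (n - n')) *
        cZ (P0 w fun j => Function.update v i n' j) (refl Q i D + Pi.single i (j : ℤ))) :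
    ∃ c, Concl w v 𝓕 m c := by
  classical
  have hm' : Generic Q 𝓕 fun k => dref i (m k) := fun β hβ => by
    simp only [dref_dot i hQ]
    exact hm _ fun h => hβ (by rw [← refl_refl i hQ β, h]; exact map_zero (reflH i))
  have hκ := kap0_mem w v i n'
  set X := kap0 Q w v i n' - ∑ j, form Q (Pi.single j 1) (Pi.single i 1) • c j with hX
  have hXm : X ∈ Sall ∧ co 0 X = 0 :=
    ⟨sub_mem hκ.1 (sum_mem fun j _ => zsmul_mem (hc.1 j).1 _), by simp [hX, hκ.2, map_sum, hc.1]⟩
  refine ⟨c + Pi.single i X, fun j => ?_, fun D S hS => ?_⟩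
  · by_cases h : j = i
    · subst h
      simp only [Pi.add_apply, Pi.single_eq_same, map_add, hXm.2, (hc.1 j).2, add_zero, and_true]
      exact add_mem (hc.1 j).1 hXm.1
    · simpa [h] using hc.1 j
  have hv' : Function.update v i n = v := by rw [← hv, Function.update_eq_self]
  obtain ⟨l, hl⟩ := exists_fun Q m (𝓕 := 𝓕) (Fintype.piFinset fun j => Icc (-(v j : ℤ)) (v j))
  obtain ⟨l', hl'⟩ := exists_fun Q (fun k => dref i (m k)) (𝓕 := 𝓕) (insert (-Pi.single i 1)
    (Fintype.piFinset fun j => Icc (-(Function.update v i n' j : ℤ)) (Function.update v i n' j)))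
  have hli : l' i ≤ -1 := by
    have := hl' _ (mem_insert_self _ _) (by simpa [dref_self i hQ] using hM)
    simp at this
    omega
  obtain ⟨R, hR1, hR2⟩ : ∃ R : ℕ, l ⬝ᵥ D ≤ R ∧ l' ⬝ᵥ refl Q i D ≤ R :=
    ⟨(max (l ⬝ᵥ D) (l' ⬝ᵥ refl Q i D)).toNat, by omega, by omega⟩
  obtain ⟨E, hE⟩ := exists_E v i R D
  obtain ⟨Ds, hDs⟩ := exists_Ds n (D i) R
  obtain ⟨E0, hE0⟩ : ∃ E0, E0 = ∑ e ∈ adj Q i, D (oth Q i e) := ⟨_, rfl⟩
  choose Ds' hDs' using fun j : ℕ => exists_Ds' n' (E0 - D i + j) R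
  have hD1 : ∀ j : ℕ, ∀ l, l ≠ i → (refl Q i D + Pi.single i (j : ℤ) : Fin Q.n → ℤ) l = D l :=
    fun j l hl => by simp [refl, hl]
  have hD2 : ∀ j : ℕ, (refl Q i D + Pi.single i (j : ℤ) : Fin Q.n → ℤ) i = E0 - D i + j :=
    fun j => by simp [refl, form_single i hQ, hE0]; ring
  obtain ⟨S0, hS0, hs0⟩ := exists_complete w v i (n := n) (D' := D) (fun _ _ => rfl) hE
    (fun f hf => ((hDs f).mp hf).1) (fun f h1 h2 => (hDs f).mpr ⟨h2, fun a => (abs_le.mp (h1 a)).1⟩)
    (m := m) (𝓕 := 𝓕) (by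
      rw [hv']
      exact fun d hd hn j a ha => (good_bound Q w v hm hl d hn j ha).trans (hd ▸ hR1))
  choose S' hS' hs' using fun j : ℕ => exists_complete w v i (n := n') (hD1 j) hE
    (fun f hf => (hD2 j).symm ▸ ((hDs' j f).mp hf).1)
    (fun f h1 h2 => (hDs' j f).mpr ⟨hD2 j ▸ h2, fun a => (abs_le.mp (h1 a)).2⟩)
    (m := fun k => dref i (m k)) (𝓕 := 𝓕) (fun d hd hn j' a ha =>
      (good_bound Q w _ hm' (fun β hβ => hl' β (mem_insert_of_mem hβ)) d hn j' ha).trans (by
        rw [hd, dotProduct_add, dotProduct_single]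
        nlinarith [Int.natCast_nonneg j]))
  obtain ⟨Rj, hRj⟩ : ∃ Rj : ℕ, D i + n * R < Rj := ⟨(D i + n * R).toNat + 1, by omega⟩
  have hb : ∀ d ∈ E, ∀ b, |eT Q i d b| ≤ R := fun d hd b => by
    rcases b with p | k
    · exact ((hE d).mp hd).2.2.1 _ _
    · simp [eT]
  have hA := (Null 𝓕).sum_mem fun d (hd : d ∈ E) => local_step w v i hQ hn hle d (D i) E0
    (by
      rw [sum_eT, hE0]
      exact sum_congr rfl fun e _ => ((hE d).mp hd).2.2.2 _ (oth_ne i hQ e))
    Ds (fun f hf => ((hDs f).mp hf).1)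
    (fun f h1 h2 => (hDs f).mpr ⟨h2, fun a => by
      obtain ⟨b, -, h⟩ := h1 a
      exact (abs_le.mp (hb d hd b)).1.trans h⟩) (R := Rj)
    (fun I hI => by
      have := sum_le_sum fun b (_ : b ∈ I) => (abs_le.mp (hb d hd b)).1
      rw [sum_const, (mem_powersetCard.mp hI).2, nsmul_eq_mul, mul_neg] at this
      omega)
    Ds' (fun j f hf => ((hDs' j f).mp hf).1)
    (fun j f h1 h2 => (hDs' j f).mpr ⟨h2, fun a => by
      obtain ⟨b, -, h⟩ := h1 a
      exact h.trans (abs_le.mp (hb d hd b)).2⟩) hM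
  have hB := (Null 𝓕).sum_mem fun j (_ : j ∈ range Rj) => (Null 𝓕).smul_mem
    (n.factorial * (PowerSeries.coeff j (Gs n' n) *
      ss ^ (bdot (Function.update v i n') (refl Q i D + Pi.single i (j : ℤ)) - bdot v D - n' * j)))
    (Null_mul (hc.2 _ _ (hS' j)) (b := fun k => mon (m k i • kap0 Q w v i n')) (B := 0) fun k => by
        simpa [hκ.2] using mon_FF (m k i • kap0 Q w v i n'))
  rw [hv'] at hS0 hA
  have hC := (Null 𝓕).smul_mem (n'.factorial : K) (hS.sub w v hS0)
  have hne : (n'.factorial : K) ≠ 0 := Nat.cast_ne_zero.mpr (Nat.factorial_ne_zero _)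
  rw [← (Null 𝓕).smul_mem_iff hne]
  convert add_mem hC (add_mem hA hB) using 1
  ext1 k
  have e1 : ∑ d ∈ E, ∑ j ∈ range Rj, n.factorial * (PowerSeries.coeff j (Gs n' n) *
      ss ^ (phi v i d n (D i) - (n + n') * j - (phi v i d n' (E0 - D i + j) +
        (n' * E0 - (n + n') * (E0 - D i + j))))) * (mon (m k i • kap0 Q w v i n') *
      ∑ f ∈ Ds' j, JJ Q w (Function.update v i n') (dref i (m k))
        (Function.update d i (ext0 f))) =
      ∑ j ∈ range Rj, n.factorial * (PowerSeries.coeff j (Gs n' n) *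
      ss ^ (bdot (Function.update v i n') (refl Q i D + Pi.single i (j : ℤ)) - bdot v D - n' * j)) *
      (mon (m k i • kap0 Q w v i n') *
        ∑ d ∈ S' j, JJ Q w (Function.update v i n') (dref i (m k)) d) := by
    rw [sum_comm]
    refine sum_congr rfl fun j _ => ?_
    rw [hs', mul_sum, mul_sum]
    refine sum_congr rfl fun d hd => ?_
    rw [expo v i hQ (hD1 j) hE0.symm (hD2 j) ((hE d).mp hd).2.2.2, hv']
  have e2 : mon (∑ j, m k j • (c + Pi.single i X : Fin Q.n → G) j) =
      mon (m k i • kap0 Q w v i n') * mon (∑ j, dref i (m k) j • c j) := by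
    rw [← mon_add]
    congr 1
    have : ∑ j, dref i (m k) j • c j = ∑ j, m k j • c j -
        m k i • ∑ j, form Q (Pi.single j 1) (Pi.single i 1) • c j := by
      rw [← sum_zsmul, ← sum_sub_distrib]
      exact sum_congr rfl fun j _ => by rw [dref]; module
    simp only [Pi.add_apply, zsmul_add, sum_add_distrib, this]
    rw [sum_eq_single (f := fun j => m k j • (Pi.single i X : Fin Q.n → G) j) i
      (fun j _ hj => by simp [hj]) (by simp), Pi.single_eq_same, hX]
    module
  have e3 : (n'.factorial : K) * (∏ j, (v j).factorial : ℕ) =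
      n.factorial * (∏ j, (Function.update v i n' j).factorial : ℕ) := by
    rw [← Nat.cast_mul, ← Nat.cast_mul, ← mul_prod_erase _ _ (mem_univ i),
      ← mul_prod_erase _ _ (mem_univ i), Function.update_self, hv,
      prod_congr (f := fun j => (Function.update v i n' j).factorial)
        (g := fun j => (v j).factorial) rfl
        fun j hj => by rw [Function.update_of_ne (ne_of_mem_erase hj)], mul_left_comm]
  obtain ⟨p, rfl⟩ := Nat.exists_eq_add_of_le hle
  simp only [Pi.add_apply (fun _ => _), Pi.smul_apply, Finset.sum_apply, smul_eq_mul, mul_sub,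
    sum_sub_distrib, Pi.add_apply]
  simp only [← mul_sub, Pi.add_apply] at e1 e2 ⊢
  rw [e1, ← mul_sum, ← hs0, e2, hP D Rj (by nlinarith [Int.natCast_nonneg R]),
    add_tsub_cancel_left, show ∀ a s s0 b c : K,
      a * (s - s0) + (a * s0 - b + (b - c)) = a * s - c from fun _ _ _ _ _ => by ring,
    mul_sub, sub_right_inj]
  simp only [mul_sum, sum_mul]
  refine sum_congr rfl fun j _ => ?_
  have key : ∀ a b : ℤ, ss ^ (n' * j) * ss ^ (a - b - n' * j) * ss ^ (-a) = ss ^ (-b) :=
    fun a b => by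
      rw [← zpow_natCast, ← zpow_add₀ ss_ne, ← zpow_add₀ ss_ne]
      congr 1
      push_cast
      ring
  rw [coeff_Gs, ← key (bdot (Function.update v i n') (refl Q i D + Pi.single i (j : ℤ)))]
  generalize ss ^ (n' * j) = a1
  generalize ss ^ (-bdot (Function.update v i n') (refl Q i D + Pi.single i (j : ℤ))) = a2
  generalize ss ^ (bdot (Function.update v i n') (refl Q i D + Pi.single i (j : ℤ)) - bdot v D -
    n' * j) = a3
  generalize cZ (P0 w fun j => Function.update v i n' j) (refl Q i D + Pi.single i (j : ℤ)) = a4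
  generalize PowerSeries.coeff j (Gs 0 p) = a5
  generalize mon (m k i • kap0 Q w v i n') = a6
  generalize mon (∑ j, dref i (m k) j • c j) = a7
  linear_combination a1 * a2 * a3 * a4 * a5 * a6 * a7 * e3

end Pool.Agent.MP_8be872_ag.H38
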