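import Pool.Agent.MP_8be872_ag.H38.Sum
import Pool.Agent.MP_8be872_ag.H71.Dual

/-! The duality at one vertex. -/

namespace Pool.Agent.MP_8be872_ag.H38

open Finset Filter

set_option maxHeartbeats 400000
set_option linter.unusedSectionVars false

variable {T : Type} [DecidableEq T]

/-- the wall-crossing factor -/
noncomputable def Gs (n' n : ℕ) : PowerSeries K := ∏ j ∈ Ico n' n, fser (mon qq) ss (ss ^ j)

lemma fser_const (q s c : K) : PowerSeries.constantCoeff (fser q s c) = 1 := by
  rw [← PowerSeries.coeff_zero_eq_constantCoeff_apply, fser, PowerSeries.coeff_mk]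
  simp

lemma Aser_scale (q s h : K) (hh : h ≠ 0) (I J : Finset T) (X Z : T → K) :
    Aser q s I J (fun b => h * X b) (fun b => h⁻¹ * Z b) = Aser q s I J X Z := by
  refine PowerSeries.ext fun k => ?_
  rw [Aser, Aser, PowerSeries.coeff_mk, PowerSeries.coeff_mk]
  refine sum_congr rfl fun γ _ => ?_
  rw [term, term]
  refine congrArg₂ (· * ·) ?_ ?_
  · refine prod_congr rfl fun a _ => prod_congr rfl fun a' _ => prod_congr rfl fun l _ => ?_
    congr 1
    rw [mul_assoc, mul_assoc, mul_div_mul_left _ _ hh]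
  · refine prod_congr rfl fun a _ => prod_congr rfl fun a' _ => prod_congr rfl fun l _ => ?_
    congr 1
    field_simp

lemma Aser_dual {y : T → G} (hinj : Function.Injective y) (hq : ∀ b, co 0 (y b) = 0)
    (e : T → ℤ) {I J : Finset T} (hIJ : Disjoint I J) (hc : J.card ≤ I.card) :
    Aser (mon qq) ss I J (XX y e) (ZZ y e) =
      Gs J.card I.card * Aser (mon qq) ss J I (ZZ y e) (XX y e) := by
  have key : ∀ a b (r : ℤ), y a = y b + r • qq → a = b := fun a b r h => by
    have : r = 0 := by simpa [hq, co0_qq] using (congrArg (co 0) h).symm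
    exact hinj (by simpa [this] using h)
  have h := H71.dual K T (mon qq) ss I J (XX y e) (ZZ y e) (mon_ne _)
    (fun r hr => by
      rw [← mon_zsmul, mon_eq_one] at hr
      simpa [co0_qq] using congrArg (co 0) hr)
    (fun a _ => mon_ne _) (fun a _ => mon_ne _)
    (fun a _ a' _ r hr => by
      rw [XX, XX, ← mon_zsmul, ← mon_add] at hr
      exact key a a' (e a' + r - e a) (by linear_combination (norm := module) mon_inj hr))
    (fun a _ a' _ r hr => by
      rw [ZZ, ZZ, ← mon_zsmul, ← mon_add] at hr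
      exact key a a' (e a' - r - e a) (by linear_combination (norm := module) -mon_inj hr))
    (fun a ha c hc r hr => by
      rw [XX, ZZ, ← mon_zsmul, ← mon_add, ← mon_add, mon_eq_one] at hr
      have := key a c (e c - r - e a) (by linear_combination (norm := module) hr)
      exact disjoint_left.mp hIJ ha (this ▸ hc))
  rw [← prod_range_mul_prod_Ico _ hc] at h
  have hne : ∏ j ∈ range J.card, fser (mon qq) ss (ss ^ j) ≠ 0 := fun H => by
    have := congrArg PowerSeries.constantCoeff H
    simp [map_prod, fser_const] at this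
  apply mul_right_cancel₀ hne
  rw [h, Gs]
  ring

lemma coefZ_mul (f g : PowerSeries K) (k : ℤ) {R : ℕ} (h : k < R) :
    coefZ (f * g) k = ∑ j ∈ range R, PowerSeries.coeff j f * coefZ g (k - j) := by
  unfold coefZ
  split_ifs with hk
  · obtain ⟨k, rfl⟩ := Int.eq_ofNat_of_zero_le hk
    rw [Int.toNat_natCast, PowerSeries.coeff_mul, Nat.sum_antidiagonal_eq_sum_range_succ_mk,
      ← sum_subset (s₁ := range (k + 1)) (s₂ := range R) (range_subset_range.mpr (by omega))]
    · refine sum_congr rfl fun j hj => ?_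
      have := mem_range.mp hj
      rw [if_pos (by omega), show ((k : ℤ) - j).toNat = k - j by omega]
    · intro j _ hj
      rw [mem_range] at hj
      rw [if_neg (by omega), mul_zero]
  · symm
    exact sum_eq_zero fun j _ => by rw [if_neg (by omega), mul_zero]

lemma loc_dual {y : T → G} (hinj : Function.Injective y) (hq : ∀ b, co 0 (y b) = 0)
    (e : T → ℤ) {Ts : Finset T} {n n' : ℕ} (hn : Ts.card = n + n') (hle : n' ≤ n) (M D : ℤ)
    {R : ℕ} (hR : ∀ I ∈ powersetCard n Ts, D - ∑ b ∈ I, e b < R) :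
    mon (M • (n' • hb - ∑ b ∈ Ts, y b)) * LocA y Ts e n M D =
      ∑ j ∈ range R, PowerSeries.coeff j (Gs n' n) * ss ^ (-(Ts.card * j : ℤ)) *
        LocA (fun b => hb - y b) Ts (fun b => -e b) n' M (D - ∑ b ∈ Ts, e b - j) := by
  simp only [LocA, mul_sum]
  rw [sum_comm]
  refine sum_nbij' (fun I => Ts \ I) (fun I => Ts \ I) ?_ ?_ ?_ ?_ ?_
  · intro I hI
    obtain ⟨h1, h2⟩ := mem_powersetCard.mp hI
    exact mem_powersetCard.mpr ⟨sdiff_subset, by rw [card_sdiff_of_subset h1]; omega⟩
  · intro I hI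
    obtain ⟨h1, h2⟩ := mem_powersetCard.mp hI
    exact mem_powersetCard.mpr ⟨sdiff_subset, by rw [card_sdiff_of_subset h1]; omega⟩
  · intro I hI
    exact Finset.sdiff_sdiff_eq_self (mem_powersetCard.mp hI).1
  · intro I hI
    exact Finset.sdiff_sdiff_eq_self (mem_powersetCard.mp hI).1
  · intro I hI
    obtain ⟨h1, h2⟩ := mem_powersetCard.mp hI
    have h3 : (Ts \ I).card = n' := by rw [card_sdiff_of_subset h1]; omega
    have e1 : XX (fun b => hb - y b) (fun b => -e b) = fun b => mon hb * ZZ y e b := by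
      ext1 b
      rw [XX, ZZ, ← mon_add]
      congr 1
      module
    have e2 : ZZ (fun b => hb - y b) (fun b => -e b) = fun b => (mon hb)⁻¹ * XX y e b := by
      ext1 b
      rw [XX, ZZ, ← mon_neg, ← mon_add]
      congr 1
      module
    have e3 : Base (fun b => hb - y b) (fun b => -e b) (Ts \ I) I = Base y e I (Ts \ I) := by
      rw [Base, Base, Finset.prod_comm]
      refine prod_congr rfl fun a _ => prod_congr rfl fun c _ => ?_
      congr 1 <;> abel
    have e4 : mon (M • ∑ b ∈ Ts \ I, (hb - y b)) =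
        mon (M • (n' • hb - ∑ b ∈ Ts, y b)) * mon (M • ∑ b ∈ I, y b) := by
      rw [← mon_add, sum_sub_distrib, sum_const, h3, ← sum_sdiff h1]
      congr 1
      module
    simp only [LocT, Finset.sdiff_sdiff_eq_self h1, e1, e2, e3, e4, Aser_scale _ _ _ (mon_ne _)]
    rw [Aser_dual hinj hq e disjoint_sdiff (by omega), coefZ_mul _ _ _ (hR I hI), h2, h3]
    simp only [sum_mul, mul_sum]
    refine sum_congr rfl fun j _ => ?_
    have e5 : D - ∑ b ∈ Ts, e b - j - ∑ b ∈ Ts \ I, -e b = D - ∑ b ∈ I, e b - j := by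
      rw [sum_neg_distrib, ← sum_sdiff h1]; ring
    rw [e5, show -((Ts.card : ℤ) * (D - ∑ b ∈ I, e b)) =
      -(Ts.card * j) + -(Ts.card * (D - ∑ b ∈ I, e b - j)) by ring, zpow_add₀ ss_ne]
    ring

end Pool.Agent.MP_8be872_ag.H38
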