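import Pool.Agent.MP_8be872_ag.H38.Theta

/-! Residues at one vertex. -/

namespace Pool.Agent.MP_8be872_ag.H38

open Finset Filter

set_option maxHeartbeats 400000
set_option linter.unusedSectionVars false

variable {α T ι : Type} [DecidableEq α] [Fintype α] [DecidableEq T]

/-- the part of the integrand at one vertex -/
noncomputable def InF (z : T → G) (Ts : Finset T) (e : T → ℤ) (d : α → ℤ) (x : α → G) : K :=
  (∏ a, ∏ b ∈ Ts, Th (x a - z b) (d a - e b)) * ∏ a, ∏ a', (Th (x a - x a') (d a - d a'))⁻¹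

noncomputable def UF (z : T → G) (Ts : Finset T) (e : T → ℤ) (d : α → ℤ) (x : α → G) : K :=
  (∏ a, ∏ b ∈ Ts, ThQ (x a - z b) (d a - e b)) * ∏ a, ∏ a', ((ThQ (x a - x a') (d a - d a'))⁻¹ *
    ((if 0 ≤ d a - d a' ∧ a ≠ a' then 1 - mon (x a' - x a) else 1) *
      if d a - d a' ≤ 0 then 1 - mon (hb + x a - x a') else 1))

lemma InF_eq (z : T → G) (Ts : Finset T) (e : T → ℤ) (d : α → ℤ) {x : α → G}
    (hx : Function.Injective x) (hx' : ∀ a a', hb + x a - x a' ≠ 0) :
    InF z Ts e d x = UF z Ts e d x * ∏ a, ((∏ b ∈ Ts with e b ≤ d a, ar (x a - z b)) *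
      ∏ b ∈ Ts with d a ≤ e b, ar (-hb - (x a - z b))) := by
  have h1 : ∀ a a', (Th (x a - x a') (d a - d a'))⁻¹ = (ThQ (x a - x a') (d a - d a'))⁻¹ *
      ((if 0 ≤ d a - d a' ∧ a ≠ a' then 1 - mon (x a' - x a) else 1) *
        if d a - d a' ≤ 0 then 1 - mon (hb + x a - x a') else 1) := by
    intro a a'
    rw [Th_eq, mul_inv, mul_inv]
    congr 2
    · by_cases h : a = a'
      · simp [h, ar_zero]
      · have : x a - x a' ≠ 0 := sub_ne_zero.mpr fun H => h (hx H)
        by_cases h2 : 0 ≤ d a - d a'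
        · rw [if_pos h2, if_pos ⟨h2, h⟩, ar_of_ne this, inv_inv, neg_sub]
        · rw [if_neg h2, if_neg (fun H => h2 H.1), inv_one]
    · split_ifs
      · rw [ar_of_ne (fun H => hx' a a' (by rw [← neg_eq_zero, ← H]; abel)), inv_inv]
        congr 2; abel
      · exact inv_one
  have h2 : ∀ a, ∏ b ∈ Ts, Th (x a - z b) (d a - e b) = (∏ b ∈ Ts, ThQ (x a - z b) (d a - e b)) *
      ((∏ b ∈ Ts with e b ≤ d a, ar (x a - z b)) *
        ∏ b ∈ Ts with d a ≤ e b, ar (-hb - (x a - z b))) := by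
    intro a
    simp only [Th_eq, prod_mul_distrib, prod_filter, sub_nonneg, sub_nonpos]
  simp only [InF, UF, h1, h2, prod_mul_distrib]
  ring

/-- variables at one vertex -/
structure Vars2 (α T : Type) [DecidableEq α] extends Vars α T where
  hzz : ∀ b, z' b = z b - hb
  πq : ∀ a, π a qq = 0
  πh : ∀ a, π a hb = 0
  hz2 : ∀ b b', hb + z b - z b' ≠ 0

lemma hb_ne : hb ≠ 0 := fun h => by simpa [h] using co1_hb

lemma Vars2.ev (V : Vars2 α T) (Ts : Finset T) (e : T → ℤ) (d : α → ℤ) (Bs : Finset (α → T)) :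
    Ev V.sub Bs (UF V.z Ts e d V.ξ) (fun β => UF V.z Ts e d (fun a => V.z (β a))) := by
  have hq : ∀ β, V.sub β qq = qq := fun β => V.sub_ker β V.πq
  have hh : ∀ β, V.sub β hb = hb := fun β => V.sub_ker β V.πh
  have hz : ∀ β b, V.sub β (V.z b) = V.z b := fun β b => V.sub_ker β fun a => V.hz a b
  unfold UF
  refine Ev.mul (Ev.prod _ fun a _ => Ev.prod _ fun b _ => ?_)
    (Ev.prod _ fun a _ => Ev.prod _ fun a' _ => Ev.mul ?_ (Ev.mul ?_ ?_))
  · have := (Ev.ThQ (Bs := Bs) V.co_sub hq hh (w := V.ξ a - V.z b) (by simp [V.q1, V.q2])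
      (d a - e b)).1
    simpa only [map_sub, V.sub_var, hz] using this
  · have := (Ev.ThQ (Bs := Bs) V.co_sub hq hh (w := V.ξ a - V.ξ a') (by simp [V.q1])
      (d a - d a')).2
    simpa only [map_sub, V.sub_var] using this
  · split_ifs
    · have := Ev.one_sub (φ := V.sub) (Bs := Bs) (V.ξ a' - V.ξ a)
      simpa only [map_sub, V.sub_var] using this
    · exact Ev.one
  · split_ifs
    · have := Ev.one_sub (φ := V.sub) (Bs := Bs) (hb + V.ξ a - V.ξ a')
      simpa only [map_sub, map_add, V.sub_var, hh] using this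
    · exact Ev.one

lemma UF_eq_zero (z : T → G) (Ts : Finset T) (e : T → ℤ) (d : α → ℤ) {β : α → T}
    (h : ¬Function.Injective β) : UF z Ts e d (fun a => z (β a)) = 0 := by
  obtain ⟨a, a', h1, h2⟩ := Function.not_injective_iff.mp h
  wlog hd : 0 ≤ d a - d a' generalizing a a'
  · exact this a' a h1.symm h2.symm (by omega)
  unfold UF
  refine mul_eq_zero_of_right _ (prod_eq_zero (mem_univ a) (prod_eq_zero (mem_univ a') ?_))
  rw [if_pos ⟨hd, h2⟩]
  simp [mon_zero, h1]

open Classical in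
/-- residues at the incoming poles -/
lemma Vars2.ra (V : Vars2 α T) (Ts : Finset T) (e : T → ℤ) (d : α → ℤ) {𝓕 : Filter ι}
    {M : ι → ℤ} (hM : Tendsto M 𝓕 atTop) :
    (fun i => res (Ker V.π univ) (mon (∑ a, M i • V.ξ a) * InF V.z Ts e d V.ξ) -
      ∑ β ∈ Fintype.piFinset (fun _ : α => Ts) with Function.Injective β ∧ ∀ a, e (β a) ≤ d a,
        mon (∑ a, M i • V.z (β a)) * InF V.z Ts e d (fun a => V.z (β a))) ∈ Null 𝓕 := by
  have h := V.toVars.mv (fun a => Ts.filter (fun b => e b ≤ d a))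
    (fun a => Ts.filter (fun b => d a ≤ e b)) (V.ev Ts e d _) hM
  have hinj : Function.Injective V.ξ := fun a a' h => by
    have := V.hξ a a'
    rw [← h, V.hξ] at this
    by_contra hne
    simp [hne] at this
  have e1 : InF V.z Ts e d V.ξ = UF V.z Ts e d V.ξ * ∏ a, poles V.z V.z'
      (Ts.filter (fun b => e b ≤ d a)) (Ts.filter (fun b => d a ≤ e b)) (V.ξ a) := by
    rw [InF_eq _ _ _ _ hinj]
    · congr 1
      refine prod_congr rfl fun a _ => ?_
      unfold poles
      congr 1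
      · refine prod_congr rfl fun b _ => ?_
        rw [ar_of_ne (by rw [← neg_sub]; exact neg_ne_zero.mpr (V.h1 a b).ne'), neg_sub]
      · refine prod_congr rfl fun b _ => ?_
        have : -hb - (V.ξ a - V.z b) = -(V.ξ a - V.z' b) := by rw [V.hzz]; abel
        rw [this, ar_of_ne (neg_ne_zero.mpr (V.h2 a b).ne'), neg_neg]
    · intro a a' h
      by_cases haa : a = a'
      · exact hb_ne (by simpa [haa] using h)
      · have := congrArg (V.π a) h
        simp [V.πh, V.hξ, haa] at this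
  rw [← e1] at h
  convert h using 3 with i
  symm
  rw [← sum_filter_add_sum_filter_not _ Function.Injective,
    sum_eq_zero (s := filter (fun β => ¬Function.Injective β) _), add_zero]
  · refine sum_congr ?_ fun β hβ => ?_
    · ext β
      simp only [mem_filter, Fintype.mem_piFinset]
      constructor
      · rintro ⟨h1, h2⟩
        exact ⟨fun a => (h1 a).1, h2, fun a => (h1 a).2⟩
      · rintro ⟨h1, h2, h3⟩
        exact ⟨fun a => ⟨h1 a, h3 a⟩, h2⟩
    · simp only [mem_filter, Fintype.mem_piFinset] at hβ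
      obtain ⟨h1, h2, h3⟩ := hβ
      rw [InF_eq _ _ _ _ (x := fun a => V.z (β a)) (V.hinj.comp h2) (fun a a' => V.hz2 _ _)]
      congr 2
      refine prod_congr rfl fun a _ => ?_
      unfold poles
      congr 1
      · rw [← mul_prod_erase _ (fun b => ar (V.z (β a) - V.z b))
          (mem_filter.mpr ⟨h1 a, h3 a⟩), sub_self, ar_zero, one_mul]
        refine prod_congr rfl fun b hb => ?_
        rw [ar_of_ne (sub_ne_zero.mpr fun H => ne_of_mem_erase hb (V.hinj H).symm), neg_sub]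
      · refine prod_congr rfl fun b _ => ?_
        have : -hb - (V.z (β a) - V.z b) = -(V.z (β a) - V.z' b) := by rw [V.hzz]; abel
        rw [this, ar_of_ne, neg_neg]
        rw [← this]
        exact fun H => V.hz2 (β a) b (by rw [← neg_eq_zero, ← H]; abel)
  · intro β hβ
    rw [UF_eq_zero _ _ _ _ (mem_filter.mp hβ).2]
    simp

noncomputable def Base (z : T → G) (e : T → ℤ) (I J : Finset T) : K :=
  ∏ a ∈ I, ∏ c ∈ J, Th (z a - z c) (e a - e c)

noncomputable def XX (z : T → G) (e : T → ℤ) (b : T) : K := mon (z b + e b • qq)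

noncomputable def ZZ (z : T → G) (e : T → ℤ) (b : T) : K := mon (-(z b + e b • qq))

lemma eval_fin {z : T → G} (hinj : Function.Injective z) (hq : ∀ b, co 0 (z b) = 0)
    (hz2 : ∀ b b', hb + z b - z b' ≠ 0) {I Ts : Finset T} (hI : I ⊆ Ts) (e : T → ℤ)
    (γ : T → ℕ) :
    (∏ a ∈ I, ∏ b ∈ Ts, Th (z a - z b) (e a + γ a - e b)) *
        ∏ a ∈ I, ∏ a' ∈ I, (Th (z a - z a') (e a + γ a - (e a' + γ a')))⁻¹ =
      Base z e I (Ts \ I) * (term (mon qq) ss I (Ts \ I) (XX z e) (ZZ z e) γ *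
        ss⁻¹ ^ (Ts.card * ∑ a ∈ I, γ a)) := by
  have hp : ∀ a b (l : ℤ), (a = b → l ≠ 0) →
      psi (z a - z b + l • qq) = ee ss (mon (z a - z b + l • qq)) * ss⁻¹ := by
    intro a b l hl
    apply psi_eq
    · intro H
      have h0 : l = 0 := by simpa [hq, co0_qq] using congrArg (co 0) H
      rw [h0, zero_smul, add_zero, sub_eq_zero] at H
      exact hl (hinj H) h0
    · intro H
      have h0 : l = 1 := by
        have := congrArg (co 0) H
        simp [hq, co0_qq, co0_hb] at this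
        omega
      rw [h0] at H
      exact hz2 a b (by rw [← neg_eq_zero, ← H]; module)
  have hc : ∀ n : ℕ, ss⁻¹ ^ n = ∏ _l ∈ range n, ss⁻¹ := fun n => by simp
  have hc' := hc
  have h1 : ∀ a ∈ I, ∀ a' ∈ I, Th (z a - z a') (e a + γ a - e a') *
      (Th (z a - z a') (e a + γ a - (e a' + γ a')))⁻¹ =
      (∏ l ∈ range (γ a'), ee ss (XX z e a * mon qq ^ γ a / (XX z e a' * mon qq ^ l))) *
        ss⁻¹ ^ γ a' := by
    intro a _ a' _
    rw [show e a + γ a - e a' = e a + γ a - (e a' + γ a') + γ a' by ring, Th_add,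
      mul_right_comm, mul_inv_cancel₀ (Th_ne _ _), one_mul, ← prod_range_reflect,
      hc, ← prod_mul_distrib]
    refine prod_congr rfl fun l hl => ?_
    have hl' := mem_range.mp hl
    rw [hp _ _ _ (by rintro rfl; omega)]
    congr 2
    rw [XX, XX, ← mon_nsmul, ← mon_nsmul, ← mon_add, ← mon_add, ← mon_sub,
      show ((γ a' - 1 - l : ℕ) : ℤ) = γ a' - 1 - l by omega]
    congr 1
    module
  have h2 : ∀ a ∈ I, ∀ c ∈ Ts \ I, Th (z a - z c) (e a + γ a - e c) =
      Th (z a - z c) (e a - e c) *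
        ((∏ l ∈ range (γ a), ee ss (XX z e a * ZZ z e c * mon qq ^ (l + 1))) * ss⁻¹ ^ γ a) := by
    intro a ha c hc
    rw [show e a + γ a - e c = e a - e c + γ a by ring, Th_add,
      hc', ← prod_mul_distrib]
    congr 1
    refine prod_congr rfl fun l _ => ?_
    rw [hp _ _ _ (by rintro rfl; exact absurd ha (mem_sdiff.mp hc).2)]
    congr 2
    rw [XX, ZZ, ← mon_nsmul, ← mon_add, ← mon_add]
    congr 1
    module
  have e1 : ∏ a ∈ I, ∏ b ∈ Ts, Th (z a - z b) (e a + γ a - e b) =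
      (∏ a ∈ I, ∏ b ∈ Ts \ I, Th (z a - z b) (e a + γ a - e b)) *
        ∏ a ∈ I, ∏ b ∈ I, Th (z a - z b) (e a + γ a - e b) := by
    rw [← prod_mul_distrib]
    exact prod_congr rfl fun a _ => (prod_sdiff hI).symm
  have e2 : (∏ a ∈ I, ∏ b ∈ I, Th (z a - z b) (e a + γ a - e b)) *
      ∏ a ∈ I, ∏ a' ∈ I, (Th (z a - z a') (e a + γ a - (e a' + γ a')))⁻¹ =
      ∏ a ∈ I, ∏ a' ∈ I, ((∏ l ∈ range (γ a'),
        ee ss (XX z e a * mon qq ^ γ a / (XX z e a' * mon qq ^ l))) * ss⁻¹ ^ γ a') := by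
    rw [← prod_mul_distrib]
    refine prod_congr rfl fun a ha => ?_
    rw [← prod_mul_distrib]
    exact prod_congr rfl fun a' ha' => h1 a ha a' ha'
  rw [e1, mul_assoc, e2, prod_congr rfl fun a ha => prod_congr rfl fun c hc => h2 a ha c hc]
  simp only [prod_mul_distrib, prod_const, prod_pow_eq_pow_sum, Base, term, ← pow_mul]
  rw [← card_sdiff_add_card_eq_card hI, ← sum_mul, add_mul, pow_add, mul_comm (#(Ts \ I)),
    mul_comm (#I)]
  ring

end Pool.Agent.MP_8be872_ag.H38
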