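import Pool.Agent.MP_8be872_ag.H38.Induct

/-! The main induction. -/

namespace Pool.Agent.MP_8be872_ag.H38

open Finset Filter

set_option maxHeartbeats 400000

variable {Q : Quiv} (w : Fin Q.n → ℕ) (hQ : ∀ e, Q.hd e ≠ Q.tl e)
variable {ι : Type} {𝓕 : Filter ι}

include hQ in
lemma main_ind [𝓕.NeBot] (hW : WeylStmt) {u : Fin Q.n → ℤ} (hu : Up Q w u) :
    0 ≤ u ∧ (negZ Q w u).Finite ∧ ∀ v : Fin Q.n → ℕ, (fun j => (v j : ℤ)) = u →
      ∀ m : ι → Fin Q.n → ℤ, Generic Q 𝓕 m →
      (∀ α ∈ negZ Q w u, Tendsto (fun k => m k ⬝ᵥ α) 𝓕 atTop) → ∃ c, Concl w v 𝓕 m c := by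
  obtain ⟨-, h0, hr, hs⟩ := hW Q hQ w
  induction hu with
  | zero =>
    refine ⟨le_rfl, by simp [h0], fun v hv m _ _ => ⟨0, ?_⟩⟩
    obtain rfl : v = 0 := funext fun j => by simpa using congrFun hv j
    exact concl_zero w h0 m
  | step u i _ hp ih =>
    obtain ⟨h1, h2, h3⟩ := ih
    have hneg := hs u i hp
    refine ⟨add_nonneg h1 fun j => ?_, ?_, fun v hv m hm hpos => ?_⟩
    · by_cases h : j = i
      · simpa [h] using hp.le
      · simp [h]
    · rw [hneg]
      exact (h2.image _).insert _
    obtain ⟨p, hp'⟩ := Int.eq_ofNat_of_zero_le hp.le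
    obtain ⟨n', hn'⟩ := Int.eq_ofNat_of_zero_le (h1 i)
    have hvi : v i = n' + p := by
      have := congrFun hv i
      simp only [Pi.add_apply, Pi.single_eq_same] at this
      omega
    have hvj : ∀ j, j ≠ i → (v j : ℤ) = u j := fun j hj => by simpa [hj] using congrFun hv j
    have hv' : (fun j => (Function.update v i n' j : ℤ)) = u := funext fun j => by
      by_cases h : j = i
      · simp [h, hn']
      · simp [h, hvj j h]
    have hcard : (Ts Q w v i).card = n' + p + n' := by
      have a1 := card_Ts w v i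
      have a2 : pairing Q w u (Pi.single i 1) = w i - form Q u (Pi.single i 1) := by
        simp [pairing, Pi.single_apply, form_comm u]
      rw [form_single i hQ] at a2
      rw [sum_congr rfl fun e _ => hvj _ (oth_ne i hQ e)] at a1
      omega
    rw [hneg] at hpos
    obtain ⟨c, hc⟩ := h3 _ hv' (fun k => dref i (m k))
      (fun β hβ => by
        simp only [dref_dot i hQ]
        exact hm _ fun h => hβ (by rw [← refl_refl i hQ β, h]; exact map_zero (reflH i)))
      (fun α hα => by
        simp only [dref_dot i hQ]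
        exact hpos _ (Or.inr ⟨α, hα, rfl⟩))
    refine concl_step w v i hQ hcard (Nat.le_add_right _ _) hvi hm
      (by simpa using hpos _ (Or.inl rfl)) hc fun D R hR => ?_
    rw [hv, hv', add_tsub_cancel_left]
    exact P0_step w i hQ h2 hr hp' (by omega) hneg D hR

end Pool.Agent.MP_8be872_ag.H38
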