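import Pool.Agent.MP_8be872_ag.H38.Glob

/-! Products of series in the monomials of roots. -/

namespace Pool.Agent.MP_8be872_ag.H38

open Finset Filter

set_option maxHeartbeats 400000

variable {n : ℕ}

noncomputable def toF (α : Fin n → ℤ) : Fin n →₀ ℕ :=
  Finsupp.equivFunOnFinite.symm fun j => (α j).toNat

lemma toF_apply (α : Fin n → ℤ) (j : Fin n) : toF α j = (α j).toNat := rfl

lemma toF_cast (α : Fin n →₀ ℕ) : toF (fun j => (α j : ℤ)) = α := by
  ext j; simp [toF_apply]

lemma cast_toF {α : Fin n → ℤ} (h : 0 ≤ α) : (fun j => (toF α j : ℤ)) = α := by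
  ext j; exact Int.toNat_of_nonneg (h j)

lemma toF_ne {α : Fin n → ℤ} (h : 0 ≤ α) (h' : α ≠ 0) : toF α ≠ 0 := fun H => h' (by
  rw [← cast_toF h, H]; rfl)

/-- `g(z^α)` -/
noncomputable def zs (α : Fin n →₀ ℕ) (g : PowerSeries K) : MvPowerSeries (Fin n) K :=
  g.subst (MvPowerSeries.monomial α (1 : K))

open Classical in
/-- coefficients, extended by zero -/
noncomputable def cZ (F : MvPowerSeries (Fin n) K) (D : Fin n → ℤ) : K :=
  if 0 ≤ D then MvPowerSeries.coeff (toF D) F else 0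

lemma cZ_one (D : Fin n → ℤ) : cZ 1 D = if D = 0 then 1 else 0 := by
  unfold cZ
  by_cases h : D = 0
  · subst h
    simp [show toF (0 : Fin n → ℤ) = 0 by ext j; simp [toF_apply]]
  · rw [if_neg h]
    split_ifs with h'
    · rw [MvPowerSeries.coeff_one, if_neg (toF_ne h' h)]
    · rfl

lemma cZ_monomial_mul {α : Fin n → ℤ} (h : 0 ≤ α) (j : ℕ) (F : MvPowerSeries (Fin n) K)
    (D : Fin n → ℤ) :
    cZ (MvPowerSeries.monomial (j • toF α) (1 : K) * F) D = cZ F (D - (j : ℤ) • α) := by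
  have e : ∀ l, ((j • toF α) l : ℤ) = j * α l := fun l => by
    simp [toF_apply, Int.toNat_of_nonneg (h l)]
  unfold cZ
  by_cases h1 : 0 ≤ D - (j : ℤ) • α
  · have h2 : ∀ l, j * α l ≤ D l := fun l => by simpa using h1 l
    have h3 : 0 ≤ D := fun l => (mul_nonneg (Nat.cast_nonneg j) (h l)).trans (h2 l)
    rw [if_pos h1, if_pos h3, MvPowerSeries.coeff_monomial_mul, if_pos, one_mul]
    · congr 2
      ext l
      have := e l
      have := h2 l
      simp only [Finsupp.coe_tsub, Pi.sub_apply, toF_apply, Pi.smul_apply, smul_eq_mul]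
      omega
    · intro l
      have := e l
      have := h2 l
      simp only [toF_apply]
      omega
  · rw [if_neg h1]
    split_ifs with h3
    · rw [MvPowerSeries.coeff_monomial_mul, if_neg]
      intro H
      refine h1 fun l => ?_
      have := e l
      have := H l
      have := h3 l
      simp only [toF_apply, Pi.zero_apply, Pi.sub_apply, Pi.smul_apply, smul_eq_mul] at *
      omega
    · rfl

lemma cZ_add (F F' : MvPowerSeries (Fin n) K) (D : Fin n → ℤ) :
    cZ (F + F') D = cZ F D + cZ F' D := by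
  unfold cZ; split_ifs <;> simp

lemma cZ_smul (c : K) (F : MvPowerSeries (Fin n) K) (D : Fin n → ℤ) :
    cZ (c • F) D = c * cZ F D := by
  unfold cZ; split_ifs <;> simp

lemma cZ_zs_mul {α : Fin n → ℤ} (h : 0 ≤ α) (h' : α ≠ 0) (F : MvPowerSeries (Fin n) K)
    (D : Fin n → ℤ) (R : ℕ) (hR : ¬0 ≤ D - (R : ℤ) • α) (g : PowerSeries K) :
    cZ (zs (toF α) g * F) D =
      ∑ j ∈ range R, PowerSeries.coeff j g * cZ F (D - (j : ℤ) • α) := by
  have hs := PowerSeries.HasSubst.monomial (toF_ne h h') (1 : K)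
  have key : ∀ r : ℕ, ∃ g' : PowerSeries K, cZ (zs (toF α) g * F) D =
      ∑ j ∈ range r, PowerSeries.coeff j g * cZ F (D - (j : ℤ) • α) +
        cZ (zs (toF α) g' * F) (D - (r : ℤ) • α) ∧
        ∀ j, PowerSeries.coeff j g' = PowerSeries.coeff (j + r) g := by
    intro r
    induction r with
    | zero => exact ⟨g, by simp, by simp⟩
    | succ r ih =>
      obtain ⟨g', h1, h2⟩ := ih
      refine ⟨PowerSeries.mk fun j => PowerSeries.coeff (j + 1) g', ?_, fun j => by
        rw [PowerSeries.coeff_mk, h2, add_assoc, add_comm 1]⟩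
      have e := PowerSeries.eq_X_mul_shift_add_const g'
      rw [h1, sum_range_succ, add_assoc]
      congr 1
      conv_lhs => rw [e]
      rw [zs, zs, PowerSeries.subst_add hs, PowerSeries.subst_mul hs, PowerSeries.subst_X hs,
        PowerSeries.subst_C, add_mul, cZ_add, mul_assoc, ← one_smul ℕ (toF α),
        cZ_monomial_mul h, ← MvPowerSeries.smul_eq_C_mul, cZ_smul, add_comm,
        ← PowerSeries.coeff_zero_eq_constantCoeff_apply, h2, zero_add, one_smul]
      congr 2
      push_cast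
      module
  obtain ⟨g', h1, -⟩ := key R
  rw [h1, cZ, if_neg hR, add_zero]

lemma exists_R {α : Fin n → ℤ} (h : 0 ≤ α) (h' : α ≠ 0) (D : Fin n → ℤ) :
    ∀ᶠ R : ℕ in atTop, ¬0 ≤ D - (R : ℤ) • α := by
  obtain ⟨l, hl⟩ := Function.ne_iff.mp h'
  have h1 : 1 ≤ α l := by
    have := h l
    simp only [Pi.zero_apply] at *
    omega
  refine (eventually_gt_atTop (D l).toNat).mono fun R hR H => ?_
  have h2 : (R : ℤ) * α l ≤ D l := by simpa using H l
  have : (R : ℤ) ≤ R * α l := le_mul_of_one_le_right (Nat.cast_nonneg R) h1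
  omega

lemma cZ_map (σ : (Fin n → ℤ) →+ (Fin n → ℤ)) (hσ : Function.Injective σ)
    (g : (Fin n → ℤ) → PowerSeries K) (S : Finset (Fin n → ℤ))
    (hS : ∀ α ∈ S, 0 ≤ α ∧ α ≠ 0 ∧ 0 ≤ σ α) (D : Fin n → ℤ) :
    cZ (∏ α ∈ S, zs (toF (σ α)) (g α)) (σ D) = cZ (∏ α ∈ S, zs (toF α) (g α)) D := by
  induction S using Finset.induction_on generalizing D with
  | empty => simp only [prod_empty, cZ_one, map_eq_zero_iff σ hσ]
  | insert α S hα ih =>
    obtain ⟨h1, h2, h3⟩ := hS α (mem_insert_self _ _)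
    have h4 : σ α ≠ 0 := (map_ne_zero_iff σ hσ).mpr h2
    obtain ⟨R, hR1, hR2⟩ := ((exists_R h1 h2 D).and (exists_R h3 h4 (σ D))).exists
    rw [prod_insert hα, prod_insert hα, cZ_zs_mul h1 h2 _ _ R hR1, cZ_zs_mul h3 h4 _ _ R hR2]
    refine sum_congr rfl fun j _ => ?_
    rw [← ih (fun β hβ => hS β (mem_insert_of_mem hβ)), map_sub, map_zsmul]

lemma fser_rescale (q s c c' : K) : PowerSeries.rescale c (fser q s c') = fser q s (c * c') := by
  ext1 k
  simp only [PowerSeries.coeff_rescale, fser, PowerSeries.coeff_mk, mul_pow, mul_assoc]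

lemma coeff_Gs (n' p j : ℕ) : PowerSeries.coeff j (Gs n' (n' + p)) =
    ss ^ (n' * j) * PowerSeries.coeff j (Gs 0 p) := by
  have : Gs n' (n' + p) = PowerSeries.rescale (ss ^ n') (Gs 0 p) := by
    simp only [Gs, map_prod, fser_rescale, prod_Ico_eq_prod_range, add_tsub_cancel_left,
      tsub_zero, zero_add, pow_add]
  rw [this, PowerSeries.coeff_rescale, pow_mul]

lemma coeff_Gs_mem {S : AddSubgroup G} (hq : qq ∈ S) (hh : hb ∈ S) (n' m j : ℕ) :
    PowerSeries.coeff j (Gs n' m) ∈ CS S.toAddSubmonoid := by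
  have hs : ss ∈ CS S.toAddSubmonoid := mon_mem_CS (S.sub_mem hh hq)
  have hq' : mon qq ∈ CS S.toAddSubmonoid := mon_mem_CS hq
  unfold Gs
  refine prod_induction _ (fun f : PowerSeries K => ∀ j, PowerSeries.coeff j f ∈
    CS S.toAddSubmonoid) (fun f g hf hg j => ?_) (fun j => ?_) (fun l _ j => ?_) j
  · rw [PowerSeries.coeff_mul]
    exact sum_mem fun p _ => mul_mem (hf _) (hg _)
  · rw [PowerSeries.coeff_one]
    split_ifs
    exacts [one_mem _, zero_mem _]
  · rw [fser, PowerSeries.coeff_mk]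
    refine mul_mem (pow_mem (pow_mem hs _) _) (prod_mem fun r _ => ?_)
    unfold ee
    split_ifs
    · exact one_mem _
    · rw [div_eq_mul_inv]
      exact mul_mem (sub_mem (one_mem _) (mul_mem hs (pow_mem hq' _)))
        (inv_mem_CS (sub_mem (one_mem _) (pow_mem hq' _)))

end Pool.Agent.MP_8be872_ag.H38
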