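import Pool.Agent.MP_8be872_ag.H38.Hahn

/-! Constant terms as sums of residues. -/

namespace Pool.Agent.MP_8be872_ag.H38

open Finset Filter

set_option linter.unusedSectionVars false

lemma lagr {F T : Type} [Field F] [DecidableEq T] (z : T → F) (In : Finset T) (hne : In.Nonempty) :
    (∀ b ∈ In, z b ≠ 0) → Set.InjOn z In → ∀ X : F, X ≠ 0 → (∀ b ∈ In, z b ≠ X) →
    ∏ b ∈ In, (1 - z b / X)⁻¹ =
      ∑ b ∈ In, (∏ b' ∈ In.erase b, (1 - z b' / z b)⁻¹) * (1 - z b / X)⁻¹ := by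
  induction hne using Finset.Nonempty.cons_induction with
  | singleton a => intro _ _ X _ _; simp
  | cons a s ha hs ih =>
    intro hz hinj X hX hX'
    have hz' : ∀ b ∈ s, z b ≠ 0 := fun b hb => hz b (mem_cons_of_mem hb)
    have hinj' : Set.InjOn z s := hinj.mono (by intro b hb; simp only [coe_cons]; exact Or.inr hb)
    have hza := hz a (mem_cons_self _ _)
    have hne : ∀ b ∈ s, z b ≠ z a := fun b hb h => by
      have := hinj (by simp [hb]) (by simp) h
      exact ha (this ▸ hb)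
    rw [prod_cons, sum_cons, ih hz' hinj' X hX (fun b hb => hX' b (mem_cons_of_mem hb)),
      erase_cons, ih hz' hinj' (z a) hza hne, mul_sum, sum_mul, ← sum_add_distrib]
    refine sum_congr rfl fun b hb => ?_
    have hab : a ≠ b := fun h => ha (h ▸ hb)
    have : (cons a s ha).erase b = insert a (s.erase b) := by
      rw [cons_eq_insert, erase_insert_of_ne hab]
    rw [this, prod_insert (by simp [ha])]
    have h1 := hz' b hb
    have h2 : X - z a ≠ 0 := sub_ne_zero.mpr (hX' a (mem_cons_self _ _)).symm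
    have h3 : X - z b ≠ 0 := sub_ne_zero.mpr (hX' b (mem_cons_of_mem hb)).symm
    have h4 : z a - z b ≠ 0 := sub_ne_zero.mpr (hne b hb).symm
    have h5 : z b - z a ≠ 0 := sub_ne_zero.mpr (hne b hb)
    rw [one_sub_div hX, one_sub_div hX, one_sub_div hza, one_sub_div h1]
    field_simp
    ring

/-- `f` is regular in the variable `ξ` and takes the value `c` at `ξ = z`. -/
def Dv (π : G →+ ℤ) (ξ z : G) (f c : K) : Prop :=
  c ∈ CS π.ker.toAddSubmonoid ∧ f ∈ CS (Ge0 π) ∧ ∃ h ∈ CS (Ge0 π), f - c = (mon ξ - mon z) * h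

lemma ker_le_Ge0 {π : G →+ ℤ} {f : K} (h : f ∈ CS π.ker.toAddSubmonoid) : f ∈ CS (Ge0 π) :=
  Sup_mono (S := π.ker.toAddSubmonoid) (T := Ge0 π) (fun g hg => by
    have : π g = 0 := hg
    exact this.ge) h

lemma Dv.mul {π : G →+ ℤ} {ξ z : G} {f c f' c' : K} (h : Dv π ξ z f c) (h' : Dv π ξ z f' c') :
    Dv π ξ z (f * f') (c * c') := by
  obtain ⟨h1, h2, p, hp, h3⟩ := h
  obtain ⟨h1', h2', p', hp', h3'⟩ := h'
  refine ⟨mul_mem h1 h1', mul_mem h2 h2', p * f' + c * p',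
    add_mem (mul_mem hp h2') (mul_mem (ker_le_Ge0 h1) hp'), ?_⟩
  linear_combination f' * h3 + c * h3'

lemma Dv.one {π : G →+ ℤ} {ξ z : G} : Dv π ξ z 1 1 :=
  ⟨one_mem _, one_mem _, 0, zero_mem _, by simp⟩

lemma Dv.prod {π : G →+ ℤ} {ξ z : G} {T : Type} (s : Finset T) {f c : T → K}
    (h : ∀ t ∈ s, Dv π ξ z (f t) (c t)) : Dv π ξ z (∏ t ∈ s, f t) (∏ t ∈ s, c t) := by
  classical
  induction s using Finset.induction_on with
  | empty => simpa using Dv.one
  | insert a s ha ih =>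
    rw [prod_insert ha, prod_insert ha]
    exact (h a (mem_insert_self _ _)).mul (ih fun t ht => h t (mem_insert_of_mem ht))

lemma Dv.var {π : G →+ ℤ} {ξ z : G} (hξ : π ξ = 1) (hz : π z = 0) (M : ℕ) :
    Dv π ξ z (mon (M • ξ)) (mon (M • z)) := by
  have : Dv π ξ z (mon ξ) (mon z) :=
    ⟨mon_mem_CS hz, mon_mem_CS (show (0 : ℤ) ≤ π ξ by omega), 1, one_mem _, by simp⟩
  have h := Dv.prod (range M) (f := fun _ => mon ξ) (c := fun _ => mon z) fun _ _ => this
  simpa [mon_nsmul] using h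

lemma Dv.out {π : G →+ ℤ} {ξ z z' : G} (hξ : π ξ = 1) (hz : π z = 0) (hz' : π z' = 0)
    (h1 : 0 < z - ξ) (h2 : 0 < ξ - z') :
    Dv π ξ z (1 - mon (ξ - z'))⁻¹ (1 - mon (z - z'))⁻¹ := by
  have h3 : 0 < z - z' := by simpa using add_pos h1 h2
  have a1 : (1 - mon (z - z'))⁻¹ ∈ CS π.ker.toAddSubmonoid :=
    geo_mem h3 (show π (z - z') = 0 by simp [hz, hz'])
  have a2 : (1 - mon (ξ - z'))⁻¹ ∈ CS (Ge0 π) :=
    geo_mem h2 (show (0 : ℤ) ≤ π (ξ - z') by simp [hξ, hz'])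
  refine ⟨a1, a2, mon (-z') * (1 - mon (ξ - z'))⁻¹ * (1 - mon (z - z'))⁻¹,
    mul_mem (mul_mem (mon_mem_CS (show (0 : ℤ) ≤ π (-z') by simp [hz'])) a2) (ker_le_Ge0 a1), ?_⟩
  have b1 := one_sub_mon_ne h2.ne'
  have b2 := one_sub_mon_ne h3.ne'
  have b3 := mon_ne z'
  have e1 : mon ξ = mon (ξ - z') * mon z' := by rw [← mon_add]; simp
  have e2 : mon z = mon (z - z') * mon z' := by rw [← mon_add]; simp
  rw [mon_neg, e1, e2]
  field_simp
  ring

lemma res_zero_of_Ge {π : G →+ ℤ} {f : K} (h : f ∈ Sup (Ge π 1)) : res π.ker f = 0 :=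
  res_eq_zero (Sup_mono (by
    intro g hg hk
    have h1 : 1 ≤ π g := hg
    have h2 : π g = 0 := hk
    omega) h)

lemma res_zero_of_Ge' {π : G →+ ℤ} {f : K} (h : f ∈ Sup (Ge (-π) 1)) : res π.ker f = 0 :=
  res_eq_zero (Sup_mono (by
    intro g hg hk
    have h1 : 1 ≤ -π g := hg
    have h2 : π g = 0 := hk
    omega) h)

lemma Dv.res {π : G →+ ℤ} {ξ z : G} (hξ : π ξ = 1) (hz : π z = 0) (h1 : 0 < z - ξ) {f c : K}
    (h : Dv π ξ z f c) : res π.ker (f * (1 - mon (z - ξ))⁻¹) = c := by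
  obtain ⟨hc, -, p, hp, h3⟩ := h
  have b1 := one_sub_mon_ne h1.ne'
  have e1 : mon z = mon (z - ξ) * mon ξ := by rw [← mon_add]; simp
  have e : f * (1 - mon (z - ξ))⁻¹ =
      c + c * (mon (z - ξ) * (1 - mon (z - ξ))⁻¹) + mon ξ * p := by
    rw [show f = c + (mon ξ - mon z) * p by linear_combination h3, e1]
    field_simp
    ring
  have a1 : (1 - mon (z - ξ))⁻¹ ∈ Sup (Ge (-π) 0) :=
    geo_mem (S := Ge0 (-π)) h1 (show (0 : ℤ) ≤ -π (z - ξ) by simp [hξ, hz])
  have a2 : mon (z - ξ) ∈ Sup (Ge (-π) 1) :=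
    mon_mem (show (1 : ℤ) ≤ -π (z - ξ) by simp [hξ, hz])
  have a3 : mon ξ ∈ Sup (Ge π 1) := mon_mem (show (1 : ℤ) ≤ π ξ by omega)
  rw [e, map_add, map_add, res_of_mem (S := π.ker) hc, res_mul (S := π.ker) hc,
    res_zero_of_Ge' (by simpa using mul_Ge a2 a1), res_zero_of_Ge (by simpa using mul_Ge a3 hp)]
  simp

/-- pole part in one variable -/
noncomputable def poles {T : Type} (z z' : T → G) (In Out : Finset T) (ξ : G) : K :=
  (∏ b ∈ In, (1 - mon (z b - ξ))⁻¹) * ∏ c ∈ Out, (1 - mon (ξ - z' c))⁻¹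

/-- one variable -/
lemma sv {T : Type} [DecidableEq T] {π : G →+ ℤ} {ξ : G} {z z' : T → G} (In Out : Finset T)
    (hξ : π ξ = 1) (hz : ∀ b, π (z b) = 0) (hz' : ∀ b, π (z' b) = 0)
    (h1 : ∀ b, 0 < z b - ξ) (h2 : ∀ b, 0 < ξ - z' b) (hinj : Function.Injective z)
    {M : ℤ} (hM : 1 ≤ M) :
    res π.ker (mon (M • ξ) * poles z z' In Out ξ) =
      ∑ b ∈ In, mon (M • z b) * poles z z' (In.erase b) Out (z b) := by
  obtain ⟨M, rfl⟩ := Int.eq_ofNat_of_zero_le (show 0 ≤ M by omega)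
  simp only [natCast_zsmul]
  have hout : ∏ c ∈ Out, (1 - mon (ξ - z' c))⁻¹ ∈ CS (Ge0 π) :=
    prod_mem fun c _ => geo_mem (h2 c) (show (0 : ℤ) ≤ π (ξ - z' c) by simp [hξ, hz'])
  rcases In.eq_empty_or_nonempty with rfl | hne
  · have a3 : mon (M • ξ) ∈ Sup (Ge π 1) := mon_mem (show (1 : ℤ) ≤ π (M • ξ) by simpa [hξ] using hM)
    simp only [poles, prod_empty, one_mul, sum_empty]
    exact res_zero_of_Ge (by simpa using mul_Ge a3 hout)
  · have hl := lagr (fun b => mon (z b)) In hne (fun b _ => mon_ne _)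
      (fun a _ b _ h => hinj (mon_inj h)) (mon ξ) (mon_ne _)
      (fun b _ h => (h1 b).ne' (sub_eq_zero.mpr (mon_inj h)))
    simp only [← mon_sub] at hl
    rw [poles, hl, sum_mul, mul_sum, map_sum]
    refine sum_congr rfl fun b _ => ?_
    have hc : ∏ b' ∈ In.erase b, (1 - mon (z b' - z b))⁻¹ ∈ CS π.ker.toAddSubmonoid :=
      prod_mem fun c _ => geo_mem' (show π (z c - z b) = 0 by simp [hz])
        (show π (-(z c - z b)) = 0 by simp [hz])
    have hd := ((Dv.var hξ (hz b) M).mul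
      (Dv.prod Out fun c _ => Dv.out hξ (hz b) (hz' c) (h1 b) (h2 c))).res hξ (hz b) (h1 b)
    rw [show ∀ a b c d : K, a * (b * c * d) = b * (a * d * c) from fun a b c d => by ring,
      res_mul (S := π.ker) hc, hd, poles]
    ring

/-- common kernel -/
def Ker {α : Type} (π : α → G →+ ℤ) (A : Finset α) : AddSubgroup G where
  carrier := {g | ∀ a ∈ A, π a g = 0}
  zero_mem' := by simp
  add_mem' := fun {x y} hx hy a ha => by simp [hx a ha, hy a ha]
  neg_mem' := fun {x} hx a ha => by simp [hx a ha]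

lemma res_prod {α : Type} [DecidableEq α] (π : α → G →+ ℤ) (f : α → K)
    (hf : ∀ a a', a ≠ a' → f a ∈ Sup (π a').ker) (A : Finset α) :
    res (Ker π A) (∏ a ∈ A, f a) = ∏ a ∈ A, res (π a).ker (f a) := by
  induction A using Finset.induction_on with
  | empty =>
    simp only [prod_empty]
    exact res_of_mem (mon_mem (Ker π ∅).zero_mem)
  | insert a A ha ih =>
    have e : (Ker π (insert a A) : Set G) = (Ker π A : Set G) ∩ (π a).ker := by
      ext g
      simp only [Ker, SetLike.mem_coe, Set.mem_inter_iff, AddMonoidHom.mem_ker]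
      change (∀ b ∈ insert a A, π b g = 0) ↔ (∀ b ∈ A, π b g = 0) ∧ _
      simp [and_comm]
    have h1 : ∏ b ∈ A, f b ∈ CS (π a).ker.toAddSubmonoid :=
      prod_mem fun b hb => hf b a fun h => ha (h ▸ hb)
    have h2 : res (π a).ker (f a) ∈ Sup (Ker π A) := by
      apply res_mem_of
      intro g hg b hb
      exact hf a b (fun h => ha (h ▸ hb)) hg
    rw [prod_insert ha, prod_insert ha, e, ← res_res, mul_comm, res_mul (S := (π a).ker) h1,
      mul_comm, res_mul h2, ih]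

/-- Data for taking residues in several variables. -/
structure Vars (α T : Type) [DecidableEq α] where
  π : α → G →+ ℤ
  ξ : α → G
  z : T → G
  z' : T → G
  hξ : ∀ a a', π a (ξ a') = if a = a' then 1 else 0
  hz : ∀ a b, π a (z b) = 0
  hz' : ∀ a b, π a (z' b) = 0
  h1 : ∀ a b, 0 < z b - ξ a
  h2 : ∀ a b, 0 < ξ a - z' b
  hinj : Function.Injective z
  q1 : ∀ a, co 0 (ξ a) = 0
  q2 : ∀ b, co 0 (z b) = 0
  q3 : ∀ b, co 0 (z' b) = 0

variable {α T : Type} [DecidableEq α] [Fintype α] [DecidableEq T]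

/-- substitution of the poles for the variables -/
noncomputable def Vars.sub (V : Vars α T) (β : α → T) : G →+ G where
  toFun g := g + ∑ a, V.π a g • (V.z (β a) - V.ξ a)
  map_zero' := by simp
  map_add' g h := by simp only [map_add, add_smul, sum_add_distrib]; abel

lemma Vars.sub_apply (V : Vars α T) (β : α → T) (g : G) :
    V.sub β g = g + ∑ a, V.π a g • (V.z (β a) - V.ξ a) := rfl

lemma Vars.sub_var (V : Vars α T) (β : α → T) (a : α) : V.sub β (V.ξ a) = V.z (β a) := by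
  simp [V.sub_apply, V.hξ]

lemma Vars.sub_ker (V : Vars α T) (β : α → T) {g : G} (h : ∀ a, V.π a g = 0) :
    V.sub β g = g := by
  simp [V.sub_apply, h]

lemma Vars.co_sub (V : Vars α T) (β : α → T) (g : G) : co 0 (V.sub β g) = co 0 g := by
  simp [V.sub_apply, map_sum, V.q1, V.q2]

lemma Vars.mv_mon (V : Vars α T) (In Out : α → Finset T) (g : G) {M : ℤ}
    (hM : ∀ a, 1 ≤ M + V.π a g) :
    res (Ker V.π univ) (mon (∑ a, M • V.ξ a) * (mon g * ∏ a, poles V.z V.z' (In a) (Out a) (V.ξ a)))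
      = ∑ β ∈ Fintype.piFinset In, mon (∑ a, M • V.z (β a)) * (mon (V.sub β g) *
        ∏ a, poles V.z V.z' ((In a).erase (β a)) (Out a) (V.z (β a))) := by
  set g0 := g - ∑ a, V.π a g • V.ξ a with hg0
  have h0 : g0 ∈ Ker V.π univ := fun a _ => by simp [hg0, map_sum, V.hξ]
  have e1 : mon (∑ a, M • V.ξ a) * (mon g * ∏ a, poles V.z V.z' (In a) (Out a) (V.ξ a)) =
      mon g0 * ∏ a, (mon ((M + V.π a g) • V.ξ a) * poles V.z V.z' (In a) (Out a) (V.ξ a)) := by
    rw [prod_mul_distrib, ← mon_sum, ← mul_assoc, ← mul_assoc, ← mon_add, ← mon_add]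
    congr 2
    simp only [hg0, add_smul, sum_add_distrib]
    abel
  rw [e1, res_mul (mon_mem h0), res_prod]
  · simp_rw [fun a => sv (In a) (Out a) (by simpa using V.hξ a a) (V.hz a) (V.hz' a) (V.h1 a)
      (V.h2 a) V.hinj (hM a)]
    rw [prod_univ_sum, mul_sum]
    refine sum_congr rfl fun β _ => ?_
    rw [prod_mul_distrib, ← mon_sum, ← mul_assoc, ← mul_assoc, ← mon_add, ← mon_add]
    congr 2
    rw [V.sub_apply]
    simp only [hg0, add_smul, sum_add_distrib, zsmul_sub, sum_sub_distrib]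
    abel
  · intro a a' hne
    have hx : V.π a' (V.ξ a) = 0 := by simp [V.hξ, hne.symm]
    change _ ∈ CS (V.π a').ker.toAddSubmonoid
    refine mul_mem (mon_mem_CS (show V.π a' _ = 0 by simp [hx])) (mul_mem ?_ ?_)
    · exact prod_mem fun b _ => geo_mem (V.h1 a b) (show V.π a' _ = 0 by simp [hx, V.hz])
    · exact prod_mem fun b _ => geo_mem (V.h2 a b) (show V.π a' _ = 0 by simp [hx, V.hz'])

end Pool.Agent.MP_8be872_ag.H38
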