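import Pool.Agent.MP_8be872_ag.H38.Defs

/-! Interface statements. -/

namespace Pool.Agent.MP_8be872_ag.H38

open Finset

section Dual

variable {F ι : Type} [Field F] [DecidableEq ι]

open Classical in
/-- the factor `(1 - s w)/(1 - w)`, a trivial weight being ignored -/
noncomputable def ee (s w : F) : F := if w = 1 then 1 else (1 - s * w) / (1 - w)

noncomputable def term (q s : F) (I J : Finset ι) (X Z : ι → F) (γ : ι → ℕ) : F :=
  (∏ a ∈ I, ∏ a' ∈ I, ∏ l ∈ range (γ a'), ee s (X a * q ^ γ a / (X a' * q ^ l))) *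
    ∏ a ∈ I, ∏ c ∈ J, ∏ l ∈ range (γ a), ee s (X a * Z c * q ^ (l + 1))

noncomputable def Aser (q s : F) (I J : Finset ι) (X Z : ι → F) : PowerSeries F :=
  PowerSeries.mk fun k => ∑ γ ∈ piAntidiag I k, term q s I J X Z γ

/-- the q-binomial series at `c u` -/
noncomputable def fser (q s c : F) : PowerSeries F :=
  PowerSeries.mk fun k => c ^ k * ∏ l ∈ range k, ee s (q ^ (l + 1))

end Dual

/-- The duality transformation (Langer-Schlosser-Warnaar, Kajihara-Noumi type). -/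
def DualStmt : Prop :=
  ∀ (F ι : Type) [Field F] [DecidableEq ι] (q s : F) (I J : Finset ι) (X Z : ι → F),
    q ≠ 0 → (∀ r : ℤ, q ^ r = 1 → r = 0) → (∀ a ∈ I, X a ≠ 0) → (∀ c ∈ J, Z c ≠ 0) →
    (∀ a ∈ I, ∀ a' ∈ I, ∀ r : ℤ, X a = X a' * q ^ r → a = a') →
    (∀ c ∈ J, ∀ c' ∈ J, ∀ r : ℤ, Z c = Z c' * q ^ r → c = c') →
    (∀ a ∈ I, ∀ c ∈ J, ∀ r : ℤ, X a * Z c * q ^ r ≠ 1) →
    Aser q s I J X Z * ∏ j ∈ range J.card, fser q s (s ^ j) =
      Aser q s J I Z X * ∏ j ∈ range I.card, fser q s (s ^ j)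

variable (Q : Quiv)

/-- simple reflection on the root lattice -/
def refl (i : Fin Q.n) (β : Fin Q.n → ℤ) : Fin Q.n → ℤ :=
  β - Pi.single i (form Q β (Pi.single i 1))

/-- dimension vectors reached from `0` by increasing reflections -/
inductive Up (w : Fin Q.n → ℕ) : (Fin Q.n → ℤ) → Prop
  | zero : Up w 0
  | step (u : Fin Q.n → ℤ) (i : Fin Q.n) : Up w u → 0 < pairing Q w u (Pi.single i 1) →
      Up w (u + Pi.single i (pairing Q w u (Pi.single i 1)))

/-- positive real roots negative on `μ`, as integer vectors -/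
def negZ (w : Fin Q.n → ℕ) (u : Fin Q.n → ℤ) : Set (Fin Q.n → ℤ) :=
  {α | 0 ≤ α ∧ IsRealRoot Q α ∧ pairing Q w u α < 0}

/-- Weyl group combinatorics. -/
def WeylStmt : Prop :=
  ∀ (Q : Quiv), (∀ e, Q.hd e ≠ Q.tl e) → ∀ w : Fin Q.n → ℕ,
    (∀ u, InOrbit Q w u → Up Q w u) ∧ negZ Q w 0 = ∅ ∧ (∀ α, IsRealRoot Q α → α ≠ 0) ∧
    ∀ (u : Fin Q.n → ℤ) (i : Fin Q.n), 0 < pairing Q w u (Pi.single i 1) →
      negZ Q w (u + Pi.single i (pairing Q w u (Pi.single i 1))) =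
        insert (Pi.single i 1) (refl Q i '' negZ Q w u)

end Pool.Agent.MP_8be872_ag.H38
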