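import Pool.Agent.MP_8be872_ag.H38.Glob

/-! Splitting off one vertex. -/

namespace Pool.Agent.MP_8be872_ag.H38

open Finset Filter

set_option maxHeartbeats 400000

variable (Q : Quiv) (w v : Fin Q.n → ℕ) (i : Fin Q.n)

def adj : Finset (Fin Q.ne) := univ.filter fun e => Q.hd e = i ∨ Q.tl e = i

def oth (e : Fin Q.ne) : Fin Q.n := if Q.hd e = i then Q.tl e else Q.hd e

abbrev TT := (Σ _ : Fin Q.ne, ℕ) ⊕ ℕ

def Ts : Finset (TT Q) := ((adj Q i).sigma fun e => range (v (oth Q i e))).disjSum (range (w i))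

noncomputable def kap : TT Q → G
  | .inl p => if Q.hd p.1 = i then tau - tE p.1 else tau + tE p.1
  | .inr k => tau + uF i k

noncomputable def xp : TT Q → G
  | .inl p => xV (oth Q i p.1) p.2
  | .inr _ => 0

noncomputable def yy (b : TT Q) : G := kap Q i b + xp Q i b

def eT (d : Fin Q.n → ℕ → ℤ) : TT Q → ℤ
  | .inl p => d (oth Q i p.1) p.2
  | .inr _ => 0

noncomputable def Rest (d : Fin Q.n → ℕ → ℤ) : K :=
  (∏ e ∈ (adj Q i)ᶜ, ∏ a ∈ range (v (Q.tl e)), ∏ b ∈ range (v (Q.hd e)),
      Th (tE e - tau + xV (Q.hd e) b - xV (Q.tl e) a) (d (Q.hd e) b - d (Q.tl e) a)) *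
    (∏ j ∈ univ.erase i, ∏ k ∈ range (w j), ∏ a ∈ range (v j), Th (xV j a - uF j k - tau) (d j a)) *
    ∏ j ∈ univ.erase i, ∏ a ∈ range (v j), ∏ b ∈ range (v j),
      (Th (xV j a - xV j b) (d j a - d j b))⁻¹

variable {Q} (hQ : ∀ e, Q.hd e ≠ Q.tl e)
include hQ

lemma oth_ne (e : Fin Q.ne) : oth Q i e ≠ i := by
  unfold oth
  split_ifs with h
  · exact fun H => hQ e (h.trans H.symm)
  · exact h

lemma split (d : Fin Q.n → ℕ → ℤ) : FI Q w v d = Rest Q w v i d *
    (ss ^ (∑ e with Q.tl e = i, (v (Q.hd e) * deg Q v d i - v i * deg Q v d (Q.hd e))) *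
      InF (yy Q i) (Ts Q w v i) (eT Q i d) (fun a : Fin (v i) => d i a) (fun a => xV i a)) := by
  have h1 : ∀ e ∈ adj Q i, ∏ a ∈ range (v (Q.tl e)), ∏ b ∈ range (v (Q.hd e)),
      Th (tE e - tau + xV (Q.hd e) b - xV (Q.tl e) a) (d (Q.hd e) b - d (Q.tl e) a) =
      ss ^ (if Q.tl e = i then v (Q.hd e) * deg Q v d i - v i * deg Q v d (Q.hd e) else 0) *
      ∏ a ∈ range (v i), ∏ b ∈ range (v (oth Q i e)),
        Th (xV i a - yy Q i (.inl ⟨e, b⟩)) (d i a - eT Q i d (.inl ⟨e, b⟩)) := by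
    intro e he
    by_cases h : Q.hd e = i
    · have h' : Q.tl e ≠ i := fun H => hQ e (h.trans H.symm)
      simp only [yy, kap, xp, eT, oth, if_pos h, if_neg h', zpow_zero, one_mul]
      rw [Finset.prod_comm, h]
      refine prod_congr rfl fun a _ => prod_congr rfl fun b _ => ?_
      congr 1
      abel
    · have h' : Q.tl e = i := ((mem_filter.mp he).2).resolve_left h
      simp only [yy, kap, xp, eT, oth, if_neg h, h', if_true]
      have : (v (Q.hd e) : ℤ) * deg Q v d i - v i * deg Q v d (Q.hd e) =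
          ∑ a ∈ range (v i), ∑ b ∈ range (v (Q.hd e)), (d i a - d (Q.hd e) b) := by
        simp only [sum_sub_distrib, sum_const, card_range, nsmul_eq_mul, ← mul_sum, deg]
      rw [this]
      simp only [← zpow_sum' ss_ne, ← prod_mul_distrib]
      refine prod_congr rfl fun a _ => prod_congr rfl fun b _ => ?_
      rw [mul_comm, ← Th_flip, neg_sub]
      congr 1
      simp only [hb]
      abel
  have h2 : ∑ e with Q.tl e = i, ((v (Q.hd e) : ℤ) * deg Q v d i - v i * deg Q v d (Q.hd e)) =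
      ∑ e ∈ adj Q i,
        if Q.tl e = i then v (Q.hd e) * deg Q v d i - v i * deg Q v d (Q.hd e) else 0 := by
    rw [← sum_filter, adj, filter_filter]
    exact sum_congr (filter_congr fun e _ => by tauto) fun _ _ => rfl
  have h3 : ∀ a k, Th (xV i a - yy Q i (.inr k)) (d i a - eT Q i d (.inr k)) =
      Th (xV i a - uF i k - tau) (d i a) := fun a k => by
    simp only [yy, kap, xp, eT, sub_zero, add_zero]
    congr 1
    abel
  rw [FI, Rest, InF, ← prod_mul_prod_compl (adj Q i), prod_congr rfl h1,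
    ← mul_prod_erase univ _ (mem_univ i), ← mul_prod_erase univ _ (mem_univ i), h2,
    ← zpow_sum' ss_ne,
    ← prod_range (fun a => ∏ b ∈ Ts Q w v i, Th (xV i a - yy Q i b) (d i a - eT Q i d b)),
    prod_range (fun a => ∏ b ∈ range (v i), (Th (xV i a - xV i b) (d i a - d i b))⁻¹)]
  simp only [prod_range (n := v i) (fun b => (Th (xV i _ - xV i b) (d i _ - d i b))⁻¹), Ts,
    prod_disjSum, prod_sigma, prod_mul_distrib, h3]
  rw [Finset.prod_comm (s := adj Q i), Finset.prod_comm (s := range (w i))]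
  ring

lemma Ts_update (n : ℕ) : Ts Q w (Function.update v i n) i = Ts Q w v i := by
  simp only [Ts, Function.update_of_ne (oth_ne i hQ _)]

lemma eT_update (d : Fin Q.n → ℕ → ℤ) (f : ℕ → ℤ) :
    eT Q i (Function.update d i f) = eT Q i d := by
  ext (p | k)
  · simp only [eT, Function.update_of_ne (oth_ne i hQ _)]
  · rfl

omit hQ in
lemma Rest_update (n : ℕ) (d : Fin Q.n → ℕ → ℤ) (f : ℕ → ℤ) :
    Rest Q w (Function.update v i n) i (Function.update d i f) = Rest Q w v i d := by
  unfold Rest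
  refine congrArg₂ (· * ·) (congrArg₂ (· * ·) ?_ ?_) ?_
  · refine prod_congr rfl fun e he => ?_
    have : Q.hd e ≠ i ∧ Q.tl e ≠ i := by simpa [adj] using he
    simp only [Function.update_of_ne this.1, Function.update_of_ne this.2]
  · refine prod_congr rfl fun j hj => ?_
    simp only [Function.update_of_ne (ne_of_mem_erase hj)]
  · refine prod_congr rfl fun j hj => ?_
    simp only [Function.update_of_ne (ne_of_mem_erase hj)]

omit hQ in
lemma deg_update_ne (n : ℕ) (d : Fin Q.n → ℕ → ℤ) (f : ℕ → ℤ) {j : Fin Q.n} (hj : j ≠ i) :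
    deg Q (Function.update v i n) (Function.update d i f) j = deg Q v d j := by
  simp only [deg, Function.update_of_ne hj]

/-- extension by zero -/
def ext0 {n : ℕ} (f : Fin n → ℤ) (a : ℕ) : ℤ := if h : a < n then f ⟨a, h⟩ else 0

omit hQ in
lemma ext0_val {n : ℕ} (f : Fin n → ℤ) (a : Fin n) : ext0 f a = f a := by simp [ext0]

omit hQ in
lemma deg_update_self {n : ℕ} (d : Fin Q.n → ℕ → ℤ) (f : Fin n → ℤ) :
    deg Q (Function.update v i n) (Function.update d i (ext0 f)) i = ∑ a, f a := by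
  simp only [deg, Function.update_self, sum_range, ext0_val]

lemma split_update {n : ℕ} (d : Fin Q.n → ℕ → ℤ) (f : Fin n → ℤ) :
    FI Q w (Function.update v i n) (Function.update d i (ext0 f)) = Rest Q w v i d *
    (ss ^ (∑ e with Q.tl e = i, (v (Q.hd e) * ∑ a, f a - n * deg Q v d (Q.hd e))) *
      InF (yy Q i) (Ts Q w v i) (eT Q i d) f (fun a => xV i a)) := by
  have h := split w (Function.update v i n) i hQ (Function.update d i (ext0 f))
  rw [Rest_update, Ts_update _ _ _ hQ, eT_update _ hQ, deg_update_self] at h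
  rw [h]
  congr 2
  · congr 1
    refine sum_congr rfl fun e he => ?_
    have : Q.hd e ≠ i := fun H => hQ e (H.trans (mem_filter.mp he).2.symm)
    rw [deg_update_ne _ _ _ _ _ this, Function.update_of_ne this, Function.update_self]
  · have : ∀ (n' : ℕ) (hn : n' = n), InF (yy Q i) (Ts Q w v i) (eT Q i d)
        (fun a : Fin n' => ext0 f a) (fun a => xV i a) =
        InF (yy Q i) (Ts Q w v i) (eT Q i d) f (fun a => xV i a) := by
      rintro _ rfl
      simp only [ext0_val]
    rw [← this _ (Function.update_self i n v)]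
    simp only [Function.update_self]

omit hQ in
lemma InF_flip {α T : Type} [Fintype α] (z : T → G) (Ts : Finset T) (e : T → ℤ) (d : α → ℤ)
    (x : α → G) : InF z Ts e d x =
      ss ^ (Fintype.card α * ∑ b ∈ Ts, e b - Ts.card * ∑ a, d a) *
        InF (fun b => hb - z b) Ts (fun b => -e b) (fun a => -d a) (fun a => -x a) := by
  have : (Fintype.card α : ℤ) * ∑ b ∈ Ts, e b - Ts.card * ∑ a, d a =
      ∑ a, ∑ b ∈ Ts, (e b - d a) := by
    simp only [sum_sub_distrib, sum_const, card_univ, nsmul_eq_mul, ← mul_sum]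
  rw [InF, InF, this, ← mul_assoc]
  refine congrArg₂ (· * ·) ?_ ?_
  · simp only [← zpow_sum' ss_ne, ← prod_mul_distrib]
    refine prod_congr rfl fun a _ => prod_congr rfl fun b _ => ?_
    rw [show -x a - (hb - z b) = -hb - (x a - z b) by abel,
      show -d a - -e b = -(d a - e b) by ring, Th_flip, mul_left_comm, ← zpow_add₀ ss_ne]
    simp
  · rw [Finset.prod_comm]
    refine prod_congr rfl fun a _ => prod_congr rfl fun b _ => ?_
    congr 2 <;> abel

lemma co_ix_yy (a : ℕ) (b : TT Q) : co (ix i a) (yy Q i b) = 0 := by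
  rcases b with p | k
  · have : ¬((oth Q i p.1 : ℕ) = i) := fun H => oth_ne i hQ _ (Fin.ext H)
    simp only [yy, kap, xp]
    split_ifs <;> simp [co_ix_tau, co_ix_tE, co_ix_xV, this]
  · simp [yy, kap, xp, co_ix_tau, co_ix_uF]

omit hQ

lemma co0_yy (b : TT Q) : co 0 (yy Q i b) = 0 := by
  rcases b with p | k
  · simp only [yy, kap, xp]
    split_ifs <;> simp [co0_tau, co0_tE, co0_xV]
  · simp [yy, kap, xp, co0_tau, co0_uF]

lemma co1_yy (b : TT Q) : co 1 (yy Q i b) = 1 := by
  rcases b with p | k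
  · simp only [yy, kap, xp]
    split_ifs <;> simp [co1_tau, co1_tE, co1_xV]
  · simp [yy, kap, xp, co1_tau, co1_uF]

lemma yy_inj : Function.Injective (yy Q i) := by
  have c1 : ∀ e e' : ℕ, co (3 * e + 2) (tE e') = if e' = e then 1 else 0 := fun e e' => by
    simp [tE, co_gen]
  have c2 : ∀ e : ℕ, co (3 * e + 2) tau = 0 := fun e => by simp [tau, co_gen]
  have c3 : ∀ e j a : ℕ, co (3 * e + 2) (xV j a) = 0 := fun e j a => by
    rw [xV, co_gen, if_neg (by omega)]
  have c4 : ∀ e j a : ℕ, co (3 * e + 2) (uF j a) = 0 := fun e j a => by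
    rw [uF, co_gen, if_neg (by omega)]
  have c5 : ∀ p : Σ _ : Fin Q.ne, ℕ, co (3 * p.1 + 2) (yy Q i (.inl p)) ≠ 0 := fun p => by
    simp only [yy, kap, xp]
    split_ifs <;> simp [c1, c2, c3]
  rintro (⟨e, b⟩ | k) (⟨e', b'⟩ | k') h
  · have he : e' = e := by
      by_contra hne
      have h1 := c5 ⟨e, b⟩
      have : ¬((e' : ℕ) = e) := fun H => hne (Fin.ext H)
      rw [h] at h1
      simp only [yy, kap, xp] at h1
      split_ifs at h1 <;> simp [c1, c2, c3, this] at h1
    subst he
    have := congrArg (co (ix (oth Q i e') b)) (add_left_cancel h)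
    simp only [xp, co_ix_xV, and_self, if_true, true_and] at this
    have hb : b' = b := by
      by_contra hne
      simp [hne] at this
    rw [hb]
  · have h1 := c5 ⟨e, b⟩
    rw [h] at h1
    simp [yy, kap, xp, c2, c4] at h1
  · have h1 := c5 ⟨e', b'⟩
    rw [← h] at h1
    simp [yy, kap, xp, c2, c4] at h1
  · have := congrArg (co (3 * Nat.pair i k + 3)) (add_left_cancel (add_right_cancel h))
    simp only [uF, co_gen, if_true] at this
    by_contra hne
    have : k' ≠ k := fun H => hne (by rw [H])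
    simp_all

variable (Q) in
/-- variables for the incoming poles -/
noncomputable def VA (hQ : ∀ e, Q.hd e ≠ Q.tl e) (n : ℕ) : Vars2 (Fin n) (TT Q) where
  π a := co (ix i a)
  ξ a := xV i a
  z := yy Q i
  z' b := yy Q i b - hb
  hξ a a' := by simp [co_ix_xV, Fin.ext_iff, eq_comm]
  hz a b := co_ix_yy i hQ a b
  hz' a b := by simp [co_ix_yy i hQ, co_ix_hb]
  h1 a b := pos_of_co1 (by simp [co0_yy, co0_xV]) (by simp [co1_yy, co1_xV])
  h2 a b := pos_of_co1 (by simp [co0_yy, co0_xV, co0_hb]) (by simp [co1_yy, co1_xV, co1_hb])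
  hinj := yy_inj i
  q1 a := co0_xV _ _
  q2 := co0_yy i
  q3 b := by simp [co0_yy, co0_hb]
  hzz b := rfl
  πq a := co_ix_qq _ _
  πh a := co_ix_hb _ _
  hz2 b b' h := by simpa [co1_yy, co1_hb] using congrArg (co 1) h

variable (Q) in
/-- variables for the outgoing poles -/
noncomputable def VB (hQ : ∀ e, Q.hd e ≠ Q.tl e) (n : ℕ) : Vars2 (Fin n) (TT Q) where
  π a := -co (ix i a)
  ξ a := -xV i a
  z b := hb - yy Q i b
  z' b := -yy Q i b
  hξ a a' := by simp [co_ix_xV, Fin.ext_iff, eq_comm]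
  hz a b := by simp [co_ix_yy i hQ, co_ix_hb]
  hz' a b := by simp [co_ix_yy i hQ]
  h1 a b := pos_of_co1 (by simp [co0_yy, co0_xV, co0_hb]) (by simp [co1_yy, co1_xV, co1_hb])
  h2 a b := pos_of_co1 (by simp [co0_yy, co0_xV]) (by simp [co1_yy, co1_xV])
  hinj a b h := yy_inj i (sub_right_injective h)
  q1 a := by simp [co0_xV]
  q2 b := by simp [co0_yy, co0_hb]
  q3 b := by simp [co0_yy]
  hzz b := by abel
  πq a := by simp [co_ix_qq]
  πh a := by simp [co_ix_hb]
  hz2 b b' h := by simpa [co1_yy, co1_hb] using congrArg (co 1) h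

end Pool.Agent.MP_8be872_ag.H38
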