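import Pool.Agent.MP_8be872_ag.H38.Split
import Pool.Agent.MP_8be872_ag.H38.Prod

/-! The reflection at one vertex, the other degrees being fixed. -/

namespace Pool.Agent.MP_8be872_ag.H38

open Finset Filter

set_option maxHeartbeats 400000

variable {Q : Quiv} (w v : Fin Q.n → ℕ) (i : Fin Q.n) (hQ : ∀ e, Q.hd e ≠ Q.tl e)
variable {ι : Type} {𝓕 : Filter ι}

lemma form_comm (α β : Fin Q.n → ℤ) : form Q α β = form Q β α := by
  unfold form
  congr 1
  · congr 1
    exact sum_congr rfl fun _ _ => mul_comm _ _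
  · exact sum_congr rfl fun _ _ => by ring

include hQ in
lemma form_single (β : Fin Q.n → ℤ) :
    form Q β (Pi.single i 1) = 2 * β i - ∑ e ∈ adj Q i, β (oth Q i e) := by
  unfold form
  congr 1
  · simp [Pi.single_apply]
  · rw [adj, sum_filter]
    refine sum_congr rfl fun e _ => ?_
    by_cases h : Q.hd e = i
    · have h' : Q.tl e ≠ i := fun H => hQ e (h.trans H.symm)
      simp [oth, h, h']
    · by_cases h' : Q.tl e = i <;> simp [oth, h, h']

lemma sum_Ts {A : Type} [AddCommMonoid A] (f : TT Q → A) : ∑ b ∈ Ts Q w v i, f b =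
    ∑ e ∈ adj Q i, ∑ b ∈ range (v (oth Q i e)), f (.inl ⟨e, b⟩) + ∑ k ∈ range (w i), f (.inr k) := by
  rw [Ts, sum_disjSum, sum_sigma]

lemma card_Ts : ((Ts Q w v i).card : ℤ) = ∑ e ∈ adj Q i, (v (oth Q i e) : ℤ) + w i := by
  rw [card_eq_sum_ones, sum_Ts]
  simp

lemma sum_eT (d : Fin Q.n → ℕ → ℤ) :
    ∑ b ∈ Ts Q w v i, eT Q i d b = ∑ e ∈ adj Q i, deg Q v d (oth Q i e) := by
  simp [sum_Ts, eT, deg]

lemma sum_xp : ∑ b ∈ Ts Q w v i, xp Q i b = ∑ e ∈ adj Q i, detV Q v (oth Q i e) := by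
  simp [sum_Ts, xp, detV]

/-- reflection of characters -/
def dref (m : Fin Q.n → ℤ) (j : Fin Q.n) : ℤ :=
  m j - form Q (Pi.single j 1) (Pi.single i 1) * m i

include hQ

lemma sum_form {A : Type} [AddCommGroup A] (X : Fin Q.n → A) :
    ∑ j, form Q (Pi.single j 1) (Pi.single i 1) • X j =
      (2 : ℤ) • X i - ∑ e ∈ adj Q i, X (oth Q i e) := by
  simp only [form_single i hQ, sub_smul, sum_sub_distrib, mul_smul, ← smul_sum, sum_smul]
  rw [sum_comm]
  simp [Pi.single_apply]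

lemma form_self : form Q (Pi.single i 1) (Pi.single i 1) = 2 := by
  rw [form_single i hQ, sum_eq_zero fun e _ => Pi.single_eq_of_ne (oth_ne i hQ e) _]
  simp

lemma dref_self (m : Fin Q.n → ℤ) : dref i m i = -m i := by
  rw [dref, form_self i hQ]; ring

lemma dref_dot (m β : Fin Q.n → ℤ) : dref i m ⬝ᵥ β = m ⬝ᵥ refl Q i β := by
  have := sum_form i hQ β
  simp only [smul_eq_mul] at this
  simp only [refl, dotProduct_sub, dotProduct_single, form_single i hQ β, ← this]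
  simp only [dotProduct, dref, sub_mul, sum_sub_distrib, mul_sum]
  congr 1
  exact sum_congr rfl fun _ _ => by ring

lemma sum_dref (m : Fin Q.n → ℤ) (X : Fin Q.n → G) :
    ∑ j ∈ univ.erase i, dref i m j • X j =
      ∑ j ∈ univ.erase i, m j • X j + m i • ∑ e ∈ adj Q i, X (oth Q i e) := by
  have h := sum_form i hQ X
  rw [← add_sum_erase _ _ (mem_univ i), form_self i hQ] at h
  have e : ∑ j ∈ univ.erase i, dref i m j • X j = ∑ j ∈ univ.erase i, m j • X j -
      m i • ∑ j ∈ univ.erase i, form Q (Pi.single j 1) (Pi.single i 1) • X j := by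
    rw [← sum_zsmul, ← sum_sub_distrib]
    exact sum_congr rfl fun j _ => by rw [dref]; module
  rw [e]
  linear_combination (norm := module) (-m i) • h

omit hQ

variable (Q) in
/-- exponents free of the Chern roots at one vertex -/
def Si : AddSubgroup G where
  carrier := {g | ∀ a, co (ix i a) g = 0}
  zero_mem' := by simp
  add_mem' := fun {x y} hx hy a => by simp [hx a, hy a]
  neg_mem' := fun {x} hx a => by simp [hx a]

lemma xV_mem {j : Fin Q.n} (hj : j ≠ i) (a : ℕ) : xV j a ∈ Si Q i := fun b => by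
  have : ¬((j : ℕ) = i) := fun H => hj (Fin.ext H)
  simp [co_ix_xV, this]

lemma qq_Si : qq ∈ Si Q i := fun _ => co_ix_qq _ _

lemma hb_Si : hb ∈ Si Q i := fun _ => co_ix_hb _ _

lemma Rest_mem (d : Fin Q.n → ℕ → ℤ) : Rest Q w v i d ∈ CS (Si Q i).toAddSubmonoid := by
  have hq : qq ∈ Si Q i := fun a => co_ix_qq _ _
  have hh : hb ∈ Si Q i := fun a => co_ix_hb _ _
  have ht : tau ∈ Si Q i := fun a => co_ix_tau _ _
  have hE : ∀ e, tE e ∈ Si Q i := fun e a => co_ix_tE _ _ _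
  have hu : ∀ j k, uF j k ∈ Si Q i := fun j k a => co_ix_uF _ _ _ _
  refine mul_mem (mul_mem (prod_mem fun e he => prod_mem fun a _ => prod_mem fun b _ => ?_)
    (prod_mem fun e he => prod_mem fun a _ => prod_mem fun b _ => ?_))
    (prod_mem fun e he => prod_mem fun a _ => prod_mem fun b _ => ?_)
  · have : Q.hd e ≠ i ∧ Q.tl e ≠ i := by simpa [adj] using he
    exact Th_mem (sub_mem (add_mem (sub_mem (hE _) ht) (xV_mem i this.1 _))
      (xV_mem i this.2 _)) hq hh _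
  · exact Th_mem (sub_mem (sub_mem (xV_mem i (ne_of_mem_erase he) _) (hu _ _)) ht) hq hh _
  · exact inv_mem_CS (Th_mem (sub_mem (xV_mem i (ne_of_mem_erase he) _)
      (xV_mem i (ne_of_mem_erase he) _)) hq hh _)

lemma ss_zpow_mem {S : AddSubgroup G} (hq : qq ∈ S) (hh : hb ∈ S) (r : ℤ) :
    ss ^ r ∈ CS S.toAddSubmonoid := by
  rw [ss, ← mon_zsmul]
  exact mon_mem_CS (S.zsmul_mem (S.sub_mem hh hq) _)

lemma loc_glob {n : ℕ} (V : Vars2 (Fin n) (TT Q)) (hV : ∀ g ∈ Si Q i, ∀ a, V.π a g = 0)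
    (Ts : Finset (TT Q)) (e : TT Q → ℤ) (D : ℤ) (Ds : Finset (Fin n → ℤ))
    (h1 : ∀ d ∈ Ds, ∑ a, d a = D)
    (h2 : ∀ d : Fin n → ℤ, (∀ a, ∃ b ∈ Ts, e b ≤ d a) → ∑ a, d a = D → d ∈ Ds)
    {M : ι → ℤ} (hM : Tendsto M 𝓕 atTop) (m : ι → Fin Q.n → ℤ) {C : K}
    (hC : C ∈ CS (Si Q i).toAddSubmonoid) :
    (fun k => res Sall (mon (∑ j ∈ univ.erase i, m k j • detV Q v j) * C *
        (mon (∑ a, M k • V.ξ a) * ∑ d ∈ Ds, InF V.z Ts e d V.ξ)) -
      res Sall (mon (∑ j ∈ univ.erase i, m k j • detV Q v j) * C *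
        (n.factorial * LocA V.z Ts e n (M k) D))) ∈ Null 𝓕 := by
  obtain ⟨B, hB⟩ := exists_FF C
  have h := Null_mul_res (V.loc Ts e D Ds h1 h2 hM)
    (b := fun k => mon (∑ j ∈ univ.erase i, m k j • detV Q v j) * C) (B := B) (fun k => by
      have := mul_Ge (mon_FF (∑ j ∈ univ.erase i, m k j • detV Q v j)) hB
      simpa [map_sum, detV, co0_xV] using this) Sall
  convert h using 2 with k
  have hk : mon (∑ j ∈ univ.erase i, m k j • detV Q v j) * C ∈ Sup (Ker V.π univ) := by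
    refine Sup_mono (S := Si Q i) (T := Ker V.π univ) (fun g hg a _ => hV g hg a) ?_
    exact mul_mem (S := Subring K) (mon_mem_CS (S := (Si Q i).toAddSubmonoid)
      (sum_mem (S := Si Q i) fun j hj => zsmul_mem
        (sum_mem fun a _ => xV_mem i (ne_of_mem_erase hj) a) _)) hC
  rw [mul_sub, map_sub, ← res_mul hk, res_res, Fintype.card_fin,
    Set.inter_eq_self_of_subset_left]
  exact fun g hg a _ => hV g (fun b => hg i b) a

lemma sum_det_update (n : ℕ) (m : Fin Q.n → ℤ) :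
    ∑ j, m j • detV Q (Function.update v i n) j =
      ∑ j ∈ univ.erase i, m j • detV Q v j + ∑ a : Fin n, m i • xV i a := by
  rw [← sum_erase_add _ _ (mem_univ i)]
  congr 1
  · exact sum_congr rfl fun j hj => by
      simp only [detV, Function.update_of_ne (ne_of_mem_erase hj)]
  · simp only [detV, Function.update_self, sum_range, sum_zsmul]

/-- exponent coming from the change of polarization -/
def phi (d : Fin Q.n → ℕ → ℤ) (n : ℕ) (D : ℤ) : ℤ :=
  ∑ e with Q.tl e = i, (v (Q.hd e) * D - n * deg Q v d (Q.hd e))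

include hQ

lemma stepA {n : ℕ} (d : Fin Q.n → ℕ → ℤ) (D : ℤ) (Ds : Finset (Fin n → ℤ))
    (h1 : ∀ f ∈ Ds, ∑ a, f a = D)
    (h2 : ∀ f : Fin n → ℤ, (∀ a, ∃ b ∈ Ts Q w v i, eT Q i d b ≤ f a) → ∑ a, f a = D → f ∈ Ds)
    {m : ι → Fin Q.n → ℤ} (hM : Tendsto (fun k => m k i) 𝓕 atTop) :
    (fun k => ∑ f ∈ Ds, JJ Q w (Function.update v i n) (m k) (Function.update d i (ext0 f)) -
      res Sall (mon (∑ j ∈ univ.erase i, m k j • detV Q v j) *
        (Rest Q w v i d * ss ^ phi v i d n D) *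
        (n.factorial * LocA (yy Q i) (Ts Q w v i) (eT Q i d) n (m k i) D))) ∈ Null 𝓕 := by
  have h := loc_glob v i (VA Q i hQ n) (fun g hg a => hg a) _ _ D Ds h1 h2 hM m
    (mul_mem (Rest_mem w v i d)
      (ss_zpow_mem (qq_Si i) (hb_Si i) (phi v i d n D)))
  convert h using 3 with k
  swap
  · rfl
  simp only [mul_sum, map_sum]
  refine sum_congr rfl fun f hf => ?_
  rw [JJ, split_update w v i hQ, sum_det_update, mon_add, h1 f hf]
  congr 1
  simp only [VA, phi]
  ring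

lemma stepB {n : ℕ} (d : Fin Q.n → ℕ → ℤ) (D : ℤ) (Ds : Finset (Fin n → ℤ))
    (h1 : ∀ f ∈ Ds, ∑ a, f a = D)
    (h2 : ∀ f : Fin n → ℤ, (∀ a, ∃ b ∈ Ts Q w v i, f a ≤ eT Q i d b) → ∑ a, f a = D → f ∈ Ds)
    {m : ι → Fin Q.n → ℤ} (hM : Tendsto (fun k => -m k i) 𝓕 atTop) :
    (fun k => ∑ f ∈ Ds, JJ Q w (Function.update v i n) (m k) (Function.update d i (ext0 f)) -
      res Sall (mon (∑ j ∈ univ.erase i, m k j • detV Q v j) *
        (Rest Q w v i d * ss ^ (phi v i d n D +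
          (n * ∑ b ∈ Ts Q w v i, eT Q i d b - (Ts Q w v i).card * D))) *
        (n.factorial * LocA (fun b => hb - yy Q i b) (Ts Q w v i) (fun b => -eT Q i d b) n
          (-m k i) (-D)))) ∈ Null 𝓕 := by
  have h := loc_glob v i (VB Q i hQ n) (fun g hg a => by simp [VB, hg a]) (Ts Q w v i)
    (fun b => -eT Q i d b) (-D) (Ds.image Neg.neg)
    (fun f hf => by
      obtain ⟨g, hg, rfl⟩ := mem_image.mp hf
      simp [← h1 g hg])
    (fun f hf hs => mem_image.mpr ⟨-f, h2 _ (fun a => by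
      obtain ⟨b, hb, h⟩ := hf a
      exact ⟨b, hb, by simp only [Pi.neg_apply]; omega⟩) (by simp [hs]), neg_neg _⟩) hM m
    (mul_mem (Rest_mem w v i d)
      (ss_zpow_mem (qq_Si i) (hb_Si i) (phi v i d n D +
          (n * ∑ b ∈ Ts Q w v i, eT Q i d b - (Ts Q w v i).card * D))))
  convert h using 3 with k
  swap
  · rfl
  rw [sum_image fun _ _ _ _ h => neg_injective h]
  simp only [mul_sum (s := Ds), map_sum]
  refine sum_congr rfl fun f hf => ?_
  rw [JJ, split_update w v i hQ, sum_det_update, mon_add, InF_flip, h1 f hf, zpow_add₀ ss_ne]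
  congr 1
  simp only [VB, phi, Fintype.card_fin, neg_zsmul, zsmul_neg, neg_neg]
  rw [show (-f) = fun a => -f a from rfl]
  ring

/-- the weight by which the ample line bundle changes -/
noncomputable def kap0 (Q : Quiv) (w v : Fin Q.n → ℕ) (i : Fin Q.n) (n' : ℕ) : G :=
  ∑ b ∈ Ts Q w v i, kap Q i b - n' • hb

omit hQ in
lemma kap0_mem (n' : ℕ) : kap0 Q w v i n' ∈ Sall ∧ co 0 (kap0 Q w v i n') = 0 := by
  have : ∀ b, kap Q i b ∈ Sall ∧ co 0 (kap Q i b) = 0 := by
    rintro (p | k)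
    · simp only [kap]
      split_ifs
      · exact ⟨fun j a => by simp [co_ix_tau, co_ix_tE], by simp [co0_tau, co0_tE]⟩
      · exact ⟨fun j a => by simp [co_ix_tau, co_ix_tE], by simp [co0_tau, co0_tE]⟩
    · exact ⟨fun j a => by simp [kap, co_ix_tau, co_ix_uF], by simp [kap, co0_tau, co0_uF]⟩
  have hh : hb ∈ Sall := fun j a => co_ix_hb _ _
  exact ⟨sub_mem (sum_mem fun b _ => (this b).1) (nsmul_mem hh _),
    by simp [kap0, map_sum, this, co0_hb]⟩

lemma local_step {n n' : ℕ} (hn : (Ts Q w v i).card = n + n') (hle : n' ≤ n)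
    (d : Fin Q.n → ℕ → ℤ) (D E : ℤ) (hE : ∑ b ∈ Ts Q w v i, eT Q i d b = E)
    (Ds : Finset (Fin n → ℤ)) (h1 : ∀ f ∈ Ds, ∑ a, f a = D)
    (h2 : ∀ f : Fin n → ℤ, (∀ a, ∃ b ∈ Ts Q w v i, eT Q i d b ≤ f a) → ∑ a, f a = D → f ∈ Ds)
    {R : ℕ} (hR : ∀ I ∈ powersetCard n (Ts Q w v i), D - ∑ b ∈ I, eT Q i d b < R)
    (Ds' : ℕ → Finset (Fin n' → ℤ)) (h1' : ∀ j, ∀ f ∈ Ds' j, ∑ a, f a = E - D + j)
    (h2' : ∀ j : ℕ, ∀ f : Fin n' → ℤ, (∀ a, ∃ b ∈ Ts Q w v i, f a ≤ eT Q i d b) →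
      ∑ a, f a = E - D + j → f ∈ Ds' j)
    {m : ι → Fin Q.n → ℤ} (hM : Tendsto (fun k => m k i) 𝓕 atTop) :
    (fun k => n'.factorial *
        ∑ f ∈ Ds, JJ Q w (Function.update v i n) (m k) (Function.update d i (ext0 f)) -
      ∑ j ∈ range R, n.factorial * (PowerSeries.coeff j (Gs n' n) *
        ss ^ (phi v i d n D - (n + n') * j - (phi v i d n' (E - D + j) +
          (n' * E - (n + n') * (E - D + j))))) * (mon (m k i • kap0 Q w v i n') *
        ∑ f ∈ Ds' j, JJ Q w (Function.update v i n') (dref i (m k))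
          (Function.update d i (ext0 f)))) ∈ Null 𝓕 := by
  have hA := (Null 𝓕).smul_mem (n'.factorial : K) (stepA w v i hQ d D Ds h1 h2 hM)
  have hB := (Null 𝓕).sum_mem fun j (_ : j ∈ range R) => (Null 𝓕).smul_mem
    (n.factorial * (PowerSeries.coeff j (Gs n' n) *
        ss ^ (phi v i d n D - (n + n') * j - (phi v i d n' (E - D + j) +
          (n' * E - (n + n') * (E - D + j))))))
    (Null_mul (stepB w v i hQ d (E - D + j) (Ds' j) (h1' j) (h2' j) (m := fun k => dref i (m k))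
      (by simpa only [dref_self i hQ, neg_neg] using hM))
      (b := fun k => mon (m k i • kap0 Q w v i n')) (B := 0) fun k => by
        simpa [(kap0_mem w v i n').2] using mon_FF (m k i • kap0 Q w v i n'))
  convert sub_mem hA hB using 1
  ext1 k
  simp only [Pi.sub_apply, Pi.smul_apply, Finset.sum_apply, smul_eq_mul, mul_sub,
    sum_sub_distrib]
  rw [sub_sub, sub_right_inj, eq_comm, add_sub, sub_eq_iff_eq_add, add_comm, add_right_inj]
  have hl := loc_dual (yy_inj i) (co0_yy i) (eT Q i d) hn hle (m k i) D hR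
  have hq : qq ∈ Sall := fun j a => co_ix_qq _ _
  have hh : hb ∈ Sall := fun j a => co_ix_hb _ _
  have hf : ∀ r : ℕ, (r : K) ∈ Sup Sall := fun r => natCast_mem (CS Sall.toAddSubmonoid) r
  have e1 : mon (∑ j ∈ univ.erase i, m k j • detV Q v j) =
      mon (m k i • kap0 Q w v i n') * mon (∑ j ∈ univ.erase i, dref i (m k) j • detV Q v j) *
        mon (m k i • (n' • hb - ∑ b ∈ Ts Q w v i, yy Q i b)) := by
    rw [← mon_add, ← mon_add, sum_dref i hQ, ← sum_xp w, kap0]
    simp only [yy, sum_add_distrib]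
    congr 1
    module
  rw [← res_mul (hf _), e1, show ∀ a b c x y z u : K, a * (b * c * x * y * (z * u)) =
    a * b * c * y * z * (x * u) from fun _ _ _ _ _ _ _ => by ring, hl, mul_sum, map_sum]
  refine sum_congr rfl fun j _ => ?_
  rw [← res_mul (mon_mem (Sall.zsmul_mem (kap0_mem w v i n').1 _)),
    ← res_mul (mul_mem (S := Subring K) (natCast_mem (CS Sall.toAddSubmonoid) _)
      (mul_mem (coeff_Gs_mem hq hh _ _ _) (ss_zpow_mem hq hh _))),
    dref_self i hQ, neg_neg, hE, hn, show -(E - D + j) = D - E - j by ring]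
  congr 1
  have key : ∀ a b c : ℤ, ss ^ a * ss ^ (-b) = ss ^ (a - b - c) * ss ^ c := fun a b c => by
    rw [← zpow_add₀ ss_ne, ← zpow_add₀ ss_ne]
    congr 1
    ring
  simp only [Nat.cast_add]
  linear_combination (n'.factorial * mon (m k i • kap0 Q w v i n') *
    mon (∑ j ∈ univ.erase i, dref i (m k) j • detV Q v j) * Rest Q w v i d * n.factorial *
    PowerSeries.coeff j (Gs n' n) * LocA (fun b => hb - yy Q i b) (Ts Q w v i)
      (fun b => -eT Q i d b) n' (m k i) (D - E - j)) * key (phi v i d n D) ((n + n') * j)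
      (phi v i d n' (E - D + j) + (n' * E - (n + n') * (E - D + j)))

end Pool.Agent.MP_8be872_ag.H38
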