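import Pool.Agent.MP_8be872_ag.H38.Local

/-! Summation over the degrees at one vertex. -/

namespace Pool.Agent.MP_8be872_ag.H38

open Finset Filter

set_option maxHeartbeats 400000
set_option linter.unusedSectionVars false

variable {α T ι : Type} [DecidableEq α] [Fintype α] [DecidableEq T]

noncomputable def coefZ (f : PowerSeries K) (k : ℤ) : K :=
  if 0 ≤ k then PowerSeries.coeff k.toNat f else 0

noncomputable def LocT (z : T → G) (Ts : Finset T) (e : T → ℤ) (M D : ℤ) (I : Finset T) : K :=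
  mon (M • ∑ b ∈ I, z b) * (Base z e I (Ts \ I) *
    (coefZ (Aser (mon qq) ss I (Ts \ I) (XX z e) (ZZ z e)) (D - ∑ b ∈ I, e b) *
      ss ^ (-(Ts.card * (D - ∑ b ∈ I, e b)))))

noncomputable def LocA (z : T → G) (Ts : Finset T) (e : T → ℤ) (n : ℕ) (M D : ℤ) : K :=
  ∑ I ∈ powersetCard n Ts, LocT z Ts e M D I

open Classical in
lemma sum_inj (Ts : Finset T) (F : Finset T → K) :
    ∑ β ∈ Fintype.piFinset (fun _ : α => Ts) with Function.Injective β, F (image β univ) =
      (Fintype.card α).factorial * ∑ I ∈ powersetCard (Fintype.card α) Ts, F I := by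
  rw [← sum_fiberwise_of_maps_to (t := powersetCard (Fintype.card α) Ts)
    (g := fun β : α → T => image β univ), mul_sum]
  · refine sum_congr rfl fun I hI => ?_
    obtain ⟨hI1, hI2⟩ := mem_powersetCard.mp hI
    rw [sum_congr rfl (g := fun _ => F I) (fun β hβ => by rw [(mem_filter.mp hβ).2]), sum_const,
      nsmul_eq_mul]
    congr 2
    have : Fintype.card (α ↪ I) = (Fintype.card α).factorial := by
      rw [Fintype.card_embedding_eq, Fintype.card_coe, hI2, Nat.descFactorial_self]
    rw [← this, ← card_univ]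
    symm
    refine card_nbij (fun f a => (f a : T)) ?_ ?_ ?_
    · intro f _
      have hinj : Function.Injective fun a => (f a : T) :=
        fun a b h => f.injective (Subtype.ext h)
      simp only [coe_filter, mem_filter, Fintype.mem_piFinset, Set.mem_ofPred_eq]
      refine ⟨⟨fun a => hI1 (f a).2, hinj⟩, eq_of_subset_of_card_le ?_ ?_⟩
      · intro b hb
        obtain ⟨a, -, rfl⟩ := mem_image.mp hb
        exact (f a).2
      · rw [card_image_of_injective _ hinj, hI2, card_univ]
    · intro f _ g _ h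
      ext a
      exact congrFun h a
    · intro β hβ
      simp only [coe_filter, mem_filter, Fintype.mem_piFinset, Set.mem_ofPred_eq] at hβ
      obtain ⟨⟨-, h2⟩, h3⟩ := hβ
      exact ⟨⟨fun a => ⟨β a, h3 ▸ mem_image_of_mem _ (mem_univ a)⟩,
        fun a b h => h2 (congrArg Subtype.val h)⟩, by simp, rfl⟩
  · intro β hβ
    simp only [mem_filter, Fintype.mem_piFinset] at hβ
    refine mem_powersetCard.mpr ⟨fun b hb => ?_, by rw [card_image_of_injective _ hβ.2, card_univ]⟩
    obtain ⟨a, -, rfl⟩ := mem_image.mp hb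
    exact hβ.1 a

lemma sum_deg {z : T → G} (hinj : Function.Injective z) (hq : ∀ b, co 0 (z b) = 0)
    (hz2 : ∀ b b', hb + z b - z b' ≠ 0) {Ts : Finset T} (e : T → ℤ) (M D : ℤ) {β : α → T}
    (hβ : Function.Injective β) (hT : ∀ a, β a ∈ Ts) (Ds : Finset (α → ℤ))
    (h : ∀ d, d ∈ Ds ↔ (∀ a, e (β a) ≤ d a) ∧ ∑ a, d a = D) :
    ∑ d ∈ Ds, mon (∑ a, M • z (β a)) * InF z Ts e d (fun a => z (β a)) =
      LocT z Ts e M D (image β univ) := by
  have hI : image β univ ⊆ Ts := fun b hb => by
    obtain ⟨a, -, rfl⟩ := mem_image.mp hb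
    exact hT a
  have hs : ∀ {R : Type} [AddCommMonoid R] (f : T → R), ∑ b ∈ image β univ, f b = ∑ a, f (β a) :=
    fun f => sum_image fun a _ b _ h => hβ h
  have hp : ∀ f : T → K, ∏ b ∈ image β univ, f b = ∏ a, f (β a) :=
    fun f => prod_image fun a _ b _ h => hβ h
  rw [← mul_sum, LocT, hs z, sum_zsmul]
  congr 1
  unfold coefZ
  split_ifs with hk
  · rw [Aser, PowerSeries.coeff_mk, sum_mul, mul_sum]
    symm
    refine sum_nbij (fun γ a => e (β a) + γ (β a)) ?_ ?_ ?_ ?_
    · intro γ hγ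
      obtain ⟨h1, -⟩ := mem_piAntidiag.mp hγ
      refine (h _).mpr ⟨fun a => by simp, ?_⟩
      rw [sum_add_distrib, ← hs e, ← hs (fun b => (γ b : ℤ)), ← Nat.cast_sum, h1]
      omega
    · intro γ hγ γ' hγ' H
      ext b
      by_cases hb : b ∈ image β univ
      · obtain ⟨a, -, rfl⟩ := mem_image.mp hb
        simpa using congrFun H a
      · have h1 : γ b = 0 := by_contra fun H => hb ((mem_piAntidiag.mp hγ).2 b H)
        have h2 : γ' b = 0 := by_contra fun H => hb ((mem_piAntidiag.mp hγ').2 b H)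
        rw [h1, h2]
    · intro d hd
      obtain ⟨h1, h2⟩ := (h d).mp hd
      have he : ∀ a, e (β a) +
          (Function.extend β (fun a => (d a - e (β a)).toNat) 0 (β a) : ℕ) = d a := fun a => by
        rw [hβ.extend_apply]
        have := h1 a
        omega
      refine ⟨Function.extend β (fun a => (d a - e (β a)).toNat) 0,
        mem_piAntidiag.mpr ⟨?_, fun b hb => ?_⟩, funext he⟩
      · have := sum_congr rfl fun a (_ : a ∈ univ) => he a
        rw [sum_add_distrib, h2, ← hs e, ← Nat.cast_sum,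
          ← hs (Function.extend β (fun a => (d a - e (β a)).toNat) 0)] at this
        change ∑ b ∈ image β univ, Function.extend β (fun a => (d a - e (β a)).toNat) 0 b = _
        omega
      · by_contra hn
        rw [Function.extend_apply'] at hb
        · exact hb rfl
        · rintro ⟨a, rfl⟩
          exact hn (mem_image_of_mem _ (mem_univ a))
    · intro γ hγ
      obtain ⟨h1, -⟩ := mem_piAntidiag.mp hγ
      have := eval_fin hinj hq hz2 hI e γ
      simp only [hp] at this
      rw [InF, this, h1, zpow_neg, inv_pow, ← zpow_natCast, Nat.cast_mul, Int.toNat_of_nonneg hk]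
  · rw [zero_mul, mul_zero]
    refine sum_eq_zero fun d hd => absurd ?_ hk
    obtain ⟨h1, h2⟩ := (h d).mp hd
    rw [hs e, ← h2, sub_nonneg]
    exact sum_le_sum fun a _ => h1 a

/-- the constant term at one vertex, summed over the degrees -/
lemma Vars2.loc (V : Vars2 α T) (Ts : Finset T) (e : T → ℤ) (D : ℤ) (Ds : Finset (α → ℤ))
    (h1 : ∀ d ∈ Ds, ∑ a, d a = D)
    (h2 : ∀ d : α → ℤ, (∀ a, ∃ b ∈ Ts, e b ≤ d a) → ∑ a, d a = D → d ∈ Ds) {𝓕 : Filter ι}
    {M : ι → ℤ} (hM : Tendsto M 𝓕 atTop) :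
    (fun i => res (Ker V.π univ) (mon (∑ a, M i • V.ξ a) * ∑ d ∈ Ds, InF V.z Ts e d V.ξ) -
      (Fintype.card α).factorial * LocA V.z Ts e (Fintype.card α) (M i) D) ∈ Null 𝓕 := by
  classical
  have h := Submodule.sum_mem _ fun d (_ : d ∈ Ds) => V.ra Ts e d hM
  convert h using 1
  ext1 i
  rw [Finset.sum_apply, sum_sub_distrib, mul_sum, map_sum]
  congr 1
  rw [LocA, ← sum_inj]
  simp only [← filter_filter]
  simp only [sum_filter (p := fun β : α → T => ∀ a, e (β a) ≤ _)]
  rw [sum_comm]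
  refine sum_congr rfl fun β hβ => ?_
  simp only [mem_filter, Fintype.mem_piFinset] at hβ
  rw [← sum_filter]
  symm
  refine sum_deg V.hinj V.q2 V.hz2 e _ D hβ.2 hβ.1 _ fun d => ?_
  rw [mem_filter]
  exact ⟨fun H => ⟨H.2, h1 d H.1⟩, fun H => ⟨h2 d (fun a => ⟨_, hβ.1 a, H.1 a⟩) H.2, H.1⟩⟩

end Pool.Agent.MP_8be872_ag.H38
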