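import Pool.Agent.MP_8be872_ag.H38.Ev

/-! The contribution of a pair of dual weights. -/

namespace Pool.Agent.MP_8be872_ag.H38

open Finset Filter

set_option maxHeartbeats 400000

lemma neg_one_inv (m : ℤ) : ((-1 : K) ^ m)⁻¹ = (-1) ^ m := by
  rcases Int.even_or_odd m with hm | hm <;> rw [hm.neg_one_zpow]
  · exact inv_one
  · exact inv_eq_of_mul_eq_one_right (by ring)

noncomputable def ar (u : G) : K := if u = 0 then 1 else (1 - mon (-u))⁻¹

noncomputable def Ar (w : G) (m : ℤ) : K :=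
  (∏ l ∈ Icc 0 m, ar (w + l • qq)) * ∏ l ∈ Ioo m 0, (ar (w + l • qq))⁻¹

noncomputable def sg (w : G) (m : ℤ) : K :=
  (-1) ^ m * mon (-(m • (w + hb)) - (m * (m - 1) / 2) • qq)

noncomputable def Th (w : G) (m : ℤ) : K := Ar w m * Ar (-hb - w) (-m) * sg w m

/-- `ħ/q` -/
noncomputable def ss : K := mon (hb - qq)

noncomputable def psi (u : G) : K := ar u * (ar (qq - hb - u))⁻¹ * -mon (-u - (hb - qq))

lemma ar_of_ne {u : G} (h : u ≠ 0) : ar u = (1 - mon (-u))⁻¹ := if_neg h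

lemma ar_zero : ar 0 = 1 := if_pos rfl

lemma ar_ne (u : G) : ar u ≠ 0 := by
  unfold ar
  split_ifs with h
  · exact one_ne_zero
  · exact inv_ne_zero (one_sub_mon_ne (neg_ne_zero.mpr h))

lemma Ar_ne (w : G) (m : ℤ) : Ar w m ≠ 0 :=
  mul_ne_zero (prod_ne_zero_iff.mpr fun _ _ => ar_ne _)
    (prod_ne_zero_iff.mpr fun _ _ => inv_ne_zero (ar_ne _))

lemma sg_ne (w : G) (m : ℤ) : sg w m ≠ 0 :=
  mul_ne_zero (zpow_ne_zero _ (by norm_num)) (mon_ne _)

lemma Th_ne (w : G) (m : ℤ) : Th w m ≠ 0 :=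
  mul_ne_zero (mul_ne_zero (Ar_ne _ _) (Ar_ne _ _)) (sg_ne _ _)

lemma ss_ne : ss ≠ 0 := mon_ne _

lemma lam_eq {w : G} (h : ∀ l : ℤ, w + l • qq ≠ 0) (m : ℤ) : lam w m = Ar w m := by
  simp only [lam, Ar, ar_of_ne (h _), inv_inv, prod_inv_distrib]

lemma pairF_eq {w : G} (h : ∀ l : ℤ, w + l • qq ≠ 0) (h' : ∀ l : ℤ, -hb - w + l • qq ≠ 0)
    (m : ℤ) : pairF w m * (-mon (-tau)) ^ m = Th w m := by
  rw [pairF, lam_eq h, lam_eq h', Th, sg, mul_assoc, neg_eq_neg_one_mul (mon _), mul_zpow, ← mon_zsmul,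
    mul_left_comm (mon _), ← mon_add]
  congr 3
  simp only [hb, zsmul_add, zsmul_neg']
  rw [show (-m) • tau = -(m • tau) from neg_zsmul _ _]
  abel

lemma Ar_succ (w : G) (m : ℤ) : Ar w (m + 1) = Ar w m * ar (w + (m + 1) • qq) := by
  unfold Ar
  rcases le_or_gt 0 (m + 1) with h | h
  · have e1 : Icc 0 (m + 1) = insert (m + 1) (Icc 0 m) := by
      ext x; simp only [mem_Icc, mem_insert]; omega
    have e2 : Ioo (m + 1) 0 = ∅ := by ext x; simp only [mem_Ioo]; simp; omega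
    have e3 : Ioo m 0 = ∅ := by ext x; simp only [mem_Ioo]; simp; omega
    rw [e1, e2, e3, prod_insert (by simp)]
    ring
  · have e1 : Icc 0 (m + 1) = ∅ := by ext x; simp only [mem_Icc]; simp; omega
    have e2 : Icc 0 m = ∅ := by ext x; simp only [mem_Icc]; simp; omega
    have e3 : Ioo m 0 = insert (m + 1) (Ioo (m + 1) 0) := by
      ext x; simp only [mem_Ioo, mem_insert]; omega
    rw [e1, e2, e3, prod_insert (by simp)]
    have := ar_ne (w + (m + 1) • qq)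
    field_simp

lemma tri_succ (m : ℤ) : (m + 1) * (m + 1 - 1) / 2 = m * (m - 1) / 2 + m := by
  rw [show (m + 1) * (m + 1 - 1) = m * (m - 1) + m * 2 by ring, Int.add_mul_ediv_right _ _ two_ne_zero]

lemma sg_succ (w : G) (m : ℤ) : sg w (m + 1) = sg w m * -mon (-(w + hb) - m • qq) := by
  unfold sg
  rw [tri_succ, zpow_add_one₀ (by norm_num), mul_neg, mul_neg, mul_one, neg_mul, mul_assoc,
    ← mon_add]
  congr 3
  module

lemma Th_succ (w : G) (m : ℤ) : Th w (m + 1) = Th w m * psi (w + (m + 1) • qq) := by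
  have h := Ar_succ (-hb - w) (-(m + 1))
  rw [show -(m + 1) + 1 = -m by ring] at h
  unfold Th psi
  rw [Ar_succ, sg_succ, h, show qq - hb - (w + (m + 1) • qq) = -hb - w + (-m) • qq by module,
    show -(w + (m + 1) • qq) - (hb - qq) = -(w + hb) - m • qq by module]
  have := ar_ne (-hb - w + (-m) • qq)
  field_simp

lemma Th_add (w : G) (m : ℤ) (g : ℕ) :
    Th w (m + g) = Th w m * ∏ l ∈ range g, psi (w + (m + l + 1) • qq) := by
  induction g with
  | zero => simp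
  | succ g ih => rw [prod_range_succ, Nat.cast_succ, ← add_assoc, Th_succ, ih, mul_assoc]

lemma psi_eq {u : G} (h : u ≠ 0) (h' : qq - hb - u ≠ 0) : psi u = ee ss (mon u) * ss⁻¹ := by
  have h1 := one_sub_mon_ne h
  have h2 := mon_ne u
  have h3 := ss_ne
  rw [psi, ar_of_ne h, ar_of_ne h', ee, if_neg (fun H => h (mon_eq_one.mp H)), inv_inv,
    show -(qq - hb - u) = (hb - qq) + u by abel, show -u - (hb - qq) = -u + -(hb - qq) by abel,
    mon_add, mon_add, mon_neg, mon_neg, ← ss, show 1 - (mon u)⁻¹ = -(1 - mon u) / mon u by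
      field_simp; ring]
  field_simp

lemma Th_flip (w : G) (m : ℤ) : Th (-hb - w) (-m) = Th w m * ss ^ m := by
  unfold Th sg
  rw [show -hb - (-hb - w) = w by abel, neg_neg, ss, ← mon_zsmul,
    show -m * (-m - 1) / 2 = m * (m - 1) / 2 + m by rw [← tri_succ]; congr 1; ring,
    show ((-1 : K)) ^ (-m) = (-1) ^ m by rw [zpow_neg, neg_one_inv],
    mul_assoc _ _ (mon _), mul_assoc _ _ (mon _), ← mon_add, mul_comm (Ar w m)]
  congr 3
  module

lemma inv_mem_CS {S : AddSubgroup G} {f : K} (hf : f ∈ CS S.toAddSubmonoid) :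
    f⁻¹ ∈ CS S.toAddSubmonoid := by
  by_cases h : f = 0
  · simp [h]
  · have h1 := res_mul (S := S) hf f⁻¹
    rw [mul_inv_cancel₀ h, res_of_mem (f := 1) (mon_mem S.zero_mem)] at h1
    rw [← eq_inv_of_mul_eq_one_right h1.symm]
    exact res_mem _ _

lemma ar_mem {S : AddSubgroup G} {u : G} (h : u ∈ S) : ar u ∈ CS S.toAddSubmonoid := by
  unfold ar
  split_ifs
  · exact one_mem _
  · exact inv_mem_CS (sub_mem (one_mem _) (mon_mem_CS (S.neg_mem h)))

lemma Th_mem {S : AddSubgroup G} {w : G} (h : w ∈ S) (hq : qq ∈ S) (hh : hb ∈ S) (m : ℤ) :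
    Th w m ∈ CS S.toAddSubmonoid := by
  have hA : ∀ w ∈ S, ∀ m, Ar w m ∈ CS S.toAddSubmonoid := fun w h m =>
    mul_mem (prod_mem fun l _ => ar_mem (S.add_mem h (S.zsmul_mem hq _)))
      (prod_mem fun l _ => inv_mem_CS (ar_mem (S.add_mem h (S.zsmul_mem hq _))))
  refine mul_mem (mul_mem (hA _ h _) (hA _ (S.sub_mem (S.neg_mem hh) h) _)) (mul_mem ?_ ?_)
  · rcases Int.even_or_odd m with hm | hm
    · rw [hm.neg_one_zpow]; exact one_mem _
    · rw [hm.neg_one_zpow]; exact neg_mem (one_mem _)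
  · exact mon_mem_CS (S.sub_mem (S.neg_mem (S.zsmul_mem (S.add_mem h hh) _)) (S.zsmul_mem hq _))

noncomputable def AQ (w : G) (m : ℤ) : K :=
  (∏ l ∈ Icc 1 m, ar (w + l • qq)) * ∏ l ∈ Ioo m 0, (ar (w + l • qq))⁻¹

/-- the part of `Th` without the weights fixed by `q` -/
noncomputable def ThQ (w : G) (m : ℤ) : K := AQ w m * AQ (-hb - w) (-m) * sg w m

lemma Ar_eq (w : G) (m : ℤ) : Ar w m = (if 0 ≤ m then ar w else 1) * AQ w m := by
  unfold Ar AQ
  split_ifs with h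
  · have e1 : Icc 0 m = insert 0 (Icc 1 m) := by
      ext x; simp only [mem_Icc, mem_insert]; omega
    rw [e1, prod_insert (by simp)]
    simp [mul_assoc]
  · have e1 : Icc 0 m = ∅ := by ext x; simp only [mem_Icc]; simp; omega
    have e2 : Icc 1 m = ∅ := by ext x; simp only [mem_Icc]; simp; omega
    simp [e1, e2]

lemma Th_eq (w : G) (m : ℤ) : Th w m =
    ThQ w m * ((if 0 ≤ m then ar w else 1) * if m ≤ 0 then ar (-hb - w) else 1) := by
  rw [Th, ThQ, Ar_eq, Ar_eq]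
  simp only [Left.nonneg_neg_iff]
  ring

lemma co0_qq : co 0 qq = 1 := by simp [qq, co_gen]
lemma co0_tau : co 0 tau = 0 := by simp [tau, co_gen]
lemma co0_hb : co 0 hb = 0 := by simp [hb, co0_tau]
lemma co1_qq : co 1 qq = 0 := by simp [qq, co_gen]
lemma co1_tau : co 1 tau = 1 := by simp [tau, co_gen]
lemma co1_hb : co 1 hb = 2 := by simp [hb, co1_tau]

section
variable {B : Type} {φ : B → G →+ G} {Bs : Finset B} (hφ : ∀ β g, co 0 (φ β g) = co 0 g)
include hφ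

lemma Ev.ar {u : G} (hu : co 0 u ≠ 0) : Ev φ Bs (ar u) (fun β => ar (φ β u)) := by
  have h0 : u ≠ 0 := by rintro rfl; simp at hu
  rw [ar_of_ne h0]
  refine (Ev.geo hφ (u := -u) (by simpa using hu)).congr fun β _ => ?_
  rw [ar_of_ne (fun h => hu (by rw [← hφ β, h]; simp)), map_neg]

lemma Ev.ar_inv {u : G} (hu : co 0 u ≠ 0) :
    Ev φ Bs (H38.ar u)⁻¹ (fun β => (H38.ar (φ β u))⁻¹) := by
  have h0 : u ≠ 0 := by rintro rfl; simp at hu
  rw [ar_of_ne h0, inv_inv]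
  refine (Ev.one_sub (-u)).congr fun β _ => ?_
  rw [ar_of_ne (fun h => hu (by rw [← hφ β, h]; simp)), map_neg, inv_inv]

variable (hq : ∀ β, φ β qq = qq) (hh : ∀ β, φ β hb = hb)
include hq

lemma Ev.AQ {w : G} (hw : co 0 w = 0) (m : ℤ) :
    Ev φ Bs (AQ w m) (fun β => AQ (φ β w) m) ∧
      Ev φ Bs (AQ w m)⁻¹ (fun β => (AQ (φ β w) m)⁻¹) := by
  have h1 : ∀ l ∈ Icc 1 m, co 0 (w + l • qq) ≠ 0 := fun l hl => by
    simp only [mem_Icc] at hl; simp [hw, co0_qq]; omega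
  have h2 : ∀ l ∈ Ioo m 0, co 0 (w + l • qq) ≠ 0 := fun l hl => by
    simp only [mem_Ioo] at hl; simp [hw, co0_qq]; omega
  constructor
  · refine ((Ev.prod _ fun l hl => Ev.ar hφ (h1 l hl)).mul
      (Ev.prod _ fun l hl => Ev.ar_inv hφ (h2 l hl))).congr fun β _ => ?_
    simp only [map_add, map_zsmul, hq, H38.AQ]
  · simp only [H38.AQ, mul_inv, ← prod_inv_distrib, inv_inv]
    refine ((Ev.prod _ fun l hl => Ev.ar_inv hφ (h1 l hl)).mul
      (Ev.prod _ fun l hl => Ev.ar hφ (h2 l hl))).congr fun β _ => ?_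
    simp only [map_add, map_zsmul, hq]

include hh

lemma Ev.ThQ {w : G} (hw : co 0 w = 0) (m : ℤ) :
    Ev φ Bs (ThQ w m) (fun β => ThQ (φ β w) m) ∧
      Ev φ Bs (ThQ w m)⁻¹ (fun β => (ThQ (φ β w) m)⁻¹) := by
  have h1 := Ev.AQ (Bs := Bs) hφ hq hw m
  have h2 := Ev.AQ (Bs := Bs) hφ hq (w := -hb - w) (by simp [hw, co0_hb]) (-m)
  simp only [map_sub, map_neg, hh] at h2
  have h3 : Ev φ Bs ((-1 : K) ^ m) (fun _ => (-1 : K) ^ m) := by
    rcases Int.even_or_odd m with hm | hm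
    · rw [hm.neg_one_zpow]; exact Ev.one
    · rw [hm.neg_one_zpow]; exact Ev.one.neg
  constructor
  · refine ((h1.1.mul h2.1).mul (h3.mul (Ev.mon _))).congr fun β _ => ?_
    simp only [map_sub, map_neg, map_zsmul, map_add, hq, hh, H38.ThQ, sg]
  · have h4 := (h1.2.mul h2.2).mul
      (h3.mul (Ev.mon (-(-(m • (w + hb)) - (m * (m - 1) / 2) • qq))))
    simp only [map_sub, map_neg, map_zsmul, map_add, hq, hh] at h4
    simp only [H38.ThQ, sg, mul_inv, neg_one_inv, ← mon_neg]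
    exact h4

end

lemma Reg.ThQ {w : G} (hw : co 0 w = 0) (m : ℤ) : Reg (ThQ w m) ∧ Reg (ThQ w m)⁻¹ := by
  have := Ev.ThQ (B := Empty) (φ := fun _ => 0) (Bs := ∅) (fun β => β.elim) (fun β => β.elim)
    (fun β => β.elim) hw m
  exact ⟨this.1.reg, this.2.reg⟩

end Pool.Agent.MP_8be872_ag.H38
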